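import Pool.Agent.Lib.PosetForcing.Card
import Pool.Agent.Lib.PosetForcing.Cond
import Pool.Agent.P.MP_63de32_gt.Defs

-- part Pool.Agent.P.MP_63de32_gt.Pos1
section

set_option autoImplicit false

/-! Countably compact weakly theta-refinable subspaces are compact, in extensions by countably
closed posets. -/

open Pool.Agent.Lib.PosetForcing

namespace Pool.Agent.P.MP_63de32_gt.Pos

universe u

variable {P : Type u} [Preorder P] [OrderTop P]

instance clopen_isFin (a b : Name P) :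
    Clopen fun U : Gen P => IsFin Mod.mem (a.val U) (b.val U) := by
  unfold IsFin; infer_instance

instance clopen_covers (a b : Name P) :
    Clopen fun U : Gen P => Covers Mod.mem (a.val U) (b.val U) := by
  unfold Covers; infer_instance

instance clopen_relOpen (a b c : Name P) :
    Clopen fun U : Gen P => RelOpen Mod.mem (a.val U) (b.val U) (c.val U) := by
  unfold RelOpen; infer_instance

instance clopen_conv (a b c d : Name P) :
    Clopen fun U : Gen P => Conv Mod.mem (a.val U) (b.val U) (c.val U) (d.val U) := by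
  unfold Conv; infer_instance

/-- countably closed -/
def SC (P : Type u) [Preorder P] : Prop :=
  ∀ p : ℕ → P, (∀ n, p (n + 1) ≤ p n) → ∃ q, ∀ i, q ≤ p i

/-- forced membership -/
abbrev In (p : P) (a b : Name P) : Prop := Forces p fun U => Mod.mem (a.val U) (b.val U)

/-- forced inequality -/
abbrev Neq (p : P) (a b : Name P) : Prop := Forces p fun U => a.val U ≠ b.val U

theorem dc {S : Type*} (I : S → Prop) (R : ℕ → S → S → Prop) (s0 : S) (h0 : I s0)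
    (h : ∀ n s, I s → ∃ t, I t ∧ R n s t) :
    ∃ f : ℕ → S, f 0 = s0 ∧ ∀ n, I (f n) ∧ R n (f n) (f (n + 1)) := by
  have : ∀ n (s : {s // I s}), ∃ t : {s // I s}, R n s.1 t.1 := fun n s => by
    obtain ⟨t, h1, h2⟩ := h n s.1 s.2
    exact ⟨⟨t, h1⟩, h2⟩
  choose g hg using this
  let x : ℕ → {s // I s} := fun n => Nat.rec ⟨s0, h0⟩ g n
  exact ⟨fun n => (x n).1, rfl, fun n => ⟨(x n).2, hg n (x n)⟩⟩

theorem length_le {p : P} {E : Name P} {m : ℕ}
    (h : Forces p fun U => LeCard Mod.mem (E.val U) ((natName m).val U)) {l : List (Name P)}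
    (h1 : ∀ g ∈ l, In p g E) (h2 : l.Pairwise (Neq p)) : l.length ≤ m := by
  obtain ⟨U, hU⟩ := exists_gen p
  obtain ⟨j, hj, hj'⟩ := h U hU
  have : ∀ i : Fin l.length, ∃ a : Fin m,
      App Mod.mem j ((l.get i).val U) ((natName a.val).val U) := fun i => by
    obtain ⟨y, hy⟩ := hj.2.1 _ (h1 _ (List.get_mem l i) U hU)
    obtain ⟨a, ha, rfl⟩ := (mem_natName U y).1 ((isZFC U).app_val hj hy).2
    exact ⟨⟨a, ha⟩, hy⟩
  choose f hf using this
  have hi : Function.Injective f := fun a b e => by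
    have e' := hj' _ _ _ (hf a) (e ▸ hf b)
    rcases lt_trichotomy a b with g | g | g
    · exact absurd e' (List.pairwise_iff_get.1 h2 a b g U hU)
    · exact g
    · exact absurd e'.symm (List.pairwise_iff_get.1 h2 b a g U hU)
  simpa using Fintype.card_le_of_injective f hi

omit [OrderTop P] in
theorem exists_max {p : P} {m k0 : ℕ} (G : ℕ → P → Prop) (h0 : G k0 p)
    (hb : ∀ k, ∀ q ≤ p, G k q → k ≤ m) :
    ∃ k, ∃ q ≤ p, G (k0 + k) q ∧ ∀ r ≤ q, ¬ G (k0 + k + 1) r := by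
  by_contra hc
  push Not at hc
  have : ∀ k, ∃ q ≤ p, G (k0 + k) q := fun k => by
    induction k with
    | zero => exact ⟨p, le_rfl, h0⟩
    | succ k ih =>
      obtain ⟨q, hq, g⟩ := ih
      obtain ⟨r, hr, g'⟩ := hc k q hq g
      exact ⟨r, hr.trans hq, g'⟩
  obtain ⟨q, hq, g⟩ := this (m + 1)
  have := hb _ q hq g
  omega

theorem fin_decide {p : P} {E : Name P}
    (h : Forces p fun U => IsFin Mod.mem (omegaName.val U) (E.val U)) :
    ∃ q ≤ p, ∃ m, Forces q fun U => LeCard Mod.mem (E.val U) ((natName m).val U) := by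
  obtain ⟨n, hn⟩ := Forces.exists_name
    (Φ := fun U n => Mod.mem n (omegaName.val U) ∧ LeCard Mod.mem (E.val U) n) h
  obtain ⟨q, hq, m, hm⟩ := Forces.exists_fam (hn.imp fun _ h => h.1)
  exact ⟨q, hq, m.down, ((hn.mono hq).and hm).imp fun U h => h.2 ▸ h.1.2⟩

omit [OrderTop P] in
theorem eq_or_neq (r : P) (u : Name P) (l : List (Name P)) :
    (∃ s ≤ r, ∃ v ∈ l, Forces s fun U => u.val U = v.val U) ∨ ∀ v ∈ l, Neq r u v := by
  by_cases h : ∃ s ≤ r, ∃ v ∈ l, Forces s fun U => u.val U = v.val U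
  · exact Or.inl h
  · exact Or.inr fun v hv => forces_not_iff.2 fun s hs g => h ⟨s, hs, v, hv, g⟩

theorem fin_elim {p : P} {E : Name P}
    (h : Forces p fun U => IsFin Mod.mem (omegaName.val U) (E.val U)) :
    ∃ q ≤ p, ∃ l : List (Name P), (∀ u ∈ l, In q u E) ∧
      ∀ r ≤ q, ∀ u, In r u E → ∃ s ≤ r, ∃ v ∈ l, Forces s fun U => u.val U = v.val U := by
  obtain ⟨q, hq, m, hm⟩ := fin_decide h
  obtain ⟨k, r, hr, ⟨l, l1, l2, l3⟩, hk⟩ := exists_max (p := q) (m := m) (k0 := 0)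
    (fun k r => ∃ l : List (Name P), l.length = k ∧ (∀ u ∈ l, In r u E) ∧ l.Pairwise (Neq r))
    ⟨[], rfl, by simp, by simp⟩ fun k r hr ⟨l, l1, l2, l3⟩ => l1 ▸ length_le (hm.mono hr) l2 l3
  refine ⟨r, hr.trans hq, l, l2, fun s hs u hu => (eq_or_neq s u l).resolve_right fun g => ?_⟩
  refine hk s hs ⟨u :: l, by simp [l1], ?_, List.pairwise_cons.2 ⟨g, l3.imp fun h => h.mono hs⟩⟩
  exact List.forall_mem_cons.2 ⟨hu, fun v hv => (l2 v hv).mono hs⟩

omit [OrderTop P] in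
theorem inter_list {X T y : Name P} {p : P}
    (hT : Forces p fun U => IsTop Mod.mem (X.val U) (T.val U)) (hy : In p y X) {ι : Type*}
    (l : List ι) (R : ι → Name P → Prop)
    (hR : ∀ i V W, (∀ U, IsSub Mod.mem (V.val U) (W.val U)) → R i W → R i V)
    (h : ∀ i ∈ l, ∃ W, In p W T ∧ In p y W ∧ R i W) :
    ∃ V, In p V T ∧ In p y V ∧ ∀ i ∈ l, R i V := by
  induction l with
  | nil => exact ⟨X, hT.imp fun _ h => h.2.1, hy, by simp⟩
  | cons i l ih =>
    obtain ⟨V, a1, a2, a3⟩ := ih fun j hj => h j (List.mem_cons_of_mem _ hj)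
    obtain ⟨W, b1, b2, b3⟩ := h i List.mem_cons_self
    have e := mem_sepName V fun U z => Mod.mem z (W.val U)
    refine ⟨sepName V fun U z => Mod.mem z (W.val U),
      (hT.and (a1.and b1)).imp fun U g => g.1.2.2.1 _ _ _ g.2.1 g.2.2 (e U),
      (a2.and b2).imp fun U g => (e U _).2 g, List.forall_mem_cons.2
        ⟨hR _ _ _ (fun U z hz => ((e U z).1 hz).2) b3,
          fun j hj => hR _ _ _ (fun U z hz => ((e U z).1 hz).1) (a3 j hj)⟩⟩

/-- `y` is forced to be a cluster point of `d` -/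
def Clus (T : Name P) (q : P) (y : Name P) (d : ℕ → Name P) : Prop :=
  ∀ r ≤ q, ∀ V, In r V T → In r y V → ∀ m, ∃ s ≤ r, ∃ n, m ≤ n ∧ In s (d n) V

/-- countable compactness -/
def CC (T Y : Name P) (p0 : P) : Prop :=
  ∀ p ≤ p0, ∀ d : ℕ → Name P, (∀ n, In p (d n) Y) → ∃ q ≤ p, ∃ y, In q y Y ∧ Clus T q y d

/-- open classes -/
structure Op (T Y : Name P) (p : P) (O : P → Name P → Prop) : Prop where
  mono : ∀ q r y, r ≤ q → O q y → O r y
  op : ∀ q ≤ p, ∀ y, In q y Y → O q y → ∃ V, In q V T ∧ In q y V ∧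
    ∀ s ≤ q, ∀ z, In s z V → In s z Y → O s z

/-- the complement of `O` is covered by finitely many members of `F` -/
def Sm (F Y : Name P) (p : P) (O : P → Name P → Prop) : Prop :=
  ∃ l : List (Name P), (∀ u ∈ l, In p u F) ∧
    ∀ r ≤ p, ∀ y, In r y Y → ∃ s ≤ r, O s y ∨ ∃ u ∈ l, In s y u

/-- `y` lies in `k` different members of `H` -/
def Od (H : Name P) (k : ℕ) (p : P) (y : Name P) : Prop :=
  ∃ l : List (Name P), l.length = k ∧ (∀ g ∈ l, In p g H ∧ In p y g) ∧ l.Pairwise (Neq p)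

section
variable {X T Y F H : Name P} {p0 : P}

omit [OrderTop P] in
theorem Op.le {p q : P} {O : P → Name P → Prop} (h : Op T Y p O) (hq : q ≤ p) : Op T Y q O :=
  ⟨h.mono, fun r hr => h.op r (hr.trans hq)⟩

omit [OrderTop P] in
theorem Op.or {p : P} {O O' : P → Name P → Prop} (h : Op T Y p O) (h' : Op T Y p O') :
    Op T Y p fun s y => O s y ∨ O' s y := by
  refine ⟨fun q r y hr g => g.imp (h.mono q r y hr) (h'.mono q r y hr), ?_⟩
  rintro q hq y hy (g | g)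
  · obtain ⟨V, a1, a2, a3⟩ := h.op q hq y hy g
    exact ⟨V, a1, a2, fun s hs z b1 b2 => Or.inl (a3 s hs z b1 b2)⟩
  · obtain ⟨V, a1, a2, a3⟩ := h'.op q hq y hy g
    exact ⟨V, a1, a2, fun s hs z b1 b2 => Or.inr (a3 s hs z b1 b2)⟩

omit [OrderTop P] in
theorem op_list {p : P} {l : List (Name P)} (h : ∀ u ∈ l, In p u T) :
    Op T Y p fun s y => ∃ u ∈ l, In s y u :=
  ⟨fun _ _ _ hr ⟨u, hu, g⟩ => ⟨u, hu, g.mono hr⟩, fun _ hq _ _ ⟨u, hu, g⟩ =>
    ⟨u, (h u hu).mono hq, g, fun _ _ _ b _ => ⟨u, hu, b⟩⟩⟩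

omit [OrderTop P] in
theorem Op.clus {p q : P} {O : P → Name P → Prop} (h : Op T Y p O) (hq : q ≤ p) {y : Name P}
    {d : ℕ → Name P} (hd : ∀ n, In p (d n) Y) (hy : In p y Y) (hc : Clus T p y d) (g : O q y)
    (m : ℕ) : ∃ s ≤ q, ∃ n, m ≤ n ∧ O s (d n) := by
  obtain ⟨V, a1, a2, a3⟩ := h.op q hq y (hy.mono hq) g
  obtain ⟨s, hs, n, hn, b⟩ := hc q hq V a1 a2 m
  exact ⟨s, hs, n, hn, a3 s hs _ b ((hd n).mono (hs.trans hq))⟩

omit [OrderTop P] in
theorem od_nbhd {q : P} {y : Name P} (hT : Forces q fun U => IsTop Mod.mem (X.val U) (T.val U))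
    (hy : In q y X) (hH : Forces q fun U => ∀ g, Mod.mem g (H.val U) →
      RelOpen Mod.mem (T.val U) (Y.val U) g) {l : List (Name P)}
    (hl : ∀ g ∈ l, In q g H ∧ In q y g) : ∃ V, In q V T ∧ In q y V ∧
      ∀ g ∈ l, ∀ s ≤ q, ∀ z, In s z V → In s z Y → In s z g := by
  refine inter_list hT hy l (fun g V => ∀ s ≤ q, ∀ z, In s z V → In s z Y → In s z g)
    (fun g V W e h s hs z a => h s hs z (a.imp fun U a => e U _ a)) fun g hg => ?_
  obtain ⟨W, hW⟩ := Forces.exists_name (Φ := fun U W => Mod.mem W (T.val U) ∧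
    ∀ z, Mod.mem z (g.val U) ↔ Mod.mem z W ∧ Mod.mem z (Y.val U))
    ((hH.and (hl g hg).1).imp fun U h => h.1 _ h.2)
  exact ⟨W, hW.imp fun _ h => h.1, (hW.and (hl g hg).2).imp fun _ h => ((h.1.2 _).1 h.2).1,
    fun s hs z a b => ((hW.mono hs).and (a.and b)).imp fun _ h => (h.1.2 _).2 h.2⟩

omit [OrderTop P] in
theorem op_od (hT : Forces p0 fun U => IsTop Mod.mem (X.val U) (T.val U))
    (hY : Forces p0 fun U => IsSub Mod.mem (Y.val U) (X.val U))
    (hH : Forces p0 fun U => ∀ g, Mod.mem g (H.val U) → RelOpen Mod.mem (T.val U) (Y.val U) g)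
    (k : ℕ) : Op T Y p0 (Od H k) := by
  refine ⟨fun q r y hr ⟨l, l1, l2, l3⟩ => ⟨l, l1, fun g hg => ⟨(l2 g hg).1.mono hr,
    (l2 g hg).2.mono hr⟩, l3.imp fun h => h.mono hr⟩, fun q hq y hy ⟨l, l1, l2, l3⟩ => ?_⟩
  obtain ⟨V, a1, a2, a3⟩ := od_nbhd (hT.mono hq)
    (((hY.mono hq).and hy).imp fun U h => h.1 _ h.2) (hH.mono hq) l2
  exact ⟨V, a1, a2, fun s hs z b1 b2 => ⟨l, l1, fun g hg => ⟨(l2 g hg).1.mono hs,
    a3 g hg s hs z b1 b2⟩, l3.imp fun h => h.mono hs⟩⟩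

omit [OrderTop P] in
theorem pick {p : P} {O : P → Name P → Prop} (h : ¬ Sm F Y p O) {l : List (Name P)}
    (hl : ∀ u ∈ l, In p u F) :
    ∃ r ≤ p, ∃ y, In r y Y ∧ ∀ s ≤ r, ¬ O s y ∧ ∀ u ∈ l, ¬ In s y u := by
  by_contra hc
  refine h ⟨l, hl, fun r hr y hy => ?_⟩
  by_contra hc'
  refine hc ⟨r, hr, y, hy, fun s hs => ⟨fun g => hc' ⟨s, hs, Or.inl g⟩,
    fun u hu g => hc' ⟨s, hs, Or.inr ⟨u, hu, g⟩⟩⟩⟩

omit [OrderTop P] in
theorem layer (hσ : SC P) (hT : Forces p0 fun U => IsTop Mod.mem (X.val U) (T.val U))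
    (hY : Forces p0 fun U => IsSub Mod.mem (Y.val U) (X.val U)) (hC : CC T Y p0)
    (hH : Forces p0 fun U => ∀ g, Mod.mem g (H.val U) → RelOpen Mod.mem (T.val U) (Y.val U) g ∧
      ∃ u, Mod.mem u (F.val U) ∧ IsSub Mod.mem g u) (k : ℕ) {p : P} (hp : p ≤ p0)
    {O : P → Name P → Prop} (hO : Op T Y p O)
    (h : ∀ r ≤ p, ∀ y, In r y Y → ∃ s ≤ r, O s y ∨ Od H (k + 1) s y) :
    ∃ q ≤ p, Sm F Y q fun s y => O s y ∨ Od H (k + 2) s y := by
  by_contra hc
  push Not at hc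
  have hH' := hH.imp fun U h g hg => (h g hg).1
  obtain ⟨f, f0, hf⟩ := dc (S := P × List (Name P) × Name P × Name P)
    (fun a => a.1 ≤ p ∧ ∀ u ∈ a.2.1, In a.1 u F)
    (fun _ a b => b.1 ≤ a.1 ∧ In b.1 b.2.2.1 Y ∧ In b.1 b.2.2.2 H ∧ In b.1 b.2.2.1 b.2.2.2 ∧
      (∀ s ≤ b.1, ¬ (O s b.2.2.1 ∨ Od H (k + 2) s b.2.2.1) ∧ ∀ u ∈ a.2.1, ¬ In s b.2.2.1 u) ∧
      ∃ u, b.2.1 = u :: a.2.1 ∧ Forces b.1 fun U => IsSub Mod.mem (b.2.2.2.val U) (u.val U))
    (p, [], X, X) ⟨le_rfl, by simp⟩ (by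
      rintro - ⟨q, l, _, _⟩ ⟨hq, hl⟩
      obtain ⟨r, hr, y, a1, a2⟩ := pick (hc q hq) hl
      obtain ⟨s, hs, g | ⟨l', l1, l2, -⟩⟩ := h r (hr.trans hq) y a1
      · exact absurd (Or.inl g) (a2 s hs).1
      obtain ⟨g, hg⟩ := List.exists_mem_of_length_eq_add_one l1
      obtain ⟨u, hu⟩ := Forces.exists_name (Φ := fun U u => Mod.mem u (F.val U) ∧
        IsSub Mod.mem (g.val U) u) (((hH.mono (hs.trans (hr.trans (hq.trans hp)))).and
          (l2 g hg).1).imp fun U h => (h.1 _ h.2).2)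
      exact ⟨(s, u :: l, y, g), ⟨hs.trans (hr.trans hq), List.forall_mem_cons.2
        ⟨hu.imp fun _ h => h.1, fun v hv => (hl v hv).mono (hs.trans hr)⟩⟩, hs.trans hr,
        a1.mono hs, (l2 g hg).1, (l2 g hg).2, fun t ht => a2 t (ht.trans hs), u, rfl,
        hu.imp fun _ h => h.2⟩)
  obtain ⟨q, hq⟩ := hσ (fun n => (f n).1) fun n => (hf n).2.1
  have hqp : q ≤ p := (hq 0).trans (hf 0).1.1
  let d : ℕ → Name P := fun n => (f (n + 1)).2.2.1
  have hd : ∀ n, In q (d n) Y := fun n => (hf n).2.2.1.mono (hq (n + 1))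
  obtain ⟨r, hr, y, y1, y2⟩ := hC q (hqp.trans hp) d hd
  obtain ⟨s, hs, g | ⟨l, l1, l2, l3⟩⟩ := h r (hr.trans hqp) y y1
  · obtain ⟨t, ht, n, -, g'⟩ := (hO.le (hr.trans hqp)).clus hs (fun n => (hd n).mono hr) y1 y2 g 0
    exact ((hf n).2.2.2.2.2.1 t (ht.trans (hs.trans (hr.trans (hq _))))).1 (Or.inl g')
  have hs0 : s ≤ p0 := hs.trans (hr.trans (hqp.trans hp))
  obtain ⟨V, a1, a2, a3⟩ := od_nbhd (hT.mono hs0)
    (((hY.mono hs0).and (y1.mono hs)).imp fun U h => h.1 _ h.2) (hH'.mono hs0) l2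
  obtain ⟨t, ht, i, -, b1⟩ := y2 s hs V a1 a2 0
  obtain ⟨t', ht', j, hj, b2⟩ := y2 t (ht.trans hs) V (a1.mono ht) (a2.mono ht) (i + 1)
  have h1 : t' ≤ s := ht'.trans ht
  have h2 : t' ≤ q := h1.trans (hs.trans hr)
  obtain ⟨-, -, c1, c2, c3, u, c4, c5⟩ := (hf i).2
  rcases eq_or_neq t' (f (i + 1)).2.2.2 l with ⟨v, hv, g, hg, e⟩ | e
  · have hm : ∀ n, u ∈ (f (i + 1 + n)).2.1 := fun n => by
      induction n with
      | zero => simp [c4]
      | succ n ih =>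
        obtain ⟨u', e', -⟩ := (hf (i + 1 + n)).2.2.2.2.2.2
        rw [← add_assoc, e']
        exact List.mem_cons_of_mem _ ih
    obtain ⟨n, rfl⟩ := Nat.exists_eq_add_of_le hj
    refine ((hf (i + 1 + n)).2.2.2.2.2.1 v (hv.trans (h2.trans (hq _)))).2 u (hm n) ?_
    exact (((a3 g hg t' h1 _ b2 ((hd _).mono h2)).mono hv).and
      (e.and (c5.mono (hv.trans (h2.trans (hq _)))))).imp fun U h => h.2.2 _ (h.2.1 ▸ h.1)
  · refine (c3 t' (h2.trans (hq _))).1 (Or.inr ⟨_ :: l, by simp [l1], List.forall_mem_cons.2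
      ⟨⟨c1.mono (h2.trans (hq _)), c2.mono (h2.trans (hq _))⟩, fun g hg => ⟨(l2 g hg).1.mono h1,
        a3 g hg t' h1 _ (b1.mono ht') ((hd _).mono h2)⟩⟩,
      List.pairwise_cons.2 ⟨e, l3.imp fun h => h.mono h1⟩⟩)

omit [OrderTop P] in
theorem shrink (hσ : SC P) (hT : Forces p0 fun U => IsTop Mod.mem (X.val U) (T.val U))
    (hY : Forces p0 fun U => IsSub Mod.mem (Y.val U) (X.val U)) (hC : CC T Y p0)
    (hF : Forces p0 fun U => IsSub Mod.mem (F.val U) (T.val U))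
    (hH : Forces p0 fun U => ∀ g, Mod.mem g (H.val U) → RelOpen Mod.mem (T.val U) (Y.val U) g ∧
      ∃ u, Mod.mem u (F.val U) ∧ IsSub Mod.mem g u) (k : ℕ) {p : P} (hp : p ≤ p0)
    {O : P → Name P → Prop} (hO : Op T Y p O) (hL : ∀ q ≤ p, ¬ Sm F Y q O) :
    ∃ q ≤ p, ∃ O' : P → Name P → Prop, Op T Y q O' ∧ (∀ r ≤ q, ¬ Sm F Y r O') ∧
      (∀ s y, O s y → O' s y) ∧
      ∀ r ≤ q, ∀ y, In r y Y → Od H (k + 1) r y → ∃ s ≤ r, O' s y ∨ Od H (k + 2) s y := by
  by_cases h : ∀ q ≤ p, ¬ Sm F Y q fun s y => O s y ∨ Od H (k + 1) s y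
  · exact ⟨p, le_rfl, _, hO.or ((op_od hT hY (hH.imp fun U h g hg => (h g hg).1) _).le hp), h,
      fun _ _ => Or.inl, fun r _ y _ g => ⟨r, le_rfl, Or.inl (Or.inr g)⟩⟩
  push Not at h
  obtain ⟨q, hq, l, l1, l2⟩ := h
  have hT' : ∀ q ≤ p, ∀ u, In q u F → In q u T := fun q hq u hu =>
    ((hF.mono (hq.trans hp)).and hu).imp fun U h => h.1 _ h.2
  have o1 := (hO.le hq).or (op_list (Y := Y) fun u hu => hT' q hq u (l1 u hu))
  obtain ⟨r, hr, l', l3, l4⟩ := layer hσ hT hY hC hH k (hq.trans hp) o1 fun r hr y hy => by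
    obtain ⟨s, hs, g⟩ := l2 r hr y hy
    exact ⟨s, hs, or_right_comm.1 g⟩
  refine ⟨r, hr.trans hq, _, (o1.le hr).or
    (op_list (Y := Y) fun u hu => hT' r (hr.trans hq) u (l3 u hu)), ?_,
    fun _ _ g => Or.inl (Or.inl g), fun s hs y hy _ => ?_⟩
  · rintro s hs ⟨l'', l5, l6⟩
    refine hL s (hs.trans (hr.trans hq)) ⟨l ++ l' ++ l'', fun u hu => ?_, fun t ht y hy => ?_⟩
    · simp only [List.mem_append] at hu
      rcases hu with (hu | hu) | hu
      exacts [(l1 u hu).mono (hs.trans hr), (l3 u hu).mono hs, l5 u hu]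
    · obtain ⟨v, hv, g⟩ := l6 t ht y hy
      refine ⟨v, hv, ?_⟩
      rcases g with ((g | ⟨u, hu, g⟩) | ⟨u, hu, g⟩) | ⟨u, hu, g⟩
      · exact Or.inl g
      all_goals exact Or.inr ⟨u, by simp [hu], g⟩
  · obtain ⟨t, ht, g⟩ := l4 s hs y hy
    exact ⟨t, ht, or_right_comm.1 g⟩

theorem finite_subcover (hσ : SC P) (hT : Forces p0 fun U => IsTop Mod.mem (X.val U) (T.val U))
    (hY : Forces p0 fun U => IsSub Mod.mem (Y.val U) (X.val U)) (hC : CC T Y p0)
    (hF : Forces p0 fun U => IsSub Mod.mem (F.val U) (T.val U))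
    (hF' : Forces p0 fun U => Covers Mod.mem (F.val U) (Y.val U))
    (hW : Forces p0 fun U => WeaklyThetaRef Mod.mem (omegaName.val U) (T.val U) (Y.val U)) :
    ∃ q ≤ p0, ∃ l : List (Name P), (∀ u ∈ l, In q u F) ∧
      ∀ r ≤ q, ∀ y, In r y Y → ∃ s ≤ r, ∃ u ∈ l, In s y u := by
  by_contra hc
  have hL : ∀ q ≤ p0, ¬ Sm F Y q fun _ _ => False := fun q hq ⟨l, l1, l2⟩ =>
    hc ⟨q, hq, l, l1, by simpa using l2⟩
  have e := mem_sepName (powName Y) fun U g => ∃ u, Mod.mem u (F.val U) ∧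
    ∀ z, Mod.mem z g ↔ Mod.mem z u ∧ Mod.mem z (Y.val U)
  obtain ⟨G, hG⟩ := Forces.exists_name (p := p0) (Φ := fun U G =>
    IsFunOn Mod.mem G (omegaName.val U) (fun H => ∀ g, Mod.mem g H →
      RelOpen Mod.mem (T.val U) (Y.val U) g ∧ ∃ u, Mod.mem u (F.val U) ∧ IsSub Mod.mem g u) ∧
    ∀ y, Mod.mem y (Y.val U) → ∃ n H, App Mod.mem G n H ∧ (∃ g, Mod.mem g H ∧ Mod.mem y g) ∧
      ∃ E, IsFin Mod.mem (omegaName.val U) E ∧ ∀ g, Mod.mem g E ↔ Mod.mem g H ∧ Mod.mem y g)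
    ((hF.and (hF'.and hW)).imp fun U h => by
      obtain ⟨G, g1, g2⟩ := h.2.2 _ (fun u hu => by
        obtain ⟨-, v, hv, g⟩ := (e U u).1 hu
        exact ⟨v, h.1 _ hv, g⟩) (fun y hy => by
        obtain ⟨v, hv, g⟩ := h.2.1 y hy
        obtain ⟨v, rfl⟩ := v.exists_name
        have e' := mem_sepName Y (fun U z => Mod.mem z (v.val U)) U
        exact ⟨_, (e U _).2 ⟨(mem_powName _ _ _).2 fun z hz => ((e' z).1 hz).1, _, hv,
          fun z => (e' z).trans and_comm⟩, (e' y).2 ⟨hy, g⟩⟩)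
      refine ⟨G, ⟨fun a ha => ?_, g1.2⟩, g2⟩
      obtain ⟨x, y, a1, a2, a3⟩ := g1.1 a ha
      refine ⟨x, y, a1, a2, fun g hg => ⟨(a3 g hg).1, ?_⟩⟩
      obtain ⟨u, hu, a4⟩ := (a3 g hg).2
      obtain ⟨-, v, hv, a5⟩ := (e U u).1 hu
      exact ⟨v, hv, fun z hz => ((a5 z).1 (a4 z hz)).1⟩)
  choose H hH using fun n : ℕ => Forces.exists_name
    (Φ := fun U H => App Mod.mem (G.val U) ((natName n).val U) H)
    (hG.imp fun U h => h.1.2.1 _ (natName_mem_omega n U))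
  have hH' : ∀ n, Forces p0 fun U => ∀ g, Mod.mem g ((H n).val U) →
      RelOpen Mod.mem (T.val U) (Y.val U) g ∧ ∃ u, Mod.mem u (F.val U) ∧ IsSub Mod.mem g u :=
    fun n => (hG.and (hH n)).imp fun U h => ((isZFC U).app_val h.1.1 h.2).2
  obtain ⟨f, f0, hf⟩ := dc (S := P × (P → Name P → Prop) × Name P)
    (fun a => a.1 ≤ p0 ∧ Op T Y a.1 a.2.1 ∧ ∀ q ≤ a.1, ¬ Sm F Y q a.2.1)
    (fun n a b => b.1 ≤ a.1 ∧ (∀ s y, a.2.1 s y → b.2.1 s y) ∧ In b.1 b.2.2 Y ∧
      (∀ s ≤ b.1, ¬ b.2.1 s b.2.2) ∧ ∀ r ≤ b.1, ∀ y, In r y Y →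
        Od (H n.unpair.1) (n.unpair.2 + 1) r y →
          ∃ s ≤ r, b.2.1 s y ∨ Od (H n.unpair.1) (n.unpair.2 + 2) s y)
    (p0, fun _ _ => False, X) ⟨le_rfl, ⟨fun _ _ _ _ h => h, fun _ _ _ _ h => h.elim⟩, hL⟩ (by
      rintro n ⟨p, O, _⟩ ⟨hp, hO, hL⟩
      obtain ⟨q, hq, O', a1, a2, a3, a4⟩ := shrink hσ hT hY hC hF (hH' n.unpair.1) n.unpair.2 hp
        hO hL
      obtain ⟨r, hr, y, b1, b2⟩ := pick (a2 q le_rfl) (l := []) (by simp)
      exact ⟨(r, O', y), ⟨hr.trans (hq.trans hp), a1.le hr, fun s hs => a2 s (hs.trans hr)⟩,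
        hr.trans hq, a3, b1, fun s hs => (b2 s hs).1, fun s hs => a4 s (hs.trans hr)⟩)
  obtain ⟨q, hq⟩ := hσ (fun n => (f n).1) fun n => (hf n).2.1
  have hq0 : q ≤ p0 := (hq 0).trans (hf 0).1.1
  let d : ℕ → Name P := fun n => (f (n + 1)).2.2
  have hd : ∀ n, In q (d n) Y := fun n => (hf n).2.2.2.1.mono (hq (n + 1))
  obtain ⟨r, hr, y, y1, y2⟩ := hC q hq0 d hd
  have hr0 := hr.trans hq0
  obtain ⟨n, hn⟩ := Forces.exists_name (Φ := fun U n => ∃ H, App Mod.mem (G.val U) n H ∧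
    (∃ g, Mod.mem g H ∧ Mod.mem (y.val U) g) ∧ ∃ E, IsFin Mod.mem (omegaName.val U) E ∧
      ∀ g, Mod.mem g E ↔ Mod.mem g H ∧ Mod.mem (y.val U) g)
    (((hG.mono hr0).and y1).imp fun U h => h.1.2 _ h.2)
  obtain ⟨s, hs, ⟨n'⟩, hn'⟩ := Forces.exists_fam (((hG.mono hr0).and hn).imp fun U h => by
    obtain ⟨H, g, -⟩ := h.2
    exact ((isZFC U).app_val h.1.1 g).1)
  have h1 : Forces s fun U => (∃ g, Mod.mem g ((H n').val U) ∧ Mod.mem (y.val U) g) ∧
      ∃ E, IsFin Mod.mem (omegaName.val U) E ∧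
        ∀ g, Mod.mem g E ↔ Mod.mem g ((H n').val U) ∧ Mod.mem (y.val U) g :=
    ((((hG.and (hH n')).mono (hs.trans hr0)).and (hn.mono hs)).and hn').imp fun U h => by
      obtain ⟨H', g1, g2⟩ := h.1.2
      rw [h.2] at g1
      exact h.1.1.1.1.2.2 _ _ _ g1 h.1.1.2 ▸ g2
  obtain ⟨g, hg⟩ := Forces.exists_name
    (Φ := fun U g => Mod.mem g ((H n').val U) ∧ Mod.mem (y.val U) g) (h1.imp fun _ h => h.1)
  obtain ⟨E, hE⟩ := Forces.exists_name (Φ := fun U E => IsFin Mod.mem (omegaName.val U) E ∧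
    ∀ g, Mod.mem g E ↔ Mod.mem g ((H n').val U) ∧ Mod.mem (y.val U) g) (h1.imp fun _ h => h.2)
  obtain ⟨t, ht, m, hm⟩ := fin_decide (hE.imp fun _ h => h.1)
  obtain ⟨k, v, hv, a1, a2⟩ := exists_max (p := t) (m := m) (k0 := 1) (fun k r => Od (H n') k r y)
    ⟨[g], rfl, by simpa using ⟨(hg.mono ht).imp fun _ h => h.1, (hg.mono ht).imp fun _ h => h.2⟩,
      by simp⟩ fun k v hv ⟨l, l1, l2, l3⟩ => l1 ▸ length_le (hm.mono hv) (fun g hg =>
        ((hE.mono (hv.trans ht)).and ((l2 g hg).1.and (l2 g hg).2)).imp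
          fun U h => (h.1.2 _).2 h.2) l3
  have hvr : v ≤ r := hv.trans (ht.trans hs)
  have := (hf (Nat.pair n' k)).2.2.2.2.2 v (hvr.trans (hr.trans (hq _))) y (y1.mono hvr)
  rw [Nat.unpair_pair] at this
  rw [add_comm 1 k] at a1 a2
  obtain ⟨w, hw, b | b⟩ := this a1
  swap
  · exact a2 w hw b
  obtain ⟨z, hz, j, hj, c⟩ := ((hf (Nat.pair n' k + 1)).1.2.1.le (hr.trans (hq _))).clus
    (hw.trans hvr) (fun n => (hd n).mono hr) y1 y2 b (Nat.pair n' k)
  obtain ⟨i, rfl⟩ := Nat.exists_eq_add_of_le hj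
  have hm : ∀ i s y, (f (Nat.pair n' k + 1)).2.1 s y → (f (Nat.pair n' k + i + 1)).2.1 s y :=
    fun i s y g => by
      induction i with
      | zero => exact g
      | succ i ih => exact (hf (Nat.pair n' k + i + 1)).2.2.1 s y ih
  exact (hf (Nat.pair n' k + i)).2.2.2.2.1 z (hz.trans (hw.trans (hvr.trans (hr.trans (hq _)))))
    (hm i _ _ c)

end

end Pool.Agent.P.MP_63de32_gt.Pos
end

-- part Pool.Agent.P.MP_63de32_gt.Pos2
section

set_option autoImplicit false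

/-! After collapsing the continuum by a countably closed poset, compact hereditarily weakly
theta-refinable spaces are sequentially compact. -/

open Pool.Agent.Lib.PosetForcing Filter

namespace Pool.Agent.P.MP_63de32_gt.Pos

universe u

/-- the cofinite filter on `D` -/
def fl (D : Set ℕ) : Filter ℕ := atTop ⊓ 𝓟 D

instance (D : Set ℕ) : (fl D).IsCountablyGenerated := by unfold fl; infer_instance

theorem fl_mem (D : Set ℕ) : ∀ᶠ n in fl D, n ∈ D := mem_inf_of_right (mem_principal_self D)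

theorem pseudo {ι : Type*} [Countable ι] (D : ι → Set ℕ) (h1 : ∀ i, (fl (D i)).NeBot)
    (h2 : ∀ i j, fl (D i) ≤ fl (D j) ∨ fl (D j) ≤ fl (D i)) :
    ∃ E, (fl E).NeBot ∧ ∀ i, fl E ≤ fl (D i) := by
  cases isEmpty_or_nonempty ι with
  | inl h => exact ⟨Set.univ, by simpa [fl] using atTop_neBot, fun i => h.elim i⟩
  | inr h =>
    have : (⨅ i, fl (D i)).NeBot := iInf_neBot_of_directed
      (fun i j => (h2 i j).elim (fun g => ⟨i, le_rfl, g⟩) fun g => ⟨j, g, le_rfl⟩) h1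
    obtain ⟨x, hx⟩ := exists_seq_tendsto (⨅ i, fl (D i))
    obtain ⟨i0⟩ := h
    have hx0 : Tendsto x atTop atTop := hx.mono_right ((iInf_le _ i0).trans inf_le_left)
    refine ⟨Set.range x, ?_, fun i => le_inf inf_le_left ?_⟩
    · exact (tendsto_inf.2 ⟨hx0, tendsto_principal.2 (.of_forall fun k => ⟨k, rfl⟩)⟩ :
        Tendsto x atTop (fl (Set.range x))).neBot
    · obtain ⟨m, hm⟩ := eventually_atTop.1 ((hx.mono_right (iInf_le _ i)).eventually (fl_mem _))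
      obtain ⟨b, hb⟩ := ((Set.finite_Iio m).image x).bddAbove
      refine le_principal_iff.2 (mem_inf_principal.2 (eventually_atTop.2 ⟨b + 1, ?_⟩))
      rintro _ hn ⟨k, rfl⟩
      refine hm k (not_lt.1 fun hk => ?_)
      have := hb ⟨k, hk, rfl⟩
      omega

theorem wf_rec {W D : Type*} [Preorder W] [WellFoundedLT W] [Nonempty D]
    (I : ∀ a : W, (∀ b, b < a → D) → D → Prop)
    (h : ∀ a (F : W → D), (∀ b < a, I b (fun c _ => F c) (F b)) → ∃ x, I a (fun c _ => F c) x) :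
    ∃ F : W → D, ∀ a, I a (fun c _ => F c) (F a) := by
  classical
  let F : W → D := (wellFounded_lt (α := W)).fix fun a f => Classical.epsilon (I a f)
  refine ⟨F, fun a => ?_⟩
  induction a using WellFoundedLT.induction with
  | ind a ih =>
    have e : F a = Classical.epsilon (I a fun c _ => F c) := (wellFounded_lt (α := W)).fix_eq _ a
    rw [e]
    exact Classical.epsilon_spec (h a F ih)

variable {P : Type u} [Preorder P] [OrderTop P]

omit [OrderTop P] in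
theorem all_cnt (hσ : SC P) {ι : Type*} [Countable ι] {p : P} (R : ι → P → Prop)
    (hR : ∀ i q r, r ≤ q → R i q → R i r) (h : ∀ i, ∀ q ≤ p, ∃ r ≤ q, R i r) :
    ∃ q ≤ p, ∀ i, R i q := by
  cases isEmpty_or_nonempty ι with
  | inl g => exact ⟨p, le_rfl, fun i => g.elim i⟩
  | inr g =>
    obtain ⟨f, hf⟩ := exists_surjective_nat ι
    obtain ⟨q, hq, g⟩ := exists_le_forall hσ p (fun n => R (f n)) (fun n => hR _) fun n => h _
    exact ⟨q, hq, fun i => (hf i).elim fun n e => e ▸ g n⟩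

/-- the name of a sequence -/
def seqN (d : ℕ → Name P) : Name P :=
  funName (fun n : ULift.{u} ℕ => natName n.down) fun n => d n.down

theorem app_seqN (d : ℕ → Name P) (n : ℕ) (U : Gen P) :
    App Mod.mem ((seqN d).val U) ((natName n).val U) ((d n).val U) :=
  app_funName (fun n : ULift.{u} ℕ => natName n.down) (fun n => d n.down) ⟨n⟩ U

theorem isFun_seqN {p : P} {d : ℕ → Name P} {A : Name P} (h : ∀ n, In p (d n) A) :
    Forces p fun U => IsFun Mod.mem ((seqN d).val U) (omegaName.val U) (A.val U) :=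
  forces_isFunOn_graph (V := fun U y => Mod.mem y (A.val U))
    (fun i q hq _ => ⟨q, le_rfl, ((h i.down).mono hq).imp fun U g => ⟨natName_mem_omega _ U, g⟩⟩)
    (fun j q _ _ => ⟨q, le_rfl, j, le_top, Forces.of_forall (fun _ => rfl) q⟩)
    fun i j q _ _ _ g => ⟨q, le_rfl, Forces.of_forall (fun U => by rw [g.natName_inj]) q⟩

variable {X T : Name P} {p0 : P}

theorem exists_clus (hσ : SC P)
    (hK : Forces p0 fun U => IsCpt Mod.mem (omegaName.val U) (X.val U) (T.val U))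
    {d : ℕ → Name P} (hd : ∀ n, In p0 (d n) X) : ∃ z, In p0 z X ∧ Clus T p0 z d := by
  have key : Forces p0 fun U => ∃ z, Mod.mem z (X.val U) ∧ ∀ V, Mod.mem V (T.val U) →
      Mod.mem z V → ∀ m, Mod.mem m (omegaName.val U) →
        ∃ k y, App Mod.mem ((seqN d).val U) k y ∧ Mod.mem m k ∧ Mod.mem y V := by
    by_contra hc
    obtain ⟨q, hq, h1⟩ := exists_forces_not hc
    have e := mem_sepName T fun U V => ∃ m, Mod.mem m (omegaName.val U) ∧
      ∀ k y, App Mod.mem ((seqN d).val U) k y → Mod.mem m k → ¬ Mod.mem y V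
    generalize sepName T _ = F at e
    obtain ⟨G, hG⟩ := Forces.exists_name (p := q) (Φ := fun U G => IsSub Mod.mem G (F.val U) ∧
      IsFin Mod.mem (omegaName.val U) G ∧ Covers Mod.mem G (X.val U))
      (((hK.mono hq).and h1).imp fun U h => h.1 _ (fun V hV => ((e U V).1 hV).1) fun z hz => by
        have := h.2
        push Not at this
        obtain ⟨V, a1, a2, a3⟩ := this z hz
        exact ⟨V, (e U V).2 ⟨a1, a3⟩, a2⟩)
    obtain ⟨r, hr, l, l1, l2⟩ := fin_elim (hG.imp fun _ h => h.2.1)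
    obtain ⟨s, hs, h2⟩ := all_cnt hσ (p := r) (fun (i : Fin l.length) s => ∃ m, ∀ n, m < n →
      Forces s fun U => ¬ Mod.mem ((d n).val U) ((l.get i).val U))
      (fun i _ _ g ⟨m, hm⟩ => ⟨m, fun n hn => (hm n hn).mono g⟩) fun i s hs => by
        obtain ⟨m, hm⟩ := Forces.exists_name (p := s) (Φ := fun U m =>
          Mod.mem m (omegaName.val U) ∧ ∀ k y, App Mod.mem ((seqN d).val U) k y → Mod.mem m k →
            ¬ Mod.mem y ((l.get i).val U)) ((((hG.mono hr).and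
              (l1 _ (List.get_mem l i))).mono hs).imp fun U h => ((e U _).1 (h.1.1 _ h.2)).2)
        obtain ⟨t, ht, m', hm'⟩ := Forces.exists_fam (hm.imp fun _ h => h.1)
        exact ⟨t, ht, m'.down, fun n hn => ((hm.mono ht).and hm').imp fun U h =>
          h.1.2 _ _ (app_seqN d n U) (h.2 ▸ natName_mem hn U)⟩
    choose m hm using h2
    obtain ⟨b, hb⟩ := (Set.finite_range m).bddAbove
    obtain ⟨u, hu⟩ := Forces.exists_name (p := s) (Φ := fun U u => Mod.mem u (G.val U) ∧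
      Mod.mem ((d (b + 1)).val U) u) (((hG.mono (hs.trans hr)).and
        ((hd (b + 1)).mono (hs.trans (hr.trans hq)))).imp fun U h => h.1.2.2 _ h.2)
    obtain ⟨t, ht, v, hv, g⟩ := l2 s hs u (hu.imp fun _ h => h.1)
    obtain ⟨i, rfl⟩ := List.get_of_mem hv
    exact Forces.not_false ((((hm i (b + 1) (Nat.lt_succ_of_le (hb ⟨i, rfl⟩))).and hu).mono ht).and
      g |>.imp fun U h => h.1.1 (h.2 ▸ h.1.2.2))
  obtain ⟨z, hz⟩ := Forces.exists_name (Φ := fun U z => Mod.mem z (X.val U) ∧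
    ∀ V, Mod.mem V (T.val U) → Mod.mem z V → ∀ m, Mod.mem m (omegaName.val U) →
      ∃ k y, App Mod.mem ((seqN d).val U) k y ∧ Mod.mem m k ∧ Mod.mem y V) key
  refine ⟨z, hz.imp fun _ h => h.1, fun r hr V a1 a2 m => ?_⟩
  obtain ⟨k, hk⟩ := Forces.exists_name (p := r) (Φ := fun U k =>
    ∃ y, App Mod.mem ((seqN d).val U) k y ∧ Mod.mem ((natName m).val U) k ∧ Mod.mem y (V.val U))
    (((hz.mono hr).and (a1.and a2)).imp fun U h => h.1.2 _ h.2.1 h.2.2 _ (natName_mem_omega m U))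
  obtain ⟨y, hy⟩ := Forces.exists_name (Φ := fun U y => App Mod.mem ((seqN d).val U) (k.val U) y ∧
    Mod.mem ((natName m).val U) (k.val U) ∧ Mod.mem y (V.val U)) hk
  obtain ⟨s, hs, n, -, g⟩ := Forces.exists_app_graph (hy.imp fun _ h => h.1)
  obtain ⟨U, hU⟩ := ((hy.mono hs).and g).exists
  exact ⟨s, hs, n.down, (natName_mem_iff.1 (hU.2.1 ▸ hU.1.2.1)).le,
    ((hy.mono hs).and g).imp fun U h => h.2.2 ▸ h.1.2.2⟩

/-- terms for iterated cluster points -/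
inductive Tm : Type u
  | leaf (n : ℕ) : Tm
  | node (s : ℕ → Tm) : Tm

/-- `d` is forced to converge to `x` along `D` -/
def Cv (T : Name P) (q : P) (x : Name P) (d : ℕ → Name P) (D : Set ℕ) : Prop :=
  ∀ r ≤ q, ∀ V, In r V T → In r x V → ∃ s ≤ r, ∀ᶠ n in fl D, In s (d n) V

/-- the poset adds an enumeration of `Tm` along `W` -/
structure Enum {W : Type u} (g : P → W → Tm.{u} → Prop) : Prop where
  mono : ∀ p q a t, q ≤ p → g p a t → g q a t
  fn : ∀ p a t t', g p a t → g p a t' → t = t'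
  tot : ∀ p a, ∃ q ≤ p, ∃ t, g q a t
  sur : ∀ p t, ∃ q ≤ p, ∃ a, g q a t

omit [OrderTop P] in
theorem thin_out (hσ : SC P) {d : ℕ → Name P} {q : P} {x : Name P} {D : Set ℕ}
    (h : ¬ Cv T q x d D) : ∃ r ≤ q, ∃ V E, (fl E).NeBot ∧ fl E ≤ fl D ∧ In r V T ∧ In r x V ∧
      ∀ n ∈ E, Forces r fun U => ¬ Mod.mem ((d n).val U) (V.val U) := by
  unfold Cv at h
  push Not at h
  obtain ⟨r, hr, V, a1, a2, a3⟩ := h
  obtain ⟨s, hs, b⟩ := all_cnt hσ (p := r) (fun (n : ℕ) s => In s (d n) V ∨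
    Forces s fun U => ¬ Mod.mem ((d n).val U) (V.val U))
    (fun _ _ _ g h => h.imp (·.mono g) (·.mono g)) fun n s _ => by
      by_cases g : In s (d n) V
      · exact ⟨s, le_rfl, Or.inl g⟩
      · obtain ⟨t, ht, g'⟩ := exists_forces_not g
        exact ⟨t, ht, Or.inr g'⟩
  refine ⟨s, hs.trans hr, V, D ∩ {n | ¬ In s (d n) V}, ?_,
    inf_le_inf_left _ (principal_mono.2 Set.inter_subset_left), a1.mono hs, a2.mono hs,
    fun n hn => (b n).resolve_left hn.2⟩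
  have := frequently_iff_neBot.1 (a3 s hs)
  rwa [fl, inf_assoc, inf_principal] at this

theorem seq_compact (hσ : SC P) {W : Type u} [LinearOrder W] [WellFoundedLT W]
    (hW : ∀ a : W, (Set.Iio a).Countable) {g : P → W → Tm.{u} → Prop} (hg : Enum g)
    (hT : Forces p0 fun U => IsTop Mod.mem (X.val U) (T.val U))
    (hK : Forces p0 fun U => IsCpt Mod.mem (omegaName.val U) (X.val U) (T.val U))
    (hH : Forces p0 fun U => ∀ Y, IsSub Mod.mem Y (X.val U) →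
      WeaklyThetaRef Mod.mem (omegaName.val U) (T.val U) Y)
    {d : ℕ → Name P} (hd : ∀ n, In p0 (d n) X) :
    ∃ q ≤ p0, ∃ D, (fl D).NeBot ∧ ∃ x, In q x X ∧ Cv T q x d D := by
  by_contra hc
  push Not at hc
  have : ∀ e : ℕ → Name P, ∃ z, (∀ n, In p0 (e n) X) → In p0 z X ∧ Clus T p0 z e := fun e => by
    by_cases h : ∀ n, In p0 (e n) X
    · exact (exists_clus hσ hK h).imp fun z hz _ => hz
    · exact ⟨X, fun h' => absurd h' h⟩
  choose cl hcl using this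
  let y : Tm.{u} → Name P := fun t => Tm.rec d (fun _ ih => cl ih) t
  have hy : ∀ t, In p0 (y t) X := fun t => by
    induction t with
    | leaf n => exact hd n
    | node s ih => exact (hcl _ ih).1
  have hY : Forces p0 fun U => IsSub Mod.mem ((fam y).val U) (X.val U) :=
    forces_forall_mem_fam (Φ := fun U x => Mod.mem x (X.val U))
      fun t q hq => ⟨q, le_rfl, (hy t).mono hq⟩
  have hC : CC T (fam y) p0 := fun p hp e he => by
    obtain ⟨q, hq, h⟩ := all_cnt hσ (p := p) (fun (n : ℕ) q => ∃ t,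
      Forces q fun U => (e n).val U = (y t).val U) (fun _ _ _ g ⟨t, ht⟩ => ⟨t, ht.mono g⟩)
      fun n q hq => Forces.exists_fam ((he n).mono hq)
    choose s hs using h
    refine ⟨q, hq, y (.node s), Forces.of_forall (mem_fam y (.node s)) q,
      fun r hr V a1 a2 m => ?_⟩
    obtain ⟨t, ht, n, hn, b⟩ := (hcl (fun n => y (s n)) fun n => hy _).2 r
      (hr.trans (hq.trans hp)) V a1 a2 m
    exact ⟨t, ht, n, hn, (b.and ((hs n).mono (ht.trans hr))).imp fun U h => h.2 ▸ h.1⟩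
  let I : ∀ a : W, (∀ b, b < a → Set P × (P → Set ℕ × Name P)) →
      Set P × (P → Set ℕ × Name P) → Prop := fun a f x =>
    (∀ s ∈ x.1, ∀ s' ∈ x.1, ∀ r, r ≤ s → r ≤ s' → s = s') ∧
    (∀ q ≤ p0, ∃ s ∈ x.1, ∃ r, r ≤ s ∧ r ≤ q) ∧
    ∀ s ∈ x.1, (fl (x.2 s).1).NeBot ∧ In s (x.2 s).2 T ∧
      (∀ n ∈ (x.2 s).1, Forces s fun U => ¬ Mod.mem ((d n).val U) ((x.2 s).2.val U)) ∧
      (∃ t, g s a t ∧ In s (y t) (x.2 s).2) ∧
      ∀ b (hb : b < a), ∃ s' ∈ (f b hb).1, s ≤ s' ∧ fl (x.2 s).1 ≤ fl ((f b hb).2 s').1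
  have cmp : ∀ (F : W → Set P × (P → Set ℕ × Name P)) a b, I a (fun c _ => F c) (F a) →
      I b (fun c _ => F c) (F b) → ∀ s ∈ (F a).1, ∀ s' ∈ (F b).1, ∀ r, r ≤ s → r ≤ s' →
      fl ((F a).2 s).1 ≤ fl ((F b).2 s').1 ∨ fl ((F b).2 s').1 ≤ fl ((F a).2 s).1 := by
    intro F a b ha hb s hs s' hs' r h1 h2
    rcases lt_trichotomy a b with e | rfl | e
    · obtain ⟨s'', a1, a2, a3⟩ := (hb.2.2 s' hs').2.2.2.2 a e
      exact Or.inr (ha.1 s'' a1 s hs r (h2.trans a2) h1 ▸ a3)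
    · exact Or.inl (ha.1 s hs s' hs' r h1 h2 ▸ le_rfl)
    · obtain ⟨s'', a1, a2, a3⟩ := (ha.2.2 s hs).2.2.2.2 b e
      exact Or.inl (hb.1 s'' a1 s' hs' r (h1.trans a2) h2 ▸ a3)
  have : Nonempty (Name P) := ⟨X⟩
  obtain ⟨F, hF⟩ := wf_rec I fun a F ih => by
    obtain ⟨S, s1, s2, s3⟩ := exists_max_antichain {s : P | ∃ x : Set ℕ × Name P,
      (fl x.1).NeBot ∧ In s x.2 T ∧
      (∀ n ∈ x.1, Forces s fun U => ¬ Mod.mem ((d n).val U) (x.2.val U)) ∧
      (∃ t, g s a t ∧ In s (y t) x.2) ∧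
      ∀ b (_ : b < a), ∃ s' ∈ (F b).1, s ≤ s' ∧ fl x.1 ≤ fl ((F b).2 s').1}
    choose! lab hlab using s1
    refine ⟨(S, lab), s2, fun q hq => ?_, hlab⟩
    have := (hW a).to_subtype
    obtain ⟨r, hr, h1⟩ := all_cnt hσ (p := q) (fun (b : Set.Iio a) r => ∃ s ∈ (F b).1, r ≤ s)
      (fun _ _ _ g ⟨s, hs, h⟩ => ⟨s, hs, g.trans h⟩) fun b r hr => by
        obtain ⟨s, hs, t, h1, h2⟩ := (ih b b.2).2.1 r (hr.trans hq)
        exact ⟨t, h2, s, hs, h1⟩
    choose s hs hs' using h1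
    obtain ⟨D, d1, d2⟩ := pseudo (fun b : Set.Iio a => ((F b).2 (s b)).1)
      (fun b => ((ih b b.2).2.2 _ (hs b)).1)
      fun b c => cmp F b c (ih b b.2) (ih c c.2) _ (hs b) _ (hs c) r (hs' b) (hs' c)
    obtain ⟨r', hr', t, ht⟩ := hg.tot r a
    have h0 := hr'.trans (hr.trans hq)
    obtain ⟨v, hv, V, E, e1, e2, e3, e4, e5⟩ := thin_out hσ (hc r' h0 D d1 _ ((hy t).mono h0))
    obtain ⟨w, hw, z, z1, z2⟩ := s3 v ⟨(E, V), e1, e3, e5, ⟨t, hg.mono _ _ _ _ hv ht, e4⟩,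
      fun b hb => ⟨_, hs ⟨b, hb⟩, hv.trans (hr'.trans (hs' ⟨b, hb⟩)), e2.trans (d2 ⟨b, hb⟩)⟩⟩
    exact ⟨w, hw, z, z1, z2.trans (hv.trans (hr'.trans hr))⟩
  let C : Name P := .mk (Σ a : W, (F a).1) (fun x => ((F x.1).2 x.2).2) fun x => x.2
  obtain ⟨q, hq, l, l1, l2⟩ := finite_subcover (F := C) hσ hT hY hC
    (forces_forall_mem (b := C) (Φ := fun U x => Mod.mem x (T.val U))
      fun x q _ h => ⟨q, le_rfl, ((hF x.1).2.2 _ x.2.2).2.1.mono h⟩)
    (forces_forall_mem_fam (Φ := fun U x => ∃ V, Mod.mem V (C.val U) ∧ Mod.mem x V)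
      fun t q hq => by
        obtain ⟨r, hr, a, ha⟩ := hg.sur q t
        obtain ⟨s, hs, v, h1, h2⟩ := (hF a).2.1 r (hr.trans hq)
        obtain ⟨t', h3, h4⟩ := ((hF a).2.2 s hs).2.2.2.1
        obtain rfl := hg.fn v a _ _ (hg.mono _ _ _ _ h2 ha) (hg.mono _ _ _ _ h1 h3)
        exact ⟨v, h2.trans hr, ((forces_el_mem (b := C) ⟨a, s, hs⟩ h1).and (h4.mono h1)).imp
          fun U h => ⟨_, h⟩⟩)
    ((hH.and hY).imp fun U h => h.1 _ h.2)
  obtain ⟨r, hr, h1⟩ := all_cnt hσ (p := q) (fun (i : Fin l.length) r => ∃ x : Σ a : W, (F a).1,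
    r ≤ x.2 ∧ Forces r fun U => (l.get i).val U = ((F x.1).2 x.2).2.val U)
    (fun _ _ _ g ⟨x, h1, h2⟩ => ⟨x, g.trans h1, h2.mono g⟩)
    fun i r hr => ((l1 _ (List.get_mem l i)).mono hr).exists_el
  choose x hx hx' using h1
  obtain ⟨E, e1, e2⟩ := pseudo (fun i => ((F (x i).1).2 (x i).2).1)
    (fun i => ((hF _).2.2 _ (x i).2.2).1)
    fun i j => cmp F _ _ (hF _) (hF _) _ (x i).2.2 _ (x j).2.2 r (hx i) (hx j)
  obtain ⟨n, hn⟩ := (eventually_all.2 fun i => (fl_mem _).filter_mono (e2 i)).exists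
  obtain ⟨s, hs, u, hu, b⟩ := l2 r hr (y (.leaf n)) (Forces.of_forall (mem_fam y (.leaf n)) r)
  obtain ⟨i, rfl⟩ := List.get_of_mem hu
  exact Forces.not_false ((b.and ((((((hF _).2.2 _ (x i).2.2).2.2.1 n (hn i)).mono (hx i)).and
    (hx' i)).mono hs)).imp fun U h => h.2.1 (h.2.2 ▸ h.1))

end Pool.Agent.P.MP_63de32_gt.Pos
end

-- part Pool.Agent.P.MP_63de32_gt.Pos3
section

set_option autoImplicit false

/-! The positive answer after collapsing the continuum. -/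

open Pool.Agent.Lib.PosetForcing Filter

namespace Pool.Agent.P.MP_63de32_gt.Pos

universe u

section
variable {P : Type u} [Preorder P] [OrderTop P]

instance clopen_isTop (a b : Name P) :
    Clopen fun U : Gen P => IsTop Mod.mem (a.val U) (b.val U) := by
  unfold IsTop; infer_instance

instance clopen_isHausdorff (a b : Name P) :
    Clopen fun U : Gen P => IsHausdorff Mod.mem (a.val U) (b.val U) := by
  unfold IsHausdorff; infer_instance

instance clopen_isCpt (a b c : Name P) :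
    Clopen fun U : Gen P => IsCpt Mod.mem (a.val U) (b.val U) (c.val U) := by
  unfold IsCpt; infer_instance

instance clopen_wtr (a b c : Name P) :
    Clopen fun U : Gen P => WeaklyThetaRef Mod.mem (a.val U) (b.val U) (c.val U) := by
  unfold WeaklyThetaRef
  refine @clopen_forall _ _ _ fun F => @clopen_imp _ _ _ _ inferInstance
    (@clopen_imp _ _ _ _ inferInstance (@clopen_exists _ _ _ fun G => @clopen_and _ _ _ _ ?_ ?_))
  · exact clopen_isFunOn G a fun U H => ∀ g, Mod.mem g H →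
      RelOpen Mod.mem (b.val U) (c.val U) g ∧ ∃ u, Mod.mem u (F.val U) ∧ IsSub Mod.mem g u
  · infer_instance

instance clopen_isSequential (a b c : Name P) :
    Clopen fun U : Gen P => IsSequential Mod.mem (a.val U) (b.val U) (c.val U) := by
  unfold IsSequential; infer_instance

variable {X T A : Name P} {p0 : P}

theorem conv_of_cv {q : P} {x : Name P} {d : ℕ → Name P} {D : Set ℕ} (h : Cv T q x d D)
    {φ : ℕ → ℕ} (hφ : Tendsto φ atTop (fl D)) : Forces q fun U =>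
      Conv Mod.mem (omegaName.val U) (T.val U) ((seqN fun k => d (φ k)).val U) (x.val U) := by
  refine forces_forall fun V => forces_imp fun r hr a1 => ⟨r, le_rfl, forces_imp fun s hs a2 => ?_⟩
  obtain ⟨t, ht, b⟩ := h s (hs.trans hr) V (a1.mono hs) a2
  obtain ⟨m, hm⟩ := eventually_atTop.1 (hφ.eventually b)
  have i1 : ∀ a b : Name P, Clopen fun U : Gen P =>
      Mod.mem ((natName m).val U) (a.val U) → Mod.mem (b.val U) (V.val U) :=
    fun a b => inferInstance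
  have key : Forces t fun U => ∀ k y, App Mod.mem ((seqN fun k => d (φ k)).val U) k y →
      Mod.mem ((natName m).val U) k → Mod.mem y (V.val U) := forces_forall_app_graph
    (Φ := fun U k y => Mod.mem ((natName m).val U) k → Mod.mem y (V.val U))
    fun i v hv _ => ⟨v, le_rfl, fun U hU g =>
      (hm i.down (natName_mem_iff.1 g).le).mono hv U hU⟩
  exact ⟨t, ht, key.imp fun U g => ⟨_, natName_mem_omega m U, g⟩⟩

theorem sequential (hσ : SC P) {W : Type u} [LinearOrder W] [WellFoundedLT W]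
    (hW : ∀ a : W, (Set.Iio a).Countable) {g : P → W → Tm.{u} → Prop} (hg : Enum g)
    (hT : Forces p0 fun U => IsTop Mod.mem (X.val U) (T.val U))
    (hS : Forces p0 fun U => IsHausdorff Mod.mem (X.val U) (T.val U))
    (hK : Forces p0 fun U => IsCpt Mod.mem (omegaName.val U) (X.val U) (T.val U))
    (hH : Forces p0 fun U => ∀ Y, IsSub Mod.mem Y (X.val U) →
      WeaklyThetaRef Mod.mem (omegaName.val U) (T.val U) Y)
    (hA : Forces p0 fun U => IsSub Mod.mem (A.val U) (X.val U))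
    (hA' : Forces p0 fun U => ∀ s x, IsFun Mod.mem s (omegaName.val U) (A.val U) →
      Mod.mem x (X.val U) → Conv Mod.mem (omegaName.val U) (T.val U) s x → Mod.mem x (A.val U)) :
    Forces p0 fun U => ∃ V, Mod.mem V (T.val U) ∧
      ∀ z, Mod.mem z V ↔ Mod.mem z (X.val U) ∧ ¬ Mod.mem z (A.val U) := by
  have hC : CC T A p0 := fun p hp d hd => by
    obtain ⟨q, hq, D, h1, x, h2, h3⟩ := seq_compact hσ hW hg (hT.mono hp) (hK.mono hp)
      (hH.mono hp) fun n => ((hA.mono hp).and (hd n)).imp fun U h => h.1 _ h.2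
    obtain ⟨φ, hφ⟩ := exists_seq_tendsto (fl D)
    refine ⟨q, hq, x, (((hA'.mono (hq.trans hp)).and (isFun_seqN fun k => (hd (φ k)).mono hq)).and
      (h2.and (conv_of_cv h3 hφ))).imp fun U h => h.1.1 _ _ h.1.2 h.2.1 h.2.2,
      fun r hr V a1 a2 m => ?_⟩
    obtain ⟨s, hs, b⟩ := h3 r hr V a1 a2
    have c : ∀ᶠ n in fl D, m ≤ n := (eventually_ge_atTop m).filter_mono inf_le_left
    exact ⟨s, hs, (c.and b).exists⟩
  have key : Forces p0 fun U => ∀ x, Mod.mem x (X.val U) ∧ ¬ Mod.mem x (A.val U) →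
      ∃ V, (Mod.mem V (T.val U) ∧ ∀ z, Mod.mem z V → ¬ Mod.mem z (A.val U)) ∧ Mod.mem x V := by
    refine forces_forall fun x => forces_imp fun q hq hx => ?_
    have e := mem_sepName T fun U W => ∃ V, Mod.mem V (T.val U) ∧ Mod.mem (x.val U) V ∧
      ∀ z, Mod.mem z V → ¬ Mod.mem z W
    generalize sepName T _ = F at e
    obtain ⟨r, hr, l, l1, l2⟩ := finite_subcover (F := F) hσ (hT.mono hq) (hA.mono hq)
      (fun p hp => hC p (hp.trans hq)) (Forces.of_forall (fun U W hW => ((e U W).1 hW).1) q)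
      ((((hS.and hA).mono hq).and hx).imp fun U h y hy => by
        obtain ⟨V, W, a1, a2, a3, a4, a5⟩ := h.1.1 _ h.2.1 y (h.1.2 y hy) fun e => h.2.2 (e ▸ hy)
        exact ⟨W, (e U W).2 ⟨a2, V, a1, a3, a5⟩, a4⟩)
      (((hH.and hA).mono hq).imp fun U h => h.1 _ h.2)
    obtain ⟨V, a1, a2, a3⟩ := inter_list (hT.mono (hr.trans hq)) ((hx.mono hr).imp fun _ h => h.1) l
      (fun u V => Forces r fun U => ∀ z, Mod.mem z (V.val U) → ¬ Mod.mem z (u.val U))
      (fun u V W e h => h.imp fun U h z hz => h z (e U z hz)) fun u hu => by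
        obtain ⟨V, hV⟩ := Forces.exists_name (Φ := fun U V => Mod.mem V (T.val U) ∧
          Mod.mem (x.val U) V ∧ ∀ z, Mod.mem z V → ¬ Mod.mem z (u.val U))
          ((l1 u hu).imp fun U h => ((e U _).1 h).2)
        exact ⟨V, hV.imp fun _ h => h.1, hV.imp fun _ h => h.2.1, hV.imp fun _ h => h.2.2⟩
    have a4 : Forces r fun U => ∀ z, Mod.mem z (V.val U) → ¬ Mod.mem z (A.val U) :=
      forces_forall fun z => forces_imp fun s hs b => ⟨s, le_rfl, forces_not_iff.2 fun t ht c => by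
        obtain ⟨v, hv, u, hu, c'⟩ := l2 t (ht.trans hs) z c
        exact Forces.not_false ((((a3 u hu).mono (hv.trans (ht.trans hs))).and
          ((b.mono (hv.trans ht)).and c')).imp fun U h => h.1 _ h.2.1 h.2.2)⟩
    exact ⟨r, hr, ((a1.and a4).and a2).imp fun U h => ⟨_, h⟩⟩
  have e := mem_sepName T fun U V => ∀ z, Mod.mem z V → ¬ Mod.mem z (A.val U)
  generalize sepName T _ = F at e
  refine (hT.and key).imp fun U h => ⟨(unionName F).val U,
    h.1.2.2.2 _ _ (fun V hV => ((e U V).1 hV).1) (mem_unionName F U), fun z => ?_⟩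
  rw [mem_unionName]
  constructor
  · rintro ⟨V, a1, a2⟩
    exact ⟨h.1.1 V ((e U V).1 a1).1 z a2, ((e U V).1 a1).2 z a2⟩
  · intro hz
    obtain ⟨V, a1, a2⟩ := h.2 z hz
    exact ⟨V, (e U V).2 a1, a2⟩

theorem q1 (hσ : SC P) {W : Type u} [LinearOrder W] [WellFoundedLT W]
    (hW : ∀ a : W, (Set.Iio a).Countable) {g : P → W → Tm.{u} → Prop} (hg : Enum g) (U : Gen P) :
    Q1 (M := Mod U) Mod.mem := by
  intro w X T hw
  obtain rfl := hw.eq_omega
  obtain ⟨X, rfl⟩ := X.exists_name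
  obtain ⟨T, rfl⟩ := T.exists_name
  intro h1 h2 h3 h4 A h5 h6
  obtain ⟨A, rfl⟩ := A.exists_name
  have i1 : Clopen fun U : Gen P => ∀ Y, IsSub Mod.mem Y (X.val U) →
      WeaklyThetaRef Mod.mem (omegaName.val U) (T.val U) Y := inferInstance
  have i2 : Clopen fun U : Gen P => ∀ s x, IsFun Mod.mem s (omegaName.val U) (A.val U) →
      Mod.mem x (X.val U) → Conv Mod.mem (omegaName.val U) (T.val U) s x → Mod.mem x (A.val U) :=
    inferInstance
  have i3 : Clopen fun U : Gen P => ∃ V, Mod.mem V (T.val U) ∧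
      ∀ z, Mod.mem z V ↔ Mod.mem z (X.val U) ∧ ¬ Mod.mem z (A.val U) := inferInstance
  refine @of_truth _ _ _ i3 U ?_
  filter_upwards [@truth _ _ _ (clopen_isTop X T) U h1, @truth _ _ _ (clopen_isHausdorff X T) U h2,
    @truth _ _ _ (clopen_isCpt omegaName X T) U h3, @truth _ _ _ i1 U h4,
    @truth _ _ _ (clopen_isSub A X) U h5, @truth _ _ _ i2 U h6] with p a1 a2 a3 a4 a5 a6
  exact sequential hσ hW hg a1 a2 a3 a4 a5 a6

end

/-- countable functional relations -/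
structure Col (W B : Type u) : Type u where
  /-- the graph -/
  s : Set (W × B)
  cnt : s.Countable
  fn : ∀ x b b', (x, b) ∈ s → (x, b') ∈ s → b = b'

variable {W B : Type u}

instance : Preorder (Col W B) where
  le p q := q.s ⊆ p.s
  le_refl _ := subset_rfl
  le_trans _ _ _ h h' := h'.trans h

instance : OrderTop (Col W B) where
  top := ⟨∅, Set.countable_empty, fun _ _ _ h => h.elim⟩
  le_top _ := Set.empty_subset _

theorem sc_col : SC (Col W B) := fun p h => by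
  have h1 : Antitone p := antitone_nat_of_succ_le h
  refine ⟨⟨⋃ i, (p i).s, Set.countable_iUnion fun i => (p i).cnt, fun x b b' a1 a2 => ?_⟩,
    fun i => Set.subset_iUnion (fun i => (p i).s) i⟩
  obtain ⟨i, hi⟩ := Set.mem_iUnion.1 a1
  obtain ⟨j, hj⟩ := Set.mem_iUnion.1 a2
  exact (p (max i j)).fn x b b' (h1 (le_max_left i j) hi) (h1 (le_max_right i j) hj)

theorem col_add (p : Col W B) {a : W} (h : ∀ b, (a, b) ∉ p.s) (t : B) :
    ∃ q ≤ p, (a, t) ∈ q.s := by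
  refine ⟨⟨insert (a, t) p.s, p.cnt.insert _, ?_⟩, Set.subset_insert _ _, Set.mem_insert _ _⟩
  rintro x b b' (e | e) (e' | e')
  · exact (Prod.ext_iff.1 e).2.trans (Prod.ext_iff.1 e').2.symm
  · obtain ⟨rfl, -⟩ := Prod.mk.inj e
    exact absurd e' (h _)
  · obtain ⟨rfl, -⟩ := Prod.mk.inj e'
    exact absurd e (h _)
  · exact p.fn x b b' e e'

theorem enum_col [Uncountable W] : Enum fun (p : Col W Tm.{u}) a t => (a, t) ∈ p.s := by
  refine ⟨fun p q a t h g => h g, fun p => p.fn, fun p a => ?_, fun p t => ?_⟩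
  · by_cases h : ∃ b, (a, b) ∈ p.s
    · exact ⟨p, le_rfl, h⟩
    · obtain ⟨q, hq, g⟩ := col_add p (not_exists.1 h) (.leaf 0)
      exact ⟨q, hq, _, g⟩
  · obtain ⟨a, ha⟩ : ∃ a, a ∉ Prod.fst '' p.s := by
      by_contra hc
      push Not at hc
      exact Set.not_countable_univ ((p.cnt.image Prod.fst).mono fun a _ => hc a)
    obtain ⟨q, hq, g⟩ := col_add p (fun b hb => ha ⟨_, hb, rfl⟩) t
    exact ⟨q, hq, a, g⟩

end Pool.Agent.P.MP_63de32_gt.Pos
end

-- part Pool.Agent.P.MP_63de32_gt.Raw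
section

set_option autoImplicit false

/-! Raw conditions of the iteration, bookkeeping, the side relation. -/

open Pool.Agent.Lib.PosetForcing Cardinal

namespace Pool.Agent.P.MP_63de32_gt

/-- stages -/
abbrev O : Type 1 := Ordinal.{0}

/-- generators of the clopen algebra: singletons of natural numbers and nodes -/
abbrev Gn : Type 1 := ℕ ⊕ O

/-- natural numbers, branches and cones -/
inductive Pt : Type 1
  | nat (n : ℕ) : Pt
  | br (j : O) : Pt
  | cone (x : O) (b : Bool) : Pt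

/-- entries of the list at a node -/
abbrev Ent : Type 1 := (Gn × Bool) × Bool

/-- coloured points -/
abbrev Col : Type 1 := O × Bool × ℕ

/-- values of conditions -/
abbrev Y : Type 1 := List Ent × Finset Col

/-- raw conditions -/
@[ext] structure C : Type 1 where
  /-- the values -/
  f : O → Option Y
  fin : {γ | f γ ≠ none}.Finite

/-- extension of values -/
def YLe (y' y : Y) : Prop := y.1 <+: y'.1 ∧ y.2 ⊆ y'.2

theorem YLe.refl (y : Y) : YLe y y := ⟨List.prefix_refl _, subset_rfl⟩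

theorem YLe.trans {a b c : Y} (h : YLe a b) (h' : YLe b c) : YLe a c :=
  ⟨h'.1.trans h.1, h'.2.trans h.2⟩

instance : Preorder C where
  le p q := ∀ γ y, q.f γ = some y → ∃ y', p.f γ = some y' ∧ YLe y' y
  le_refl _ _ y h := ⟨y, h, YLe.refl y⟩
  le_trans _ _ _ h h' γ y hy := by
    obtain ⟨y1, h1, h2⟩ := h' γ y hy
    obtain ⟨y2, h3, h4⟩ := h γ y1 h1
    exact ⟨y2, h3, h4.trans h2⟩

theorem C.le_def {p q : C} :
    p ≤ q ↔ ∀ γ y, q.f γ = some y → ∃ y', p.f γ = some y' ∧ YLe y' y := Iff.rfl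

theorem C.ne_none {p q : C} (h : p ≤ q) {γ : O} (hγ : q.f γ ≠ none) : p.f γ ≠ none := by
  obtain ⟨y, hy⟩ := Option.ne_none_iff_exists'.1 hγ
  obtain ⟨y', h1, -⟩ := h γ y hy
  simp [h1]

instance : OrderTop C where
  top := ⟨fun _ => none, by simp⟩
  le_top _ _ _ h := absurd h (by simp)

theorem top_f (γ : O) : (⊤ : C).f γ = none := rfl

open Classical in
/-- restriction to an initial segment -/
noncomputable def C.restr (p : C) (α : O) : C :=
  ⟨fun γ => if γ < α then p.f γ else none, p.fin.subset fun γ h => by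
    by_cases hγ : γ < α <;> simp_all⟩

/-- the support is below `α` -/
def Sup (α : O) (p : C) : Prop := ∀ γ, p.f γ ≠ none → γ < α

theorem restr_f_of_lt {p : C} {α γ : O} (h : γ < α) : (p.restr α).f γ = p.f γ := if_pos h

theorem restr_f_of_ge {p : C} {α γ : O} (h : α ≤ γ) : (p.restr α).f γ = none := if_neg (not_lt.2 h)

theorem restr_f_some {p : C} {α γ : O} {y : Y} (h : (p.restr α).f γ = some y) :
    γ < α ∧ p.f γ = some y := by
  rcases lt_or_ge γ α with h1 | h1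
  · exact ⟨h1, by rwa [restr_f_of_lt h1] at h⟩
  · rw [restr_f_of_ge h1] at h; exact absurd h (by simp)

theorem restr_restr {p : C} {α γ : O} (h : γ ≤ α) : (p.restr α).restr γ = p.restr γ := by
  refine C.ext (funext fun δ => ?_)
  rcases lt_or_ge δ γ with h1 | h1
  · rw [restr_f_of_lt h1, restr_f_of_lt h1, restr_f_of_lt (h1.trans_le h)]
  · rw [restr_f_of_ge h1, restr_f_of_ge h1]

theorem sup_restr (p : C) (α : O) : Sup α (p.restr α) := fun γ h => by
  by_contra hγ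
  exact h (restr_f_of_ge (not_lt.1 hγ))

theorem Sup.none {p : C} {α γ : O} (h : Sup α p) (hγ : α ≤ γ) : p.f γ = none := by
  by_contra h1
  exact absurd (h γ h1) (not_lt.2 hγ)

theorem Sup.restr_eq {p : C} {α : O} (h : Sup α p) : p.restr α = p := by
  refine C.ext (funext fun δ => ?_)
  rcases lt_or_ge δ α with h1 | h1
  · exact restr_f_of_lt h1
  · rw [restr_f_of_ge h1, h.none h1]

theorem Sup.mono {p : C} {α β : O} (h : Sup α p) (hβ : α ≤ β) : Sup β p :=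
  fun γ hγ => (h γ hγ).trans_le hβ

theorem exists_sup (p : C) : ∃ α, Sup α p := by
  obtain ⟨α, hα⟩ := p.fin.bddAbove
  exact ⟨Order.succ α, fun γ h => Order.lt_succ_iff.2 (hα h)⟩

theorem exists_sup_small {ι : Type 1} [Small.{0} ι] (p : ι → C) : ∃ α, ∀ i, Sup α (p i) := by
  choose a ha using fun i => exists_sup (p i)
  obtain ⟨α, hα⟩ := Ordinal.bddAbove_of_small (s := Set.range a)
  exact ⟨α, fun i => (ha i).mono (hα ⟨i, rfl⟩)⟩

theorem le_restr (p : C) (α : O) : p ≤ p.restr α := fun _ y h =>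
  ⟨y, (restr_f_some h).2, YLe.refl y⟩

theorem restr_mono {p q : C} (h : p ≤ q) (α : O) : p.restr α ≤ q.restr α := fun γ y hy => by
  obtain ⟨h1, h2⟩ := restr_f_some hy
  obtain ⟨y', h3, h4⟩ := h γ y h2
  exact ⟨y', by rwa [restr_f_of_lt h1], h4⟩

theorem restr_le_of_sup {p q : C} {α : O} (h : p ≤ q) (hq : Sup α q) : p.restr α ≤ q := by
  have := restr_mono h α
  rwa [hq.restr_eq] at this

theorem restr_le_restr (p : C) {α β : O} (h : α ≤ β) : p.restr β ≤ p.restr α := by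
  rw [← restr_restr h]; exact le_restr _ _

section card

theorem mk_le_univ_of_small (X : Type 1) [h : Small.{0} X] : #X ≤ Cardinal.univ.{0, 1} := by
  rw [small_iff_lift_mk_lt_univ] at h
  simpa using h.le

theorem mk_finset_le {X : Type 1} (h : #X ≤ Cardinal.univ.{0, 1}) :
    #(Finset X) ≤ Cardinal.univ.{0, 1} := by
  rcases finite_or_infinite X with h1 | h1
  · exact mk_le_univ_of_small _
  · rwa [mk_finset_of_infinite]

theorem mk_list_le {X : Type 1} (h : #X ≤ Cardinal.univ.{0, 1}) :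
    #(List X) ≤ Cardinal.univ.{0, 1} :=
  (mk_list_le_max X).trans (max_le aleph0_lt_univ.le h)

theorem mk_prod_le {X Z : Type 1} (h : #X ≤ Cardinal.univ.{0, 1}) (h' : #Z ≤ Cardinal.univ.{0, 1}) :
    #(X × Z) ≤ Cardinal.univ.{0, 1} := by
  rw [mk_prod, lift_id, lift_id]
  exact mul_le_of_le aleph0_lt_univ.le h h'

theorem mk_prod_le' {X : Type 1} {Z : Type} [Countable Z] (h : #X ≤ Cardinal.univ.{0, 1}) :
    #(X × Z) ≤ Cardinal.univ.{0, 1} := by
  have h1 : #(X × ULift.{1} Z) ≤ Cardinal.univ.{0, 1} := mk_prod_le h (mk_le_univ_of_small _)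
  exact le_trans (mk_le_of_injective (f := fun x : X × Z => (x.1, ULift.up x.2))
    fun a b hab => Prod.ext (Prod.ext_iff.1 hab).1
      (congrArg ULift.down (Prod.ext_iff.1 hab).2)) h1

theorem mk_O_le : #O ≤ Cardinal.univ.{0, 1} := mk_ordinal.le

theorem mk_C_le : #C ≤ Cardinal.univ.{0, 1} := by
  classical
  have hG : #Gn ≤ Cardinal.univ.{0, 1} := by
    rw [mk_sum, lift_id', mk_nat, lift_aleph0]
    exact add_le_of_le aleph0_lt_univ.le aleph0_lt_univ.le mk_O_le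
  have hY : #Y ≤ Cardinal.univ.{0, 1} :=
    mk_prod_le (mk_list_le (mk_prod_le' (mk_prod_le' hG))) (mk_finset_le (mk_prod_le' mk_O_le))
  have h2 : #(Option Y) ≤ Cardinal.univ.{0, 1} := by
    rw [mk_option]
    exact add_le_of_le aleph0_lt_univ.le hY (one_le_aleph0.trans aleph0_lt_univ.le)
  refine le_trans (mk_le_of_injective (f := fun p : C =>
    (p.fin.toFinset.image fun γ => (γ, p.f γ))) ?_) (mk_finset_le (mk_prod_le mk_O_le h2))
  have key : ∀ p q : C, (p.fin.toFinset.image fun γ => (γ, p.f γ)) =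
      (q.fin.toFinset.image fun γ => (γ, q.f γ)) → ∀ γ, p.f γ ≠ none → p.f γ = q.f γ := by
    intro p q h γ hγ
    have : (γ, p.f γ) ∈ q.fin.toFinset.image fun γ => (γ, q.f γ) :=
      h ▸ Finset.mem_image.2 ⟨γ, p.fin.mem_toFinset.2 hγ, rfl⟩
    obtain ⟨δ, -, h1⟩ := Finset.mem_image.1 this
    obtain ⟨rfl, h2⟩ := Prod.ext_iff.1 h1
    exact h2.symm
  intro p q e2
  refine C.ext (funext fun γ => ?_)
  by_cases h1 : p.f γ = none
  · by_cases h2 : q.f γ = none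
    · rw [h1, h2]
    · exact (key q p e2.symm γ h2).symm
  · exact key p q e2 γ h1

theorem mk_small_le {X : Type 1} (h : #X ≤ Cardinal.univ.{0, 1}) :
    #{t : Set X // Small.{0} t} ≤ Cardinal.univ.{0, 1} := by
  obtain ⟨e⟩ : Nonempty (X ↪ O) := by rwa [← Cardinal.le_def, mk_ordinal]
  have h1 := mk_subset_mk_lt_cof (α := O)
    (by rw [mk_ordinal]; exact IsStrongLimit.univ.isStrongPrelimit)
  rw [mk_ordinal, IsInaccessible.univ.isRegular.cof_ord] at h1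
  rw [← h1]
  refine mk_le_of_injective (f := fun t => ⟨e '' t.1, ?_⟩) fun t t' h => ?_
  · have := t.2
    have h2 : Small.{0} (e '' t.1) := inferInstance
    rw [small_iff_lift_mk_lt_univ] at h2
    simpa using h2
  · exact Subtype.ext (e.injective.image_injective (congrArg Subtype.val h))

theorem exists_task : ∃ task : O → Set (C × O × Bool) × Bool,
    ∀ (t : Set (C × O × Bool)) (k : Bool), Small.{0} t → ∀ α, ∃ β, α ≤ β ∧ task β = (t, k) := by
  obtain ⟨e⟩ : Nonempty (({t : Set (C × O × Bool) // Small.{0} t} × Bool) × O ↪ O) := by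
    rw [← Cardinal.le_def, mk_ordinal]
    exact mk_prod_le (mk_prod_le' (mk_small_le (mk_prod_le mk_C_le (mk_prod_le' mk_O_le)))) mk_O_le
  have : Nonempty (({t : Set (C × O × Bool) // Small.{0} t} × Bool) × O) :=
    ⟨((⟨∅, inferInstance⟩, true), 0)⟩
  refine ⟨fun γ => ((Function.invFun e γ).1.1.1, (Function.invFun e γ).1.2),
    fun t k ht α => ?_⟩
  obtain ⟨δ, hδ⟩ : ∃ δ, α ≤ e ((⟨t, ht⟩, k), δ) := by
    by_contra hcon
    push Not at hcon
    exact not_small_ordinal.{0, 0} (small_of_injective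
      (f := fun δ => (⟨e ((⟨t, ht⟩, k), δ), hcon δ⟩ : Set.Iio α)) fun δ δ' h =>
        congrArg Prod.snd (e.injective (congrArg Subtype.val h)))
  exact ⟨_, hδ, by simp only [Function.leftInverse_invFun e.injective _]⟩

end card

/-- the bookkeeping function -/
noncomputable def task : O → Set (C × O × Bool) × Bool := exists_task.choose

/-- `true` for node stages, `false` for branch stages -/
noncomputable def kind (x : O) : Bool := (task x).2

/-- the possible members of the path coded at `x` -/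
def Dm (x : O) : Set O := {κ | ∃ a i, (a, κ, i) ∈ (task x).1}

/-- `p` knows that `(κ, i)` lies on the path coded at `x` -/
def K (p : C) (x κ : O) (i : Bool) : Prop :=
  κ < x ∧ ∃ a, (a, κ, i) ∈ (task x).1 ∧ Sup x a ∧ p ≤ a

theorem K.lt {p : C} {x κ : O} {i : Bool} (h : K p x κ i) : κ < x := h.1

theorem K.mem {p : C} {x κ : O} {i : Bool} (h : K p x κ i) : κ ∈ Dm x := by
  obtain ⟨-, a, h1, -⟩ := h
  exact ⟨a, i, h1⟩

theorem K.mono {p q : C} {x κ : O} {i : Bool} (h : K p x κ i) (hq : q ≤ p) : K q x κ i := by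
  obtain ⟨h0, a, h1, h2, h3⟩ := h
  exact ⟨h0, a, h1, h2, hq.trans h3⟩

theorem K.restr {p : C} {x κ α : O} {i : Bool} (h : K p x κ i) (hα : x ≤ α) :
    K (p.restr α) x κ i := by
  obtain ⟨h0, a, h1, h2, h3⟩ := h
  exact ⟨h0, a, h1, h2, restr_le_of_sup h3 (h2.mono hα)⟩

/-- active node -/
def ActN (p : C) (x : O) : Prop := kind x = true ∧ p.f x ≠ none

/-- active branch -/
def ActB (p : C) (x : O) : Prop := kind x = false ∧ p.f x ≠ none

theorem ActN.mono {p q : C} {x : O} (h : ActN p x) (hq : q ≤ p) : ActN q x :=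
  ⟨h.1, C.ne_none hq h.2⟩

theorem ActB.mono {p q : C} {x : O} (h : ActB p x) (hq : q ≤ p) : ActB q x :=
  ⟨h.1, C.ne_none hq h.2⟩

theorem ActN.restr {p : C} {x α : O} (h : ActN p x) (hα : x < α) : ActN (p.restr α) x :=
  ⟨h.1, by rw [restr_f_of_lt hα]; exact h.2⟩

theorem ActB.restr {p : C} {x α : O} (h : ActB p x) (hα : x < α) : ActB (p.restr α) x :=
  ⟨h.1, by rw [restr_f_of_lt hα]; exact h.2⟩

/-- the path of a point or cone -/
def KP (p : C) : Pt → O → Bool → Prop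
  | .nat _, _, _ => False
  | .br j, κ, i => K p j κ i
  | .cone x b, κ, i => K p x κ i ∨ (κ = x ∧ i = b)

theorem KP.mono {p q : C} {z : Pt} {κ : O} {i : Bool} (h : KP p z κ i) (hq : q ≤ p) :
    KP q z κ i := by
  cases z with
  | nat n => exact h
  | br j => exact K.mono h hq
  | cone x b => exact h.imp (fun h => K.mono h hq) id

/-- the generator comes before the stage `x` -/
def GLt : Gn → O → Prop
  | .inl _, _ => True
  | .inr z, x => z < x

theorem GLt.trans {g : Gn} {x α : O} (h : GLt g x) (hα : x ≤ α) : GLt g α := by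
  cases g with
  | inl n => trivial
  | inr z => exact lt_of_lt_of_le h hα

/-- `p` knows on which side of a generator the point or cone `z` lies -/
inductive Sd (p : C) (z : Pt) : Gn → Bool → Prop
  | natT (n : ℕ) : z = .nat n → Sd p z (.inl n) true
  | natF (n : ℕ) : z ≠ .nat n → Sd p z (.inl n) false
  | on (x : O) (s : Bool) : KP p z x s → Sd p z (.inr x) s
  | fe (x : O) (y : Y) (l : List Ent) (e : Ent) : p.f x = some y → l ++ [e] <+: y.1 →
      GLt e.1.1 x → (∀ d ∈ l, GLt d.1.1 x) → Sd p z e.1.1 e.1.2 →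
      (∀ d ∈ l, Sd p z d.1.1 (!d.1.2)) → Sd p z (.inr x) e.2

theorem Sd.mono {p q : C} {z : Pt} {g : Gn} {s : Bool} (h : Sd p z g s) (hq : q ≤ p) :
    Sd q z g s := by
  induction h with
  | natT n h => exact .natT n h
  | natF n h => exact .natF n h
  | on x s h => exact .on x s (h.mono hq)
  | fe x y l e h1 h2 h3 h4 _ _ ih1 ih2 =>
    obtain ⟨y', g1, g2⟩ := hq x y h1
    exact .fe x y' l e g1 (h2.trans g2.1) h3 h4 ih1 ih2

theorem Sd.restr {p : C} {x α : O} {b : Bool} {g : Gn} {s : Bool} (h : Sd p (.cone x b) g s)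
    (hx : x ≤ α) (hg : GLt g α) : Sd (p.restr α) (.cone x b) g s := by
  induction h with
  | natT n h => exact .natT n h
  | natF n h => exact .natF n h
  | on x' s h => exact .on x' s (h.imp (fun h => K.restr h hx) id)
  | fe x' y l e h1 h2 h3 h4 _ _ ih1 ih2 =>
    have hlt : x' < α := hg
    exact .fe x' y l e (by rwa [restr_f_of_lt hlt]) h2 h3 h4 (ih1 (h3.trans hlt.le))
      fun d hd => ih2 d hd ((h4 d hd).trans hlt.le)

/-- the paths coded at `x` and `x'` split -/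
def Split (p : C) (x x' : O) : Prop := ∃ μ m, K p x μ m ∧ K p x' μ (!m)

theorem Split.mono {p q : C} {x x' : O} (h : Split p x x') (hq : q ≤ p) : Split q x x' := by
  obtain ⟨μ, m, h1, h2⟩ := h
  exact ⟨μ, m, h1.mono hq, h2.mono hq⟩

theorem Split.restr {p : C} {x x' α : O} (h : Split p x x') (hx : x ≤ α) (hx' : x' ≤ α) :
    Split (p.restr α) x x' := by
  obtain ⟨μ, m, h1, h2⟩ := h
  exact ⟨μ, m, h1.restr hx, h2.restr hx'⟩

end Pool.Agent.P.MP_63de32_gt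
end

-- part Pool.Agent.P.MP_63de32_gt.Valid
section

set_option autoImplicit false

/-! Valid conditions, the poset, transfer between the stages and the whole iteration. -/

open Pool.Agent.Lib.PosetForcing

namespace Pool.Agent.P.MP_63de32_gt

/-- forced implication among the conditions satisfying `V` -/
def Imp (V : C → Prop) (p : C) (H Φ : C → Prop) : Prop :=
  ∀ r, V r → r ≤ p → H r → ∃ s, V s ∧ s ≤ r ∧ Φ s

theorem Imp.mono {V : C → Prop} {p q : C} {H Φ : C → Prop} (h : Imp V p H Φ) (hq : q ≤ p) :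
    Imp V q H Φ := fun r h1 h2 h3 => h r h1 (h2.trans hq) h3

/-- the object coded at `x` is forced to be a new path of the right kind -/
structure ProperV (V : C → Prop) (x : O) (p : C) : Prop where
  act : ∀ κ i, Imp V p (fun r => K r x κ i) (fun r => ActN r κ ∧ κ < x)
  fn : ∀ κ, Imp V p (fun r => K r x κ true ∧ K r x κ false) (fun _ => False)
  down : ∀ κ i μ m, Imp V p (fun r => K r x κ i ∧ K r κ μ m) (fun r => K r x μ m)
  lin : ∀ κ i μ m, μ < κ → Imp V p (fun r => K r x κ i ∧ K r x μ m)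
    (fun r => K r κ μ m ∧ κ < x)
  cnt : kind x = true → (Dm x).Countable
  newN : kind x = true → ∀ κ < x, Imp V p (fun r => ActN r κ)
    (fun r => (∃ i, K r x κ i) ∨ Split r x κ)
  unc : kind x = false → ∀ T : Set O, T.Countable →
    Imp V p (fun _ => True) (fun r => ∃ κ i, κ ∉ T ∧ K r x κ i)
  newB : kind x = false → ∀ j < x, Imp V p (fun r => ActB r j) (fun r => Split r x j)

theorem ProperV.mono {V : C → Prop} {x : O} {p q : C} (h : ProperV V x p) (hq : q ≤ p) :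
    ProperV V x q :=
  ⟨fun κ i => (h.act κ i).mono hq, fun κ => (h.fn κ).mono hq,
    fun κ i μ m => (h.down κ i μ m).mono hq, fun κ i μ m hl => (h.lin κ i μ m hl).mono hq, h.cnt,
    fun hk κ hκ => (h.newN hk κ hκ).mono hq, fun hk T hT => (h.unc hk T hT).mono hq,
    fun hk j hj => (h.newB hk j hj).mono hq⟩

/-- the value `y` is allowed at the stage `x` -/
structure OkV (V : C → Prop) (x : O) (p : C) (y : Y) : Prop where
  proper : ProperV V x p
  nocol : kind x = true → y.2 = ∅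
  noent : kind x = false → y.1 = []
  entN : ∀ e ∈ y.1, ∀ n, e.1.1 = .inl n → e.1.2 = true
  entO : ∀ e ∈ y.1, ∀ z, e.1.1 = .inr z → Imp V p (fun _ => True) (fun r => K r x z (!e.1.2))
  col : ∀ c ∈ y.2, Imp V p (fun _ => True) (fun r => K r x c.1 c.2.1)
  sep : ∀ c ∈ y.2, ∀ c' ∈ y.2, c.1 < c'.1 → c.2.2 = c'.2.2 → c'.1 < x →
    Imp V p (fun _ => True) (fun r => Sd r (.cone c.1 (!c.2.1)) (.inr c'.1) c'.2.1)

theorem OkV.mono {V : C → Prop} {x : O} {p q : C} {y : Y} (h : OkV V x p y) (hq : q ≤ p) :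
    OkV V x q y :=
  ⟨h.proper.mono hq, h.nocol, h.noent, h.entN, fun e he z hz => (h.entO e he z hz).mono hq,
    fun c hc => (h.col c hc).mono hq,
    fun c hc c' hc' h1 h2 h3 => (h.sep c hc c' hc' h1 h2 h3).mono hq⟩

/-- validity of a value, by recursion on the stage -/
noncomputable def Ok : O → C → Y → Prop :=
  (wellFounded_lt (α := O)).fix fun x Ok' p y =>
    OkV (fun r => Sup x r ∧ ∀ ι (h : ι < x) y, r.f ι = some y → Ok' ι h (r.restr ι) y) x p y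

/-- valid conditions -/
def Valid (p : C) : Prop := ∀ ι y, p.f ι = some y → Ok ι (p.restr ι) y

theorem ok_eq (x : O) (p : C) (y : Y) : Ok x p y ↔ OkV (fun r => Sup x r ∧ Valid r) x p y := by
  have e : (fun r : C => Sup x r ∧ ∀ ι (_ : ι < x) y, r.f ι = some y → Ok ι (r.restr ι) y) =
      fun r => Sup x r ∧ Valid r := by
    funext r
    exact propext ⟨fun h => ⟨h.1, fun ι y hy => h.2 ι (h.1 ι (by simp [hy])) y hy⟩,
      fun h => ⟨h.1, fun ι _ y hy => h.2 ι y hy⟩⟩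
  rw [← e]
  exact iff_of_eq (congrFun (congrFun (WellFounded.fix_eq _ _ x) p) y)

theorem Ok.mono {x : O} {p q : C} {y : Y} (h : Ok x p y) (hq : q ≤ p) : Ok x q y :=
  (ok_eq _ _ _).2 (((ok_eq _ _ _).1 h).mono hq)

theorem Valid.restr {p : C} (h : Valid p) (α : O) : Valid (p.restr α) := fun ι y hy => by
  obtain ⟨h1, h2⟩ := restr_f_some hy
  rw [restr_restr h1.le]
  exact h ι y h2

/-- the poset -/
def PP : Type 1 := {p : C // Valid p}

noncomputable instance : Preorder PP := inferInstanceAs (Preorder {p : C // Valid p})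

theorem PP.le_def {p q : PP} : p ≤ q ↔ p.1 ≤ q.1 := Iff.rfl

noncomputable instance : OrderTop PP where
  top := ⟨⊤, fun _ _ h => absurd h (by simp [top_f])⟩
  le_top p := (le_top : p.1 ≤ ⊤)

/-- restriction -/
noncomputable def PP.restr (p : PP) (α : O) : PP := ⟨p.1.restr α, p.2.restr α⟩

theorem PP.le_restr (p : PP) (α : O) : p ≤ p.restr α := MP_63de32_gt.le_restr p.1 α

theorem PP.restr_mono {p q : PP} (h : p ≤ q) (α : O) : p.restr α ≤ q.restr α :=
  MP_63de32_gt.restr_mono h α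

theorem PP.sup_restr (p : PP) (α : O) : Sup α (p.restr α).1 := MP_63de32_gt.sup_restr p.1 α

theorem PP.restr_le_restr (p : PP) {α β : O} (h : α ≤ β) : p.restr β ≤ p.restr α :=
  MP_63de32_gt.restr_le_restr p.1 h

theorem PP.restr_le_of_sup {p q : PP} {α : O} (h : p ≤ q) (hq : Sup α q.1) : p.restr α ≤ q :=
  MP_63de32_gt.restr_le_of_sup h hq

theorem amalg (p r : PP) (x : O) (hr : Sup x r.1) (h : r ≤ p.restr x) :
    ∃ s : PP, s ≤ r ∧ s ≤ p ∧ (∀ γ, γ < x → s.1.f γ = r.1.f γ) ∧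
      ∀ γ, x ≤ γ → s.1.f γ = p.1.f γ := by
  classical
  let s : C := ⟨fun γ => if γ < x then r.1.f γ else p.1.f γ, (r.1.fin.union p.1.fin).subset
    fun γ h => by by_cases hγ : γ < x <;> simp_all⟩
  have e1 : ∀ γ, γ < x → s.f γ = r.1.f γ := fun γ h => if_pos h
  have e2 : ∀ γ, x ≤ γ → s.f γ = p.1.f γ := fun γ h => if_neg (not_lt.2 h)
  have l1 : s ≤ r.1 := fun γ y hy => ⟨y, by rw [e1 γ (hr γ (by simp [hy])), hy], YLe.refl y⟩
  have l2 : s ≤ p.1 := fun γ y hy => by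
    rcases lt_or_ge γ x with h1 | h1
    · obtain ⟨y', h2, h3⟩ := h γ y (by rw [← hy]; exact restr_f_of_lt h1)
      exact ⟨y', by rw [e1 γ h1, h2], h3⟩
    · exact ⟨y, by rw [e2 γ h1, hy], YLe.refl y⟩
  refine ⟨⟨s, fun ι y hy => ?_⟩, l1, l2, e1, e2⟩
  rcases lt_or_ge ι x with h1 | h1
  · exact (r.2 ι y (by rw [← e1 ι h1, hy])).mono (restr_mono l1 ι)
  · exact (p.2 ι y (by rw [← e2 ι h1, hy])).mono (restr_mono l2 ι)

/-- a monotone property depending only on the stages below `x` -/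
structure Loc (x : O) (φ : C → Prop) : Prop where
  mono : ∀ r s, s ≤ r → φ r → φ s
  restr : ∀ r, φ r → φ (r.restr x)

theorem Loc.true (x : O) : Loc x fun _ => True := ⟨fun _ _ _ h => h, fun _ h => h⟩

theorem Loc.false (x : O) : Loc x fun _ => False := ⟨fun _ _ _ h => h, fun _ h => h⟩

theorem Loc.const (x : O) (A : Prop) : Loc x fun _ => A := ⟨fun _ _ _ h => h, fun _ h => h⟩

theorem Loc.and {x : O} {φ ψ : C → Prop} (h : Loc x φ) (h' : Loc x ψ) :
    Loc x fun r => φ r ∧ ψ r :=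
  ⟨fun r s hs g => ⟨h.mono r s hs g.1, h'.mono r s hs g.2⟩,
    fun r g => ⟨h.restr r g.1, h'.restr r g.2⟩⟩

theorem Loc.or {x : O} {φ ψ : C → Prop} (h : Loc x φ) (h' : Loc x ψ) :
    Loc x fun r => φ r ∨ ψ r :=
  ⟨fun r s hs g => g.imp (h.mono r s hs) (h'.mono r s hs),
    fun r g => g.imp (h.restr r) (h'.restr r)⟩

theorem Loc.ex {x : O} {ι : Sort*} {φ : ι → C → Prop} (h : ∀ i, Loc x (φ i)) :
    Loc x fun r => ∃ i, φ i r :=
  ⟨fun r s hs ⟨i, g⟩ => ⟨i, (h i).mono r s hs g⟩, fun r ⟨i, g⟩ => ⟨i, (h i).restr r g⟩⟩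

theorem loc_K {x x' : O} (h : x' ≤ x) (κ : O) (i : Bool) : Loc x fun r => K r x' κ i :=
  ⟨fun _ _ hs g => g.mono hs, fun _ g => g.restr h⟩

theorem loc_actN {x κ : O} (h : κ < x) : Loc x fun r => ActN r κ :=
  ⟨fun _ _ hs g => g.mono hs, fun _ g => g.restr h⟩

theorem loc_actB {x κ : O} (h : κ < x) : Loc x fun r => ActB r κ :=
  ⟨fun _ _ hs g => g.mono hs, fun _ g => g.restr h⟩

theorem loc_split {x a b : O} (ha : a ≤ x) (hb : b ≤ x) : Loc x fun r => Split r a b :=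
  ⟨fun _ _ hs g => g.mono hs, fun _ g => g.restr ha hb⟩

theorem loc_sd {x a : O} {b : Bool} {g : Gn} {s : Bool} (ha : a ≤ x) (hg : GLt g x) :
    Loc x fun r => Sd r (.cone a b) g s :=
  ⟨fun _ _ hs g => g.mono hs, fun _ h => h.restr ha hg⟩

/-- forced implication in the whole iteration -/
def ImpP (p : PP) (H Φ : C → Prop) : Prop := ∀ r : PP, r ≤ p → H r.1 → ∃ s : PP, s ≤ r ∧ Φ s.1

theorem imp_iff {x : O} {p : PP} {H Φ : C → Prop} (hH : Loc x H) (hΦ : Loc x Φ) :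
    Imp (fun r => Sup x r ∧ Valid r) (p.1.restr x) H Φ ↔ ImpP p H Φ := by
  constructor
  · intro h r hr hHr
    obtain ⟨s, hs1, hs2, hs3⟩ := h (r.1.restr x) ⟨sup_restr _ _, r.2.restr x⟩ (restr_mono hr x)
      (hH.restr _ hHr)
    obtain ⟨t, t1, t2, -, -⟩ := amalg r ⟨s, hs1.2⟩ x hs1.1 hs2
    exact ⟨t, t2, hΦ.mono _ _ t1 hs3⟩
  · intro h r hr hrp hHr
    obtain ⟨t, t1, t2, t3, -⟩ := amalg p ⟨r, hr.2⟩ x hr.1 hrp
    obtain ⟨s, hs, hs'⟩ := h t t2 (hH.mono _ _ t1 hHr)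
    exact ⟨s.1.restr x, ⟨sup_restr _ _, s.2.restr x⟩, restr_le_of_sup (hs.trans t1) hr.1,
      hΦ.restr _ hs'⟩

/-- `p` forces the property `φ` of raw conditions -/
def Fc (p : PP) (φ : C → Prop) : Prop := ∀ r : PP, r ≤ p → ∃ s : PP, s ≤ r ∧ φ s.1

theorem Fc.mono {p q : PP} {φ : C → Prop} (h : Fc p φ) (hq : q ≤ p) : Fc q φ :=
  fun r hr => h r (hr.trans hq)

theorem Fc.of_dn {p : PP} {φ : C → Prop} (h : ∀ r ≤ p, ∃ s ≤ r, Fc s φ) : Fc p φ := fun r hr => by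
  obtain ⟨s, hs, h1⟩ := h r hr
  obtain ⟨t, ht, h2⟩ := h1 s le_rfl
  exact ⟨t, ht.trans hs, h2⟩

theorem fc_iff {x : O} {p : PP} {Φ : C → Prop} (hΦ : Loc x Φ) :
    Imp (fun r => Sup x r ∧ Valid r) (p.1.restr x) (fun _ => True) Φ ↔ Fc p Φ :=
  (imp_iff (Loc.true x) hΦ).trans ⟨fun h r hr => h r hr trivial, fun h r hr _ => h r hr⟩

theorem ImpP.restr {x : O} {p : PP} {H Φ : C → Prop} (hH : Loc x H) (hΦ : Loc x Φ)
    (h : ImpP p H Φ) : ImpP (p.restr x) H Φ := by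
  rw [← imp_iff hH hΦ] at h ⊢
  have e : (p.restr x).1.restr x = p.1.restr x := restr_restr le_rfl
  rwa [e]

theorem Fc.restr {x : O} {p : PP} {Φ : C → Prop} (hΦ : Loc x Φ) (h : Fc p Φ) :
    Fc (p.restr x) Φ := fun r hr =>
  ImpP.restr (Loc.true x) hΦ (fun r hr _ => h r hr) r hr trivial

/-- a family of monotone properties forced to describe a path -/
structure IsPath (F : PP → O → Bool → Prop) (p : PP) : Prop where
  mono : ∀ r s κ i, s ≤ r → F r κ i → F s κ i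
  act : ∀ r ≤ p, ∀ κ i, F r κ i → ∃ s ≤ r, ActN s.1 κ
  fn : ∀ r ≤ p, ∀ κ, F r κ true → F r κ false → False
  down : ∀ r ≤ p, ∀ κ i μ m, F r κ i → K r.1 κ μ m → ∃ s ≤ r, F s μ m
  lin : ∀ r ≤ p, ∀ κ i μ m, μ < κ → F r κ i → F r μ m → ∃ s ≤ r, K s.1 κ μ m

theorem IsPath.le {F : PP → O → Bool → Prop} {p q : PP} (h : IsPath F p) (hq : q ≤ p) :
    IsPath F q :=
  ⟨h.mono, fun r hr => h.act r (hr.trans hq), fun r hr => h.fn r (hr.trans hq),
    fun r hr => h.down r (hr.trans hq), fun r hr => h.lin r (hr.trans hq)⟩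

theorem IsPath.eq {F : PP → O → Bool → Prop} {p r : PP} (h : IsPath F p) (hr : r ≤ p) {κ : O}
    {i j : Bool} (h1 : F r κ i) (h2 : F r κ j) : i = j := by
  cases i <;> cases j
  · rfl
  · exact (h.fn r hr κ h2 h1).elim
  · exact (h.fn r hr κ h1 h2).elim
  · rfl

theorem IsPath.not_both {F : PP → O → Bool → Prop} {p r : PP} (h : IsPath F p) (hr : r ≤ p) {κ : O}
    {i : Bool} (h1 : F r κ i) (h2 : F r κ (!i)) : False := by
  have := h.eq hr h1 h2
  cases i <;> simp at this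

/-- the path is forced to be uncountable -/
def Unc (F : PP → O → Bool → Prop) (p : PP) : Prop :=
  ∀ T : Set O, T.Countable → ∀ r ≤ p, ∃ s ≤ r, ∃ κ i, κ ∉ T ∧ F s κ i

/-- the object coded at `x` is forced to be a new path of the right kind -/
structure Proper (x : O) (p : PP) : Prop where
  path : IsPath (fun r => K r.1 x) p
  cnt : kind x = true → (Dm x).Countable
  newN : kind x = true → ∀ κ < x, ∀ r ≤ p, ActN r.1 κ →
    ∃ s ≤ r, (∃ i, K s.1 x κ i) ∨ Split s.1 x κ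
  unc : kind x = false → Unc (fun r => K r.1 x) p
  newB : kind x = false → ∀ j < x, ∀ r ≤ p, ActB r.1 j → ∃ s ≤ r, Split s.1 x j

theorem Proper.le {x : O} {p q : PP} (h : Proper x p) (hq : q ≤ p) : Proper x q :=
  ⟨h.path.le hq, h.cnt, fun hk κ hκ r hr => h.newN hk κ hκ r (hr.trans hq),
    fun hk T hT r hr => h.unc hk T hT r (hr.trans hq),
    fun hk κ hκ r hr => h.newB hk κ hκ r (hr.trans hq)⟩

theorem loc_aux1 (x κ : O) : Loc x fun r => ActN r κ ∧ κ < x :=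
  ⟨fun _ _ hs g => ⟨g.1.mono hs, g.2⟩, fun _ g => ⟨g.1.restr g.2, g.2⟩⟩

theorem loc_aux2 (x κ μ : O) (i m : Bool) : Loc x fun r => K r x κ i ∧ K r κ μ m :=
  ⟨fun _ _ hs g => ⟨g.1.mono hs, g.2.mono hs⟩,
    fun _ g => ⟨g.1.restr le_rfl, g.2.restr g.1.lt.le⟩⟩

theorem loc_aux3 (x κ μ : O) (m : Bool) : Loc x fun r => K r κ μ m ∧ κ < x :=
  ⟨fun _ _ hs g => ⟨g.1.mono hs, g.2⟩, fun _ g => ⟨g.1.restr g.2.le, g.2⟩⟩

theorem proper_iff {x : O} {p : PP} :
    ProperV (fun r => Sup x r ∧ Valid r) x (p.1.restr x) ↔ Proper x p := by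
  have lK := fun κ i => loc_K (le_refl x) κ i
  constructor
  · intro h
    refine ⟨⟨fun _ _ _ _ hs g => g.mono hs, fun r hr κ i g => ?_, fun r hr κ g1 g2 => ?_,
      fun r hr κ i μ m g1 g2 => ?_, fun r hr κ i μ m hl g1 g2 => ?_⟩, h.cnt,
      fun hk κ hκ r hr g => ?_, fun hk T hT r hr => ?_, fun hk j hj r hr g => ?_⟩
    · obtain ⟨s, hs, g'⟩ := (imp_iff (lK κ i) (loc_aux1 x κ)).1 (h.act κ i) r hr g
      exact ⟨s, hs, g'.1⟩
    · obtain ⟨s, -, g'⟩ := (imp_iff ((lK κ true).and (lK κ false)) (Loc.false x)).1 (h.fn κ) r hr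
        ⟨g1, g2⟩
      exact g'
    · exact (imp_iff (loc_aux2 x κ μ i m) (lK μ m)).1 (h.down κ i μ m) r hr ⟨g1, g2⟩
    · obtain ⟨s, hs, g'⟩ := (imp_iff ((lK κ i).and (lK μ m)) (loc_aux3 x κ μ m)).1
        (h.lin κ i μ m hl) r hr ⟨g1, g2⟩
      exact ⟨s, hs, g'.1⟩
    · exact (imp_iff (loc_actN hκ) ((Loc.ex fun i => lK κ i).or (loc_split le_rfl hκ.le))).1
        (h.newN hk κ hκ) r hr g
    · exact (fc_iff (Loc.ex fun κ => Loc.ex fun i => (Loc.const x (κ ∉ T)).and (lK κ i))).1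
        (h.unc hk T hT) r hr
    · exact (imp_iff (loc_actB hj) (loc_split le_rfl hj.le)).1 (h.newB hk j hj) r hr g
  · intro h
    refine ⟨fun κ i => (imp_iff (lK κ i) (loc_aux1 x κ)).2 fun r hr g => ?_,
      fun κ => (imp_iff ((lK κ true).and (lK κ false)) (Loc.false x)).2 fun r hr g => ?_,
      fun κ i μ m => (imp_iff (loc_aux2 x κ μ i m) (lK μ m)).2 fun r hr g => ?_,
      fun κ i μ m hl => (imp_iff ((lK κ i).and (lK μ m)) (loc_aux3 x κ μ m)).2 fun r hr g => ?_,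
      h.cnt, fun hk κ hκ => (imp_iff (loc_actN hκ)
        ((Loc.ex fun i => lK κ i).or (loc_split le_rfl hκ.le))).2 fun r hr g => ?_,
      fun hk T hT => (fc_iff
        (Loc.ex fun κ => Loc.ex fun i => (Loc.const x (κ ∉ T)).and (lK κ i))).2 fun r hr => ?_,
      fun hk j hj => (imp_iff (loc_actB hj) (loc_split le_rfl hj.le)).2 fun r hr g => ?_⟩
    · obtain ⟨s, hs, g'⟩ := h.path.act r hr κ i g
      exact ⟨s, hs, g', g.lt⟩
    · exact (h.path.fn r hr κ g.1 g.2).elim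
    · exact h.path.down r hr κ i μ m g.1 g.2
    · obtain ⟨s, hs, g'⟩ := h.path.lin r hr κ i μ m hl g.1 g.2
      exact ⟨s, hs, g', g.1.lt⟩
    · exact h.newN hk κ hκ r hr g
    · exact h.unc hk T hT r hr
    · exact h.newB hk j hj r hr g

theorem Proper.restr {x : O} {p : PP} (h : Proper x p) : Proper x (p.restr x) := by
  rw [← proper_iff] at h ⊢
  have e : (p.restr x).1.restr x = p.1.restr x := restr_restr le_rfl
  rwa [e]

/-- the value `y` is allowed at the stage `x` -/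
structure POk (x : O) (p : PP) (y : Y) : Prop where
  proper : Proper x p
  nocol : kind x = true → y.2 = ∅
  noent : kind x = false → y.1 = []
  entN : ∀ e ∈ y.1, ∀ n, e.1.1 = .inl n → e.1.2 = true
  entO : ∀ e ∈ y.1, ∀ z, e.1.1 = .inr z → Fc p fun r => K r x z (!e.1.2)
  col : ∀ c ∈ y.2, Fc p fun r => K r x c.1 c.2.1
  sep : ∀ c ∈ y.2, ∀ c' ∈ y.2, c.1 < c'.1 → c.2.2 = c'.2.2 →
    Fc p fun r => Sd r (.cone c.1 (!c.2.1)) (.inr c'.1) c'.2.1

theorem POk.le {x : O} {p q : PP} {y : Y} (h : POk x p y) (hq : q ≤ p) : POk x q y :=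
  ⟨h.proper.le hq, h.nocol, h.noent, h.entN, fun e he z hz => (h.entO e he z hz).mono hq,
    fun c hc => (h.col c hc).mono hq, fun c hc c' hc' h1 h2 => (h.sep c hc c' hc' h1 h2).mono hq⟩

theorem Fc.K_lt {p : PP} {x κ : O} {i : Bool} (h : Fc p fun r => K r x κ i) : κ < x := by
  obtain ⟨s, -, hs⟩ := h p le_rfl
  exact hs.lt

theorem ok_iff {x : O} {p : PP} {y : Y} : Ok x (p.1.restr x) y ↔ POk x p y := by
  rw [ok_eq]
  constructor
  · intro h
    have hc : ∀ c ∈ y.2, Fc p fun r => K r x c.1 c.2.1 := fun c hc =>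
      (fc_iff (loc_K le_rfl _ _)).1 (h.col c hc)
    refine ⟨proper_iff.1 h.proper, h.nocol, h.noent, h.entN,
      fun e he z hz => (fc_iff (loc_K le_rfl _ _)).1 (h.entO e he z hz), hc,
      fun c hc1 c' hc' h1 h2 => ?_⟩
    have h3 := (hc c' hc').K_lt
    exact (fc_iff (loc_sd (g := .inr c'.1) (h1.trans h3).le h3)).1 (h.sep c hc1 c' hc' h1 h2 h3)
  · intro h
    exact ⟨proper_iff.2 h.proper, h.nocol, h.noent, h.entN,
      fun e he z hz => (fc_iff (loc_K le_rfl _ _)).2 (h.entO e he z hz),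
      fun c hc => (fc_iff (loc_K le_rfl _ _)).2 (h.col c hc),
      fun c hc c' hc' h1 h2 h3 => (fc_iff (loc_sd (g := .inr c'.1) (h1.trans h3).le h3)).2
        (h.sep c hc c' hc' h1 h2)⟩

theorem PP.ok (p : PP) {x : O} {y : Y} (h : p.1.f x = some y) : POk x p y :=
  ok_iff.1 (p.2 x y h)

theorem POk.restr {x : O} {p : PP} {y : Y} (h : POk x p y) : POk x (p.restr x) y := by
  rw [← ok_iff] at h ⊢
  have e : (p.restr x).1.restr x = p.1.restr x := restr_restr le_rfl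
  rwa [e]

theorem PP.proper (p : PP) {x : O} (h : p.1.f x ≠ none) : Proper x p := by
  obtain ⟨y, hy⟩ := Option.ne_none_iff_exists'.1 h
  exact (p.ok hy).proper

/-- changing one value -/
theorem PP.update (p : PP) (x : O) (y' : Y) (hle : ∀ y, p.1.f x = some y → YLe y' y)
    (h : POk x p y') : ∃ s : PP, s ≤ p ∧ s.1.f x = some y' ∧ ∀ γ, γ ≠ x → s.1.f γ = p.1.f γ := by
  classical
  let s : C := ⟨Function.update p.1.f x (some y'), (p.1.fin.insert x).subset fun γ hγ => by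
    by_cases e : γ = x
    · exact Or.inl e
    · exact Or.inr (by simpa [Function.update_of_ne e] using hγ)⟩
  have e1 : s.f x = some y' := Function.update_self ..
  have e2 : ∀ γ, γ ≠ x → s.f γ = p.1.f γ := fun γ e => Function.update_of_ne e ..
  have l : s ≤ p.1 := fun γ y hy => by
    by_cases e : γ = x
    · subst e; exact ⟨y', e1, hle y hy⟩
    · exact ⟨y, by rw [e2 γ e, hy], YLe.refl y⟩
  refine ⟨⟨s, fun ι y hy => ?_⟩, l, e1, e2⟩
  by_cases e : ι = x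
  · subst e
    obtain rfl : y' = y := Option.some.inj (e1.symm.trans hy)
    exact (ok_iff.2 h).mono (MP_63de32_gt.restr_mono l ι)
  · exact (p.2 ι y (by rw [← e2 ι e, hy])).mono (MP_63de32_gt.restr_mono l ι)

theorem Proper.of_dn {x : O} {p : PP} (h : ∀ r ≤ p, ∃ s ≤ r, Proper x s) : Proper x p := by
  refine ⟨⟨fun _ _ _ _ hs g => g.mono hs, fun r hr κ i g => ?_, fun r hr κ g1 g2 => ?_,
    fun r hr κ i μ m g1 g2 => ?_, fun r hr κ i μ m hl g1 g2 => ?_⟩, fun hk => ?_,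
    fun hk κ hκ r hr g => ?_, fun hk T hT r hr => ?_, fun hk j hj r hr g => ?_⟩
  · obtain ⟨s, hs, h1⟩ := h r hr
    obtain ⟨t, ht, h2⟩ := h1.path.act s le_rfl κ i (g.mono hs)
    exact ⟨t, ht.trans hs, h2⟩
  · obtain ⟨s, hs, h1⟩ := h r hr
    exact h1.path.fn s le_rfl κ (g1.mono hs) (g2.mono hs)
  · obtain ⟨s, hs, h1⟩ := h r hr
    obtain ⟨t, ht, h2⟩ := h1.path.down s le_rfl κ i μ m (g1.mono hs) (g2.mono hs)
    exact ⟨t, ht.trans hs, h2⟩
  · obtain ⟨s, hs, h1⟩ := h r hr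
    obtain ⟨t, ht, h2⟩ := h1.path.lin s le_rfl κ i μ m hl (g1.mono hs) (g2.mono hs)
    exact ⟨t, ht.trans hs, h2⟩
  · obtain ⟨s, -, h1⟩ := h p le_rfl
    exact h1.cnt hk
  · obtain ⟨s, hs, h1⟩ := h r hr
    obtain ⟨t, ht, h2⟩ := h1.newN hk κ hκ s le_rfl (g.mono hs)
    exact ⟨t, ht.trans hs, h2⟩
  · obtain ⟨s, hs, h1⟩ := h r hr
    obtain ⟨t, ht, h2⟩ := h1.unc hk T hT s le_rfl
    exact ⟨t, ht.trans hs, h2⟩
  · obtain ⟨s, hs, h1⟩ := h r hr
    obtain ⟨t, ht, h2⟩ := h1.newB hk j hj s le_rfl (g.mono hs)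
    exact ⟨t, ht.trans hs, h2⟩

/-- activating a stage -/
theorem Proper.activate {x : O} {p : PP} (h : Proper x p) :
    ∃ s : PP, s ≤ p ∧ s.1.f x ≠ none ∧ ∀ γ, γ ≠ x → s.1.f γ = p.1.f γ := by
  by_cases hx : p.1.f x = none
  · obtain ⟨s, hs, h1, h2⟩ := p.update x ([], ∅) (fun y hy => by simp [hx] at hy)
      ⟨h, fun _ => rfl, fun _ => rfl, by simp, by simp, by simp, by simp⟩
    exact ⟨s, hs, by simp [h1], h2⟩
  · exact ⟨p, le_rfl, hx, fun _ _ => rfl⟩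

end Pool.Agent.P.MP_63de32_gt
end

-- part Pool.Agent.P.MP_63de32_gt.Tree
section

set_option autoImplicit false

/-! Paths, consistency and totality of the side relation, neighbourhood codes. -/

open Pool.Agent.Lib.PosetForcing

namespace Pool.Agent.P.MP_63de32_gt

theorem fin_dn {ι : Type*} {S : Set ι} (hS : S.Finite) {Φ : ι → PP → Prop} {p : PP}
    (hm : ∀ d r s, s ≤ r → Φ d r → Φ d s) (h : ∀ d ∈ S, ∀ r ≤ p, ∃ s ≤ r, Φ d s) :
    ∃ s ≤ p, ∀ d ∈ S, Φ d s := by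
  induction S, hS using Set.Finite.induction_on with
  | empty => exact ⟨p, le_rfl, by simp⟩
  | @insert a S _ _ ih =>
    obtain ⟨s, hs, h1⟩ := ih fun d hd => h d (Or.inr hd)
    obtain ⟨t, ht, h2⟩ := h a (Or.inl rfl) s hs
    refine ⟨t, ht.trans hs, ?_⟩
    rintro d (rfl | hd)
    · exact h2
    · exact hm d s t ht (h1 d hd)

theorem Fc.of {p : PP} {φ : C → Prop} (hm : ∀ r s : C, s ≤ r → φ r → φ s) (h : φ p.1) : Fc p φ :=
  fun r hr => ⟨r, le_rfl, hm _ _ hr h⟩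

theorem fc_K {p : PP} {x κ : O} {i : Bool} (h : K p.1 x κ i) : Fc p fun r => K r x κ i :=
  Fc.of (fun _ _ hs g => g.mono hs) h

theorem fc_sd {p : PP} {z : Pt} {g : Gn} {i : Bool} (h : Sd p.1 z g i) :
    Fc p fun r => Sd r z g i := Fc.of (fun _ _ hs g => g.mono hs) h

theorem fc_actN {p : PP} {x : O} (h : ActN p.1 x) : Fc p fun r => ActN r x :=
  Fc.of (fun _ _ hs g => g.mono hs) h

theorem Fc.proper {p : PP} {x : O} (h : Fc p fun r => ActN r x) : Proper x p :=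
  Proper.of_dn fun r hr => by
    obtain ⟨s, hs, h1⟩ := h r hr
    exact ⟨s, hs, s.proper h1.2⟩

theorem Fc.kind {p : PP} {x : O} (h : Fc p fun r => ActN r x) : kind x = true := by
  obtain ⟨s, -, h1⟩ := h p le_rfl
  exact h1.1

theorem IsPath.fc_act {F : PP → O → Bool → Prop} {p r : PP} (h : IsPath F p) (hr : r ≤ p) {κ : O}
    {i : Bool} (h1 : F r κ i) : Fc r fun s => ActN s κ := fun s hs =>
  h.act s (hs.trans hr) κ i (h.mono _ _ _ _ hs h1)

theorem IsPath.cnt {F : PP → O → Bool → Prop} {p r : PP} (h : IsPath F p) (hr : r ≤ p) {κ : O}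
    {i : Bool} (h1 : F r κ i) : (Dm κ).Countable :=
  (h.fc_act hr h1).proper.cnt (h.fc_act hr h1).kind

/-- the path of `z` is forced to be a path -/
def Pth (z : Pt) (p : PP) : Prop := IsPath (fun r => KP r.1 z) p

theorem Pth.le {z : Pt} {p q : PP} (h : Pth z p) (hq : q ≤ p) : Pth z q := IsPath.le h hq

theorem pth_nat (n : ℕ) (p : PP) : Pth (.nat n) p :=
  ⟨fun _ _ _ _ _ h => h, fun _ _ _ _ h => h.elim, fun _ _ _ h => h.elim,
    fun _ _ _ _ _ _ h => h.elim, fun _ _ _ _ _ _ _ h => h.elim⟩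

theorem pth_br {j : O} {p : PP} (h : Proper j p) : Pth (.br j) p := h.path

theorem pth_cone {x : O} {p : PP} (h : Fc p fun r => ActN r x) (b : Bool) : Pth (.cone x b) p := by
  have hp := h.proper.path
  refine ⟨fun _ _ _ _ hs g => KP.mono g hs, ?_, ?_, ?_, ?_⟩
  · rintro r hr κ i (g | ⟨rfl, -⟩)
    · exact hp.act r hr κ i g
    · exact h r hr
  · rintro r hr κ (g1 | ⟨rfl, g1⟩) (g2 | ⟨g2, g3⟩)
    · exact hp.fn r hr κ g1 g2
    · exact absurd g1.lt (by simp [g2])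
    · exact absurd g2.lt (lt_irrefl _)
    · simp [← g1] at g3
  · rintro r hr κ i μ m (g1 | ⟨rfl, -⟩) g2
    · obtain ⟨s, hs, g⟩ := hp.down r hr κ i μ m g1 g2
      exact ⟨s, hs, Or.inl g⟩
    · exact ⟨r, le_rfl, Or.inl g2⟩
  · rintro r hr κ i μ m hl (g1 | ⟨rfl, -⟩) (g2 | ⟨g2, -⟩)
    · exact hp.lin r hr κ i μ m hl g1 g2
    · exact absurd (hl.trans g1.lt) (by simp [g2])
    · exact ⟨r, le_rfl, g2⟩
    · exact absurd hl (by simp [g2])

theorem PP.entry_lt (p : PP) {x : O} {y : Y} (h : p.1.f x = some y) {e : Ent} (he : e ∈ y.1) :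
    GLt e.1.1 x := by
  rcases hg : e.1.1 with n | z
  · trivial
  · exact ((p.ok h).entO e he z hg).K_lt

theorem sd_inl {p : C} {z : Pt} {n : ℕ} {s : Bool} (h : Sd p z (.inl n) s) :
    (s = true ↔ z = .nat n) := by
  cases h with
  | natT _ h => simp [h]
  | natF _ h => simp [h]

theorem sd_inr {p : C} {z : Pt} {x : O} {s : Bool} (h : Sd p z (.inr x) s) :
    KP p z x s ∨ ∃ y l e, p.f x = some y ∧ l ++ [e] <+: y.1 ∧ Sd p z e.1.1 e.1.2 ∧
      (∀ d ∈ l, Sd p z d.1.1 (!d.1.2)) ∧ e.2 = s := by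
  cases h with
  | on _ _ h => exact Or.inl h
  | fe _ y l e h1 h2 _ _ h5 h6 => exact Or.inr ⟨y, l, e, h1, h2, h5, h6, rfl⟩

theorem PP.sd_fe (p : PP) {z : Pt} {x : O} {y : Y} {l : List Ent} {e : Ent}
    (h1 : p.1.f x = some y) (h2 : l ++ [e] <+: y.1) (h3 : Sd p.1 z e.1.1 e.1.2)
    (h4 : ∀ d ∈ l, Sd p.1 z d.1.1 (!d.1.2)) : Sd p.1 z (.inr x) e.2 :=
  .fe x y l e h1 h2 (p.entry_lt h1 (h2.subset (by simp)))
    (fun _ hd => p.entry_lt h1 (h2.subset (by simp [hd]))) h3 h4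

theorem sd_cons_inl {p : C} {z : Pt} {n : ℕ} {s : Bool} (h : Sd p z (.inl n) s)
    (h' : Sd p z (.inl n) (!s)) : False := by
  have h1 := sd_inl h
  have h2 := sd_inl h'
  cases s <;> simp_all

theorem sd_cons_inr {z : Pt} (x : O) : ∀ p : PP, Pth z p → ∀ s, Sd p.1 z (.inr x) s →
    Sd p.1 z (.inr x) (!s) → False := by
  induction x using WellFoundedLT.induction with
  | ind x ih =>
    have ih' : ∀ g, GLt g x → ∀ p : PP, Pth z p → ∀ s, Sd p.1 z g s → Sd p.1 z g (!s) → False := by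
      rintro (n | w) hg p hp s h1 h2
      · exact sd_cons_inl h1 h2
      · exact ih w hg p hp s h1 h2
    have key : ∀ p : PP, Pth z p → ∀ s y e, KP p.1 z x s → p.1.f x = some y → e ∈ y.1 →
        Sd p.1 z e.1.1 e.1.2 → False := by
      intro p hp s y e h1 h2 h3 h4
      rcases hg : e.1.1 with n | w
      · rw [hg, (p.ok h2).entN e h3 n hg] at h4
        rw [(sd_inl h4).1 rfl] at h1
        exact h1
      · obtain ⟨r, hr, h5⟩ := (p.ok h2).entO e h3 w hg p le_rfl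
        obtain ⟨t, ht, h6⟩ := hp.down r hr x s w _ (h1.mono hr) h5
        rw [hg] at h4
        exact ih w h5.lt t (hp.le (ht.trans hr)) _ (h4.mono (ht.trans hr)) (.on _ _ h6)
    intro p hp s h1 h2
    rcases sd_inr h1 with h1 | ⟨y, l, e, a1, a2, a3, a4, a5⟩
    · rcases sd_inr h2 with h2 | ⟨y, l, e, a1, a2, a3, -, -⟩
      · exact IsPath.not_both hp le_rfl h1 h2
      · exact key p hp s y e h1 a1 (a2.subset (by simp)) a3
    · rcases sd_inr h2 with h2 | ⟨y', l', e', b1, b2, b3, b4, b5⟩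
      · exact key p hp _ y e h2 a1 (a2.subset (by simp)) a3
      · obtain rfl : y = y' := Option.some.inj (a1.symm.trans b1)
        have hne : e ≠ e' := fun h => by rw [h, b5] at a5; cases s <;> simp at a5
        have hm : ∀ {l l' : List Ent} {e e' : Ent}, l ++ [e] <+: l' ++ [e'] → e ≠ e' → e ∈ l' := by
          intro l l' e e' h hne
          rcases List.prefix_concat_iff.1 h with h | h
          · exact absurd (List.append_inj_right' h rfl) (by simpa using hne)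
          · exact h.subset (by simp)
        rcases List.prefix_or_prefix_of_prefix a2 b2 with h | h
        · exact ih' _ (p.entry_lt a1 (a2.subset (by simp))) p hp _ a3 (b4 e (hm h hne))
        · exact ih' _ (p.entry_lt a1 (b2.subset (by simp))) p hp _ b3 (a4 e' (hm h hne.symm))

theorem Pth.cons {z : Pt} {p : PP} (hp : Pth z p) {g : Gn} {s : Bool} (h1 : Sd p.1 z g s)
    (h2 : Sd p.1 z g (!s)) : False := by
  rcases g with n | w
  · exact sd_cons_inl h1 h2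
  · exact sd_cons_inr w p hp s h1 h2

theorem Pth.fc_eq {z : Pt} {p : PP} (hp : Pth z p) {g : Gn} {s s' : Bool}
    (h1 : Fc p fun r => Sd r z g s) (h2 : Fc p fun r => Sd r z g s') : s = s' := by
  obtain ⟨r, hr, g1⟩ := h1 p le_rfl
  obtain ⟨t, ht, g2⟩ := h2 r hr
  by_contra hne
  obtain rfl : s' = !s := by cases s <;> cases s' <;> simp_all
  exact (hp.le (ht.trans hr)).cons (g1.mono ht) g2

theorem Split.symm {p : C} {x x' : O} (h : Split p x x') : Split p x' x := by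
  obtain ⟨μ, m, h1, h2⟩ := h
  exact ⟨μ, !m, h2, by simpa using h1⟩

theorem node_cmp {r : PP} {κ μ : O} (h1 : Fc r fun s => ActN s κ) (h2 : Fc r fun s => ActN s μ) :
    ∃ s ≤ r, κ = μ ∨ (∃ i, K s.1 κ μ i) ∨ (∃ i, K s.1 μ κ i) ∨ Split s.1 κ μ := by
  rcases lt_trichotomy κ μ with h | h | h
  · obtain ⟨s, hs, g⟩ := h1 r le_rfl
    obtain ⟨t, ht, g'⟩ := h2.proper.newN h2.kind κ h s hs g
    exact ⟨t, ht.trans hs, Or.inr (Or.inr (g'.imp id Split.symm))⟩
  · exact ⟨r, le_rfl, Or.inl h⟩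
  · obtain ⟨s, hs, g⟩ := h2 r le_rfl
    obtain ⟨t, ht, g'⟩ := h1.proper.newN h1.kind μ h s hs g
    exact ⟨t, ht.trans hs, Or.inr (g'.imp id Or.inr)⟩

/-- a path containing a node outside `Dm μ` passes through `μ` or splits from its path -/
theorem IsPath.cmp {F : PP → O → Bool → Prop} {p r : PP} (h : IsPath F p) (hr : r ≤ p) {κ μ : O}
    {i : Bool} (h1 : F r κ i) (hκ : κ ∉ Dm μ) (h2 : Fc r fun s => ActN s μ) :
    ∃ s ≤ r, (∃ i, F s μ i) ∨ ∃ ν m, K s.1 μ ν m ∧ F s ν (!m) := by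
  obtain ⟨s, hs, g⟩ := node_cmp (h.fc_act hr h1) h2
  rcases g with rfl | ⟨m, g⟩ | ⟨m, g⟩ | ⟨ν, m, g1, g2⟩
  · exact ⟨r, le_rfl, Or.inl ⟨i, h1⟩⟩
  · obtain ⟨t, ht, g'⟩ := h.down s (hs.trans hr) κ i μ m (h.mono _ _ _ _ hs h1) g
    exact ⟨t, ht.trans hs, Or.inl ⟨m, g'⟩⟩
  · exact absurd g.mem hκ
  · obtain ⟨t, ht, g'⟩ := h.down s (hs.trans hr) κ i ν m (h.mono _ _ _ _ hs h1) g1
    exact ⟨t, ht.trans hs, Or.inr ⟨ν, !m, g2.mono ht, by simpa using g'⟩⟩

theorem IsPath.cmp_unc {F : PP → O → Bool → Prop} {p r : PP} (h : IsPath F p) (hu : Unc F p)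
    (hr : r ≤ p) {μ : O} (h2 : Fc r fun s => ActN s μ) :
    ∃ s ≤ r, (∃ i, F s μ i) ∨ ∃ ν m, K s.1 μ ν m ∧ F s ν (!m) := by
  obtain ⟨s, hs, κ, i, hκ, g⟩ := hu (Dm μ) (h2.proper.cnt h2.kind) r hr
  obtain ⟨t, ht, g'⟩ := h.cmp (hs.trans hr) g hκ (h2.mono hs)
  exact ⟨t, ht.trans hs, g'⟩

/-- `z` is known to be comparable with the node `x` -/
def Cp (p : C) (z : Pt) (x : O) : Prop :=
  (∃ n, z = .nat n) ∨ (∃ s, KP p z x s) ∨ ∃ μ m, K p x μ m ∧ KP p z μ (!m)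

theorem Cp.mono {p q : C} {z : Pt} {x : O} (h : Cp p z x) (hq : q ≤ p) : Cp q z x := by
  rcases h with h | ⟨s, h⟩ | ⟨μ, m, h1, h2⟩
  · exact Or.inl h
  · exact Or.inr (Or.inl ⟨s, h.mono hq⟩)
  · exact Or.inr (Or.inr ⟨μ, m, h1.mono hq, h2.mono hq⟩)

theorem first_entry {z : Pt} {x : O} {p : PP} {y : Y} (hy : p.1.f x = some y) (l : List Ent)
    (hl : l <+: y.1) (hd : ∀ d ∈ l, ∀ r ≤ p, ∃ s ≤ r, ∃ b, Sd s.1 z d.1.1 b) :
    ∃ s ≤ p, (∀ d ∈ l, Sd s.1 z d.1.1 (!d.1.2)) ∨ ∃ e ∈ l, Sd s.1 z (.inr x) e.2 := by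
  induction l using List.reverseRecOn with
  | nil => exact ⟨p, le_rfl, Or.inl (by simp)⟩
  | append_singleton l e ih =>
    obtain ⟨s, hs, h⟩ := ih ((List.prefix_append _ _).trans hl) fun d h => hd d (by simp [h])
    rcases h with h | ⟨e', h1, h2⟩
    · obtain ⟨t, ht, b, hb⟩ := hd e (by simp) s hs
      by_cases hbe : b = e.1.2
      · obtain ⟨y', g1, g2⟩ := (ht.trans hs) x y hy
        exact ⟨t, ht.trans hs, Or.inr ⟨e, by simp, t.sd_fe g1 (hl.trans g2.1) (hbe ▸ hb)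
          fun d hd => (h d hd).mono ht⟩⟩
      · refine ⟨t, ht.trans hs, Or.inl fun d hd => ?_⟩
        rcases List.mem_append.1 hd with hd | hd
        · exact (h d hd).mono ht
        · obtain rfl : d = e := by simpa using hd
          obtain rfl : b = !d.1.2 := by cases b <;> cases h : d.1.2 <;> simp_all
          exact hb
    · exact ⟨s, hs, Or.inr ⟨e', by simp [h1], h2⟩⟩

theorem sd_nat_total (p : C) (z : Pt) (n : ℕ) : ∃ b, Sd p z (.inl n) b := by
  by_cases h : z = .nat n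
  · exact ⟨true, .natT n h⟩
  · exact ⟨false, .natF n h⟩

/-- appending an entry to the list at an active node -/
theorem PP.append (p : PP) {x : O} {y : Y} (hy : p.1.f x = some y) (hk : kind x = true) (e : Ent)
    (h1 : ∀ n, e.1.1 = .inl n → e.1.2 = true)
    (h2 : ∀ z, e.1.1 = .inr z → Fc p fun r => K r x z (!e.1.2)) :
    ∃ s : PP, s ≤ p ∧ s.1.f x = some (y.1 ++ [e], y.2) ∧ ∀ γ, γ ≠ x → s.1.f γ = p.1.f γ := by
  have ho := p.ok hy
  refine p.update x _ (fun y' hy' => ?_) ⟨ho.proper, ho.nocol, fun h => by simp [hk] at h,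
    fun d hd => ?_, fun d hd => ?_, ho.col, ho.sep⟩
  · obtain rfl : y = y' := Option.some.inj (hy.symm.trans hy')
    exact ⟨List.prefix_append _ _, subset_rfl⟩
  · rcases List.mem_append.1 hd with hd | hd
    · exact ho.entN d hd
    · obtain rfl : d = e := by simpa using hd
      exact h1
  · rcases List.mem_append.1 hd with hd | hd
    · exact ho.entO d hd
    · obtain rfl : d = e := by simpa using hd
      exact h2

theorem sd_total {z : Pt} (x : O) : ∀ p : PP, Pth z p → (Fc p fun r => ActN r x) → Cp p.1 z x →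
    ∃ s ≤ p, ∃ b, Sd s.1 z (.inr x) b := by
  induction x using WellFoundedLT.induction with
  | ind x ih =>
    intro p hp ha hc
    obtain ⟨p1, hp1, ha1⟩ := ha p le_rfl
    obtain ⟨y, hy⟩ := Option.ne_none_iff_exists'.1 ha1.2
    have main : ∀ e : Ent, (∀ n, e.1.1 = .inl n → e.1.2 = true) →
        (∀ w, e.1.1 = .inr w → Fc p1 fun r => K r x w (!e.1.2)) → Sd p1.1 z e.1.1 e.1.2 →
        (∀ w b, ∀ r ≤ p1, K r.1 x w b → ∃ s ≤ r, Cp s.1 z w) →
        ∃ s ≤ p, ∃ b, Sd s.1 z (.inr x) b := by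
      intro e e1 e2 e3 e4
      obtain ⟨q, hq, hq1, -⟩ := p1.append hy ha1.1 e e1 e2
      obtain ⟨s, hs, h⟩ := first_entry (z := z) hq1 y.1 (List.prefix_append _ _) (by
        intro d hd r hr
        rcases hg : d.1.1 with n | w
        · exact ⟨r, le_rfl, sd_nat_total _ _ _⟩
        · obtain ⟨r1, hr1, g1⟩ := (p1.ok hy).entO d hd w hg r (hr.trans hq)
          obtain ⟨r2, hr2, g2⟩ := e4 w _ r1 (hr1.trans (hr.trans hq)) g1
          have l2 := hr2.trans (hr1.trans (hr.trans hq))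
          obtain ⟨r3, hr3, g3⟩ := ih w g1.lt r2 (hp.le (l2.trans hp1))
            ((p1.ok hy).proper.path.fc_act l2 (g1.mono hr2)) g2
          exact ⟨r3, hr3.trans (hr2.trans hr1), g3⟩)
      refine ⟨s, hs.trans (hq.trans hp1), ?_⟩
      rcases h with h | ⟨e', -, h⟩
      · obtain ⟨y', g1, g2⟩ := hs x _ hq1
        exact ⟨_, s.sd_fe g1 g2.1 (e3.mono (hs.trans hq)) h⟩
      · exact ⟨_, h⟩
    rcases hc with ⟨n, rfl⟩ | ⟨s, h⟩ | ⟨μ, m, h1, h2⟩
    · exact main ((.inl n, true), true) (fun _ _ => rfl) (fun w h => by simp at h) (.natT n rfl)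
        fun w b r _ _ => ⟨r, le_rfl, Or.inl ⟨n, rfl⟩⟩
    · exact ⟨p, le_rfl, s, .on _ _ h⟩
    · refine main ((.inr μ, !m), true) (fun _ h => by simp at h) (fun w h => ?_)
        (.on _ _ (h2.mono hp1)) fun w b r hr g => ?_
      · obtain rfl : μ = w := by simpa using h
        simpa using fc_K (h1.mono hp1)
      · have hx := (p1.ok hy).proper.path
        have l1 := hr.trans hp1
        rcases lt_trichotomy μ w with h | rfl | h
        · obtain ⟨s, hs, g'⟩ := hx.lin r hr w b μ m h g (h1.mono l1)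
          exact ⟨s, hs, Or.inr (Or.inr ⟨μ, m, g', h2.mono (hs.trans l1)⟩)⟩
        · exact ⟨r, le_rfl, Or.inr (Or.inl ⟨_, h2.mono l1⟩)⟩
        · obtain ⟨s, hs, g'⟩ := hx.lin r hr μ m w b h (h1.mono l1) g
          obtain ⟨t, ht, g''⟩ := hp.down s (hs.trans l1) μ _ w b (h2.mono (hs.trans l1)) g'
          exact ⟨t, ht.trans hs, Or.inr (Or.inl ⟨_, g''⟩)⟩

/-- a cone branching off a path has a side at every node of the path -/
theorem cone_total {F : PP → O → Bool → Prop} {p r : PP} (h : IsPath F p) (hr : r ≤ p) {a g : O}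
    {i b : Bool} (h1 : F r a i) (h2 : F r g b) :
    ∃ s ≤ r, ∃ v, Sd s.1 (.cone a (!i)) (.inr g) v := by
  have hc := pth_cone (h.fc_act hr h1) (!i)
  rcases lt_trichotomy a g with hl | rfl | hl
  · obtain ⟨s, hs, g1⟩ := h.lin r hr g b a i hl h2 h1
    obtain ⟨t, ht, g2⟩ := sd_total g s (hc.le hs) ((h.fc_act hr h2).mono hs)
      (Or.inr (Or.inr ⟨a, i, g1, Or.inr ⟨rfl, rfl⟩⟩))
    exact ⟨t, ht.trans hs, g2⟩
  · exact ⟨r, le_rfl, _, .on _ _ (Or.inr ⟨rfl, rfl⟩)⟩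
  · obtain ⟨s, hs, g1⟩ := h.lin r hr a i g b hl h1 h2
    exact ⟨s, hs, _, .on _ _ (Or.inl g1)⟩

/-- `z` is known to lie in the basic set coded by `e` -/
def InB (p : C) (z : Pt) (e : Finset (Gn × Bool)) : Prop := ∀ g ∈ e, Sd p z g.1 g.2

theorem InB.mono {p q : C} {z : Pt} {e : Finset (Gn × Bool)} (h : InB p z e) (hq : q ≤ p) :
    InB q z e := fun g hg => (h g hg).mono hq

/-- a member of the canonical neighbourhood subbase of `z` -/
def GenP (p : C) (z : Pt) : Gn × Bool → Prop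
  | (.inl _, b) => b = false
  | (.inr κ, b) => KP p z κ b

theorem GenP.mono {p q : C} {z : Pt} {g : Gn × Bool} (h : GenP p z g) (hq : q ≤ p) :
    GenP q z g := by
  rcases g with ⟨n | κ, b⟩
  · exact h
  · exact KP.mono h hq

/-- `e` codes a canonical neighbourhood of `z` -/
def Nb (p : C) (z : Pt) (e : Finset (Gn × Bool)) : Prop := ∀ g ∈ e, GenP p z g

theorem Nb.mono {p q : C} {z : Pt} {e : Finset (Gn × Bool)} (h : Nb p z e) (hq : q ≤ p) :
    Nb q z e := fun g hg => (h g hg).mono hq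

theorem Nb.inB {p : C} {z : Pt} {e : Finset (Gn × Bool)} (h : Nb p z e) (hz : ∀ n, z ≠ .nat n) :
    InB p z e := by
  rintro ⟨n | κ, b⟩ hg
  · obtain rfl : b = false := h _ hg
    exact .natF n (hz n)
  · exact .on _ _ (h _ hg)

theorem nb_union {ι : Type*} {S : Set ι} (hS : S.Finite) {p : C} {z : Pt}
    {Φ : ι → C → Pt → Prop}
    (h : ∀ d ∈ S, ∃ e, Nb p z e ∧ ∀ r ≤ p, ∀ y, InB r y e → Φ d r y) :
    ∃ e, Nb p z e ∧ ∀ r ≤ p, ∀ y, InB r y e → ∀ d ∈ S, Φ d r y := by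
  classical
  induction S, hS using Set.Finite.induction_on with
  | empty => exact ⟨∅, by simp [Nb], by simp⟩
  | @insert a S _ _ ih =>
    obtain ⟨e, h1, h2⟩ := ih fun d hd => h d (Or.inr hd)
    obtain ⟨e', h3, h4⟩ := h a (Or.inl rfl)
    refine ⟨e ∪ e', fun g hg => (Finset.mem_union.1 hg).elim (h1 g) (h3 g), ?_⟩
    rintro r hr y hy d (rfl | hd)
    · exact h4 r hr y fun g hg => hy g (Finset.mem_union_right _ hg)
    · exact h2 r hr y (fun g hg => hy g (Finset.mem_union_left _ hg)) d hd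

theorem Sd.nb {p : C} {z : Pt} (hz : ∀ n, z ≠ .nat n) {g : Gn} {s : Bool} (h : Sd p z g s) :
    ∃ e, Nb p z e ∧ ∀ r ≤ p, ∀ y, InB r y e → Sd r y g s := by
  classical
  induction h with
  | natT n h => exact absurd h (hz n)
  | natF n h =>
    exact ⟨{(.inl n, false)}, by simp [Nb, GenP], fun r _ y hy => hy (.inl n, false) (by simp)⟩
  | on x s h =>
    exact ⟨{(.inr x, s)}, by simpa [Nb, GenP] using h, fun r _ y hy => hy (.inr x, s) (by simp)⟩
  | fe x y l e h1 h2 h3 h4 _ _ ih1 ih2 =>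
    obtain ⟨e1, a1, a2⟩ := ih1
    obtain ⟨e2, b1, b2⟩ := nb_union (S := {d | d ∈ l}) (List.finite_toSet l)
      (Φ := fun d r y => Sd r y d.1.1 (!d.1.2)) ih2
    refine ⟨e1 ∪ e2, fun g hg => (Finset.mem_union.1 hg).elim (a1 g) (b1 g), fun r hr w hw => ?_⟩
    obtain ⟨y', g1, g2⟩ := hr x y h1
    exact .fe x y' l e g1 (h2.trans g2.1) h3 h4
      (a2 r hr w fun g hg => hw g (Finset.mem_union_left _ hg))
      (b2 r hr w fun g hg => hw g (Finset.mem_union_right _ hg))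

theorem InB.nb {p : C} {z : Pt} (hz : ∀ n, z ≠ .nat n) {e0 : Finset (Gn × Bool)}
    (h : InB p z e0) : ∃ e, Nb p z e ∧ ∀ r ≤ p, ∀ y, InB r y e → InB r y e0 :=
  nb_union (S := (e0 : Set (Gn × Bool))) e0.finite_toSet (Φ := fun d r y => Sd r y d.1 d.2)
    fun d hd => (h d hd).nb hz

/-- a neighbourhood code of `t` is one of `z` when the path of `t` lies on the path of `z` -/
theorem Nb.transfer {p : PP} {t z : Pt} {e : Finset (Gn × Bool)} (h : Nb p.1 t e)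
    (hz : ∀ r ≤ p, ∀ κ i, KP r.1 t κ i → ∃ s ≤ r, KP s.1 z κ i) : ∃ s ≤ p, Nb s.1 z e := by
  refine fin_dn e.finite_toSet (Φ := fun g s => GenP s.1 z g) (fun _ _ _ hs g => g.mono hs) ?_
  rintro ⟨n | κ, b⟩ hg r hr
  · exact ⟨r, le_rfl, h _ hg⟩
  · exact hz r hr κ b (KP.mono (h _ hg) hr)

end Pool.Agent.P.MP_63de32_gt
end

-- part Pool.Agent.P.MP_63de32_gt.Sal
section

set_option autoImplicit false

/-! The strong amalgamation lemma. -/

open Pool.Agent.Lib.PosetForcing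

namespace Pool.Agent.P.MP_63de32_gt

/-- the list at a stage -/
def lst (p : C) (x : O) : List Ent := ((p.f x).map Prod.fst).getD []

/-- the coloured points at a stage -/
def col (p : C) (x : O) : Finset Col := ((p.f x).map Prod.snd).getD ∅

theorem lst_some {p : C} {x : O} {y : Y} (h : p.f x = some y) : lst p x = y.1 := by simp [lst, h]

theorem col_some {p : C} {x : O} {y : Y} (h : p.f x = some y) : col p x = y.2 := by simp [col, h]

theorem lst_none {p : C} {x : O} (h : p.f x = none) : lst p x = [] := by simp [lst, h]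

theorem col_none {p : C} {x : O} (h : p.f x = none) : col p x = ∅ := by simp [col, h]

theorem mem_lst {p : C} {x : O} {e : Ent} (h : e ∈ lst p x) : ∃ y, p.f x = some y ∧ e ∈ y.1 := by
  rcases hy : p.f x with _ | y
  · simp [lst_none hy] at h
  · exact ⟨y, rfl, lst_some hy ▸ h⟩

theorem mem_col {p : C} {x : O} {c : Col} (h : c ∈ col p x) : ∃ y, p.f x = some y ∧ c ∈ y.2 := by
  rcases hy : p.f x with _ | y
  · simp [col_none hy] at h
  · exact ⟨y, rfl, col_some hy ▸ h⟩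

theorem col_mono {p q : C} (h : q ≤ p) {x : O} {c : Col} (hc : c ∈ col p x) : c ∈ col q x := by
  obtain ⟨y, h1, h2⟩ := mem_col hc
  obtain ⟨y', h3, h4⟩ := h x y h1
  exact col_some h3 ▸ h4.2 h2

/-- `z` is known to lie outside all entries of the list -/
def Pass (p : C) (z : Pt) (l : List Ent) : Prop := ∀ d ∈ l, Sd p z d.1.1 (!d.1.2)

theorem Pass.mono {p q : C} {z : Pt} {l : List Ent} (h : Pass p z l) (hq : q ≤ p) : Pass q z l :=
  fun d hd => (h d hd).mono hq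

theorem fc_pass {p : PP} {z : Pt} {l : List Ent}
    (h : ∀ d ∈ l, Fc p fun r => Sd r z d.1.1 (!d.1.2)) : Fc p fun r => Pass r z l := fun _ hr =>
  fin_dn (S := {d | d ∈ l}) (List.finite_toSet l) (Φ := fun d s => Sd s.1 z d.1.1 (!d.1.2))
    (fun _ _ _ hs g => g.mono hs) fun d hd s hs => h d hd s (hs.trans hr)

/-- the points of `Λ` and the number `n0` get the prescribed sides at `h` unless caught by `l` -/
def Placed (Λ : Finset (O × Bool)) (val : O × Bool → Bool) (n0 : ℕ) (vn : Bool) (l : List Ent)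
    (h : O) (r : PP) : Prop :=
  (∀ s ≤ r, Pass s.1 (.nat n0) l → Sd s.1 (.nat n0) (.inr h) vn) ∧
    ∀ a ∈ Λ, ∀ s ≤ r, K s.1 h a.1 a.2 → Pass s.1 (.cone a.1 (!a.2)) l →
      ∃ t ≤ s, Sd t.1 (.cone a.1 (!a.2)) (.inr h) (val a)

theorem Placed.mono {Λ : Finset (O × Bool)} {val : O × Bool → Bool} {n0 : ℕ} {vn : Bool}
    {l : List Ent} {h : O} {r r' : PP} (g : Placed Λ val n0 vn l h r) (hr : r' ≤ r) :
    Placed Λ val n0 vn l h r' :=
  ⟨fun s hs => g.1 s (hs.trans hr), fun a ha s hs => g.2 a ha s (hs.trans hr)⟩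

theorem ind_max {motive : Finset (O × Bool) → Prop} (s : Finset (O × Bool)) (empty : motive ∅)
    (cons : ∀ a s (h : a ∉ s), (∀ x ∈ s, x.1 ≤ a.1) → motive s → motive (Finset.cons a s h)) :
    motive s := by
  classical
  refine Finset.induction_on_max_value (f := Prod.fst) s empty fun a s h1 h2 h3 => ?_
  rw [← Finset.cons_eq_insert a s h1]
  exact cons a s h1 h2 h3

theorem place (Λ : Finset (O × Bool)) (val : O × Bool → Bool) (n0 : ℕ) (vn : Bool) (l : List Ent)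
    (h : O) (r : PP) (hr : Sup h r.1) (hk : kind h = true) (ho : POk h r (l, ∅)) :
    ∃ r' ≤ r, (∀ γ, r'.1.f γ ≠ none → γ ≤ h) ∧ (∃ y, r'.1.f h = some y ∧ l <+: y.1) ∧
      Placed Λ val n0 vn l h r' := by
  classical
  have key : ∃ r' ≤ r, (∀ γ, r'.1.f γ ≠ none → γ ≤ h) ∧ ∃ ex : List Ent,
      r'.1.f h = some (l ++ [((.inl n0, true), vn)] ++ ex, ∅) ∧
      (∀ d ∈ ex, ∃ a ∈ Λ, d.1 = (.inr a.1, !a.2) ∧ K r'.1 h a.1 a.2) ∧
      ∀ a ∈ Λ, ∀ s ≤ r', K s.1 h a.1 a.2 → Pass s.1 (.cone a.1 (!a.2)) l →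
        ∃ t ≤ s, Sd t.1 (.cone a.1 (!a.2)) (.inr h) (val a) := by
    induction Λ using ind_max with
    | empty =>
      obtain ⟨r1, h1, h2, h3⟩ := r.update h (l, ∅) (fun y hy => by simp [hr.none le_rfl] at hy) ho
      obtain ⟨r2, g1, g2, g3⟩ := r1.append h2 hk ((.inl n0, true), vn) (fun _ _ => rfl)
        (fun z hz => by simp at hz)
      refine ⟨r2, g1.trans h1, fun γ hγ => ?_, [], by simpa using g2, by simp, by simp⟩
      by_cases e : γ = h
      · exact e.le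
      · rw [g3 γ e, h3 γ e] at hγ
        exact (hr γ hγ).le
    | cons a Λ ha hmax ih =>
      obtain ⟨r1, h1, h2, ex, h3, h4, h5⟩ := ih
      by_cases hK : ∃ s ≤ r1, K s.1 h a.1 a.2
      · obtain ⟨s, hs, hK⟩ := hK
        obtain ⟨r2, g1, g2, g3, g4⟩ := amalg r1 (s.restr h) h (s.sup_restr h)
          (PP.restr_mono hs h)
        have hK2 : K r2.1 h a.1 a.2 := (hK.restr le_rfl).mono g1
        have h3' := (g4 h le_rfl).trans h3
        obtain ⟨r3, k1, k2, k3⟩ := r2.append h3' hk ((.inr a.1, !a.2), val a)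
          (fun _ hn => by simp at hn) (fun z hz => by
            obtain rfl : a.1 = z := by simpa using hz
            simpa using fc_K hK2)
        refine ⟨r3, k1.trans (g2.trans h1), fun γ hγ => ?_, ex ++ [((.inr a.1, !a.2), val a)],
          by simpa using k2, fun d hd => ?_, fun a' ha' => ?_⟩
        · by_contra hlt
          rw [k3 γ (fun e => hlt e.le), g4 γ (not_le.1 hlt).le] at hγ
          exact hlt (h2 γ hγ)
        · rcases List.mem_append.1 hd with hd | hd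
          · obtain ⟨a', b1, b2, b3⟩ := h4 d hd
            exact ⟨a', Finset.mem_cons_of_mem b1, b2, b3.mono (k1.trans g2)⟩
          · obtain rfl : d = ((.inr a.1, !a.2), val a) := by simpa using hd
            exact ⟨a, Finset.mem_cons_self _ _, rfl, hK2.mono k1⟩
        · rcases Finset.mem_cons.1 ha' with rfl | ha'
          · intro t ht hKt hP
            have hpath := ho.proper.path
            have lt := ht.trans (k1.trans g2)
            obtain ⟨u, hu, hP'⟩ := fc_pass (p := t) (z := .cone a'.1 (!a'.2)) (l := ex) (by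
              intro d hd v hv
              obtain ⟨a'', b1, b2, b3⟩ := h4 d hd
              have b4 := b3.mono (hv.trans lt)
              rcases (hmax a'' b1).lt_or_eq with hl | hl
              · obtain ⟨w, hw, b5⟩ := hpath.lin v (hv.trans (lt.trans h1)) _ _ _ _ hl
                  (hKt.mono hv) b4
                refine ⟨w, hw, ?_⟩
                rw [b2]
                exact .on _ _ (Or.inl (by simpa using b5))
              · have := hpath.eq (hv.trans (lt.trans h1)) (hl ▸ b4) (hKt.mono hv)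
                exact absurd (Prod.ext hl this ▸ b1) ha) t le_rfl
            obtain ⟨y, c1, c2⟩ := (hu.trans ht) h _ k2
            refine ⟨u, hu, u.sd_fe (e := ((.inr a'.1, !a'.2), val a')) c1 c2.1
              (.on _ _ (Or.inr ⟨rfl, rfl⟩)) fun d hd => ?_⟩
            rcases List.mem_append.1 hd with hd | hd
            · rcases List.mem_append.1 hd with hd | hd
              · exact (hP d hd).mono hu
              · obtain rfl : d = ((.inl n0, true), vn) := by simpa using hd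
                exact .natF _ (by simp)
            · exact hP' d hd
          · exact fun t ht => h5 a' ha' t (ht.trans (k1.trans g2))
      · refine ⟨r1, h1, h2, ex, h3, fun d hd => ?_, fun a' ha' => ?_⟩
        · obtain ⟨a', b1, b2⟩ := h4 d hd
          exact ⟨a', Finset.mem_cons_of_mem b1, b2⟩
        · rcases Finset.mem_cons.1 ha' with rfl | ha'
          · exact fun t ht hKt => absurd ⟨t, ht, hKt⟩ hK
          · exact h5 a' ha'
  obtain ⟨r', h1, h2, ex, h3, -, h5⟩ := key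
  refine ⟨r', h1, h2, ⟨_, h3, by simp⟩, fun s hs hP => ?_, h5⟩
  obtain ⟨y, c1, c2⟩ := hs h _ h3
  exact s.sd_fe (e := ((.inl n0, true), vn)) c1 ((List.prefix_append _ _).trans c2.1)
    (.natT _ rfl) hP

/-- two conditions giving the same values to all entries of a list -/
theorem common_value {z : Pt} {h : O} {p q : PP} (l : List Ent)
    (hp : l ≠ [] → ∃ y, p.1.f h = some y ∧ l <+: y.1)
    (hq : l ≠ [] → ∃ y, q.1.f h = some y ∧ l <+: y.1)
    (hv : ∀ d ∈ l, ∃ v, (Fc p fun r => Sd r z d.1.1 v) ∧ Fc q fun r => Sd r z d.1.1 v) :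
    ((Fc p fun r => Pass r z l) ∧ Fc q fun r => Pass r z l) ∨
      ∃ s, (Fc p fun r => Sd r z (.inr h) s) ∧ Fc q fun r => Sd r z (.inr h) s := by
  induction l using List.reverseRecOn with
  | nil => exact Or.inl ⟨fc_pass (by simp), fc_pass (by simp)⟩
  | append_singleton l e ih =>
    obtain ⟨y, a1, a2⟩ := hp (by simp)
    obtain ⟨y', b1, b2⟩ := hq (by simp)
    rcases ih (fun _ => ⟨y, a1, (List.prefix_append _ _).trans a2⟩)
      (fun _ => ⟨y', b1, (List.prefix_append _ _).trans b2⟩) (fun d hd => hv d (by simp [hd]))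
      with ⟨h1, h2⟩ | h1
    · obtain ⟨v, v1, v2⟩ := hv e (by simp)
      by_cases hve : v = e.1.2
      · have fire : ∀ {p : PP} {y : Y}, p.1.f h = some y → l ++ [e] <+: y.1 →
            (Fc p fun r => Pass r z l) → (Fc p fun r => Sd r z e.1.1 v) →
            Fc p fun r => Sd r z (.inr h) e.2 := by
          intro p y a1 a2 h1 v1 r hr
          obtain ⟨s, hs, g1⟩ := h1 r hr
          obtain ⟨t, ht, g2⟩ := v1 s (hs.trans hr)
          obtain ⟨y', c1, c2⟩ := (ht.trans (hs.trans hr)) h y a1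
          exact ⟨t, ht.trans hs, t.sd_fe c1 (a2.trans c2.1) (hve ▸ g2) (g1.mono ht)⟩
        exact Or.inr ⟨e.2, fire a1 a2 h1 v1, fire b1 b2 h2 v2⟩
      · obtain rfl : v = !e.1.2 := by cases v <;> cases h : e.1.2 <;> simp_all
        have pass : ∀ {p : PP}, (Fc p fun r => Pass r z l) →
            (Fc p fun r => Sd r z e.1.1 (!e.1.2)) → Fc p fun r => Pass r z (l ++ [e]) := by
          intro p h1 v1 r hr
          obtain ⟨s, hs, g1⟩ := h1 r hr
          obtain ⟨t, ht, g2⟩ := v1 s (hs.trans hr)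
          refine ⟨t, ht.trans hs, fun d hd => ?_⟩
          rcases List.mem_append.1 hd with hd | hd
          · exact (g1 d hd).mono ht
          · obtain rfl : d = e := by simpa using hd
            exact g2
        exact Or.inl ⟨pass h1 v1, pass h2 v2⟩
    · exact Or.inr h1

/-- closure under possible predecessors -/
def DClosed (N : Set O) : Prop := ∀ x ∈ N, (Dm x).Countable → Dm x ⊆ N

theorem IsPath.low_lt {N : Set O} (hN : DClosed N) {F : PP → O → Bool → Prop} {p r : PP}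
    (h : IsPath F p) (hr : r ≤ p) {a b : O} {i j : Bool} (ha : a ∈ N) (hb : b ∉ N) (h1 : F r a i)
    (h2 : F r b j) : a < b := by
  rcases lt_trichotomy a b with hl | rfl | hl
  · exact hl
  · exact absurd ha hb
  · obtain ⟨s, -, g⟩ := h.lin r hr a i b j hl h1 h2
    exact absurd (hN a ha (h.cnt hr h1) g.mem) hb

theorem IsPath.fc_both {F : PP → O → Bool → Prop} {p : PP} (h : IsPath F p) {a b : O} {i j : Bool}
    (h1 : Dn (fun r => F r a i) p) (h2 : Dn (fun r => F r b j) p) {r : PP} (hr : r ≤ p) :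
    ∃ s ≤ r, F s a i ∧ F s b j := by
  obtain ⟨s, hs, g1⟩ := h1 r hr
  obtain ⟨t, ht, g2⟩ := h2 s (hs.trans hr)
  exact ⟨t, ht.trans hs, h.mono _ _ _ _ ht g1, g2⟩

theorem IsPath.fc_lin {F : PP → O → Bool → Prop} {p : PP} (h : IsPath F p) {a b : O} {i j : Bool}
    (h1 : Dn (fun r => F r a i) p) (h2 : Dn (fun r => F r b j) p) (hl : a < b) :
    Fc p fun r => K r b a i := fun r hr => by
  obtain ⟨s, hs, g1, g2⟩ := h.fc_both h1 h2 hr
  obtain ⟨t, ht, g⟩ := h.lin s (hs.trans hr) b j a i hl g2 g1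
  exact ⟨t, ht.trans hs, g⟩

theorem IsPath.fc_down {F : PP → O → Bool → Prop} {p : PP} (h : IsPath F p) {a b : O} {i j : Bool}
    (h1 : Dn (fun r => F r b j) p) (h2 : Fc p fun r => K r b a i) :
    Dn (fun r => F r a i) p := fun r hr => by
  obtain ⟨s, hs, g1⟩ := h1 r hr
  obtain ⟨t, ht, g2⟩ := h2 s (hs.trans hr)
  obtain ⟨u, hu, g⟩ := h.down t (ht.trans (hs.trans hr)) b j a i (h.mono _ _ _ _ ht g1) g2
  exact ⟨u, hu.trans (ht.trans hs), g⟩

theorem IsPath.fc_act' {F : PP → O → Bool → Prop} {p : PP} (h : IsPath F p) {a : O} {i : Bool}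
    (h1 : Dn (fun r => F r a i) p) : Fc p fun r => ActN r a := fun r hr => by
  obtain ⟨s, hs, g1⟩ := h1 r hr
  obtain ⟨t, ht, g⟩ := h.act s (hs.trans hr) a i g1
  exact ⟨t, ht.trans hs, g⟩

theorem IsPath.fc_low_lt {N : Set O} (hN : DClosed N) {F : PP → O → Bool → Prop} {p : PP}
    (h : IsPath F p) {a b : O} {i j : Bool} (ha : a ∈ N) (hb : b ∉ N)
    (h1 : Dn (fun r => F r a i) p) (h2 : Dn (fun r => F r b j) p) : a < b := by
  obtain ⟨s, hs, g1, g2⟩ := h.fc_both h1 h2 le_rfl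
  exact h.low_lt hN hs ha hb g1 g2

theorem le_restr_of_gap {r p : PP} {a b : O} (h : r ≤ p.restr a)
    (hg : ∀ γ, a ≤ γ → γ < b → p.1.f γ = none) : r ≤ p.restr b := fun γ y hy => by
  obtain ⟨h1, h2⟩ := restr_f_some hy
  rcases lt_or_ge γ a with h3 | h3
  · exact h γ y ((restr_f_of_lt h3).trans h2)
  · simp [hg γ h3 h1] at h2

theorem le_restr_succ {r r' p : PP} {m : O} (h : r ≤ p.restr m) (h' : r' ≤ r)
    (hm : ∀ y, p.1.f m = some y → ∃ y', r'.1.f m = some y' ∧ YLe y' y) :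
    r' ≤ p.restr (Order.succ m) := fun γ y hy => by
  obtain ⟨h1, h2⟩ := restr_f_some hy
  rcases (Order.lt_succ_iff.1 h1).lt_or_eq with h3 | rfl
  · exact (h'.trans h) γ y ((restr_f_of_lt h3).trans h2)
  · exact hm y h2

theorem sal {N : Set O} (hN : DClosed N) {pa pb pc : PP} (hca : pc ≤ pa) (hcb : pc ≤ pb) (θ : O)
    (H : Finset O) (Λ : Finset (O × Bool)) (val : O × Bool → O → Bool) (n0 : ℕ) (vn : O → Bool)
    (hbN : ∀ γ, pb.1.f γ ≠ none → γ ∈ N) (hbc : ∀ j, ∀ c ∈ col pb.1 j, c.1 ∈ N)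
    (hlow : ∀ j, pb.1.f j ≠ none → ∀ c ∈ col pa.1 j, c.1 ∈ N → c ∈ col pb.1 j)
    (hH : ∀ h ∈ H, h ∉ N ∧ Fc pa fun r => ActN r h)
    (hHe : ∀ h ∈ H, ∀ e ∈ lst pa.1 h, ∀ z, e.1.1 = .inr z → z ∉ N → z ∈ H)
    (hHc : ∀ j, ∀ c ∈ col pa.1 j, c.1 ∉ N → c.1 ∈ H)
    (hΛ : ∀ j, pa.1.f j ≠ none → ∀ c ∈ col pb.1 j, (c.1, c.2.1) ∈ Λ)
    (hval : ∀ j, pa.1.f j ≠ none → ∀ c ∈ col pb.1 j, ∀ h ∈ H, ∀ s, (Fc pa fun r => K r j h s) →
      Fc pc fun r => Sd r (.cone c.1 (!c.2.1)) (.inr h) (val (c.1, c.2.1) h))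
    (hdec : ∀ j, pa.1.f j ≠ none → ∀ c ∈ col pb.1 j, ∀ h ∈ H, ∀ s, (Fc pa fun r => K r j h s) →
      ∀ e ∈ lst pa.1 h, ∀ z, e.1.1 = .inr z → z ∈ N →
        ∃ b, Fc pb fun r => Sd r (.cone c.1 (!c.2.1)) (.inr z) b) :
    ∃ r : PP, r ≤ pa ∧ r ≤ pb ∧ r ≤ pc.restr θ ∧
      ∀ h ∈ H, θ ≤ h → Placed Λ (fun a => val a h) n0 (vn h) (lst pa.1 h) h r := by
  classical
  have main : ∀ ι, θ ≤ ι → ∃ r : PP, Sup ι r.1 ∧ r ≤ pa.restr ι ∧ r ≤ pb.restr ι ∧
      r ≤ pc.restr θ ∧ ∀ h ∈ H, θ ≤ h → h < ι →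
        Placed Λ (fun a => val a h) n0 (vn h) (lst pa.1 h) h r := by
    intro ι
    induction ι using WellFoundedLT.induction with
    | ind ι ih =>
    intro hι
    let T : Finset O := (pa.1.fin.toFinset ∪ pb.1.fin.toFinset ∪ H).filter fun γ => θ ≤ γ ∧ γ < ι
    have hT : ∀ γ, θ ≤ γ → γ < ι → (pa.1.f γ ≠ none ∨ pb.1.f γ ≠ none ∨ γ ∈ H) → γ ∈ T := by
      intro γ h1 h2 h3
      simp only [T, Finset.mem_filter, Finset.mem_union, Set.Finite.mem_toFinset, Set.mem_ofPred_eq]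
      tauto
    rcases T.eq_empty_or_nonempty with hTe | hTe
    · refine ⟨pc.restr θ, (pc.sup_restr θ).mono hι,
        le_restr_of_gap (PP.restr_mono hca θ) fun γ h1 h2 => ?_,
        le_restr_of_gap (PP.restr_mono hcb θ) fun γ h1 h2 => ?_, le_rfl, fun h hh h1 h2 => ?_⟩
      · by_contra h3; simpa [hTe] using hT γ h1 h2 (Or.inl h3)
      · by_contra h3; simpa [hTe] using hT γ h1 h2 (Or.inr (Or.inl h3))
      · exact absurd (hT h h1 h2 (Or.inr (Or.inr hh))) (by simp [hTe])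
    obtain ⟨m, hmT, hmax⟩ := T.exists_max_image id hTe
    have hm := Finset.mem_filter.1 hmT
    obtain ⟨r, r1, r2, r3, r4, r5⟩ := ih m hm.2.2 hm.2.1
    suffices step : ∃ r' ≤ r, (∀ γ, r'.1.f γ ≠ none → γ ≤ m) ∧
        (∀ y, pa.1.f m = some y → ∃ y', r'.1.f m = some y' ∧ YLe y' y) ∧
        (∀ y, pb.1.f m = some y → ∃ y', r'.1.f m = some y' ∧ YLe y' y) ∧
        (m ∈ H → Placed Λ (fun a => val a m) n0 (vn m) (lst pa.1 m) m r') by
      obtain ⟨r', s1, s2, s3, s4, s5⟩ := step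
      refine ⟨r', fun γ hγ => (s2 γ hγ).trans_lt hm.2.2,
        le_restr_of_gap (le_restr_succ r2 s1 s3) fun γ h1 h2 => ?_,
        le_restr_of_gap (le_restr_succ r3 s1 s4) fun γ h1 h2 => ?_, s1.trans r4,
        fun h hh h1 h2 => ?_⟩
      · by_contra h3
        have h4 := Order.succ_le_iff.1 h1
        exact absurd (hmax γ (hT γ (hm.2.1.trans h4.le) h2 (Or.inl h3))) (not_le.2 h4)
      · by_contra h3
        have h4 := Order.succ_le_iff.1 h1
        exact absurd (hmax γ (hT γ (hm.2.1.trans h4.le) h2 (Or.inr (Or.inl h3)))) (not_le.2 h4)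
      · rcases (hmax h (hT h h1 h2 (Or.inr (Or.inr hh)))).lt_or_eq with h3 | h3
        · exact (r5 h hh h1 h3).mono s1
        · obtain rfl : h = m := h3
          exact s5 hh
    by_cases hmH : m ∈ H
    · obtain ⟨g1, g2⟩ := hH m hmH
      have ho : POk m r (lst pa.1 m, ∅) := by
        rcases hy : pa.1.f m with _ | y
        · rw [lst_none hy]
          exact ⟨g2.proper.restr.le r2, fun _ => rfl, fun _ => rfl, by simp, by simp, by simp,
            by simp⟩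
        · rw [lst_some hy, ← (pa.ok hy).nocol g2.kind]
          exact (pa.ok hy).restr.le r2
      obtain ⟨r', s1, s2, ⟨y', s3, s4⟩, s5⟩ := place Λ (fun a => val a m) n0 (vn m) _ m r r1
        g2.kind ho
      refine ⟨r', s1, s2, fun y hy => ⟨y', s3, lst_some hy ▸ s4, ?_⟩, fun y hy => ?_, fun _ => s5⟩
      · rw [(pa.ok hy).nocol g2.kind]; exact Finset.empty_subset _
      · exact absurd (hbN m (by simp [hy])) g1
    suffices st : ∃ y', POk m r y' ∧ (∀ y, pa.1.f m = some y → YLe y' y) ∧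
        ∀ y, pb.1.f m = some y → YLe y' y by
      obtain ⟨y', t1, t2, t3⟩ := st
      obtain ⟨r', s1, s2, s3⟩ := r.update m y' (fun y hy => by simp [r1.none le_rfl] at hy) t1
      refine ⟨r', s1, fun γ hγ => ?_, fun y hy => ⟨y', s2, t2 y hy⟩,
        fun y hy => ⟨y', s2, t3 y hy⟩, fun h => absurd h hmH⟩
      by_cases e : γ = m
      · exact e.le
      · rw [s3 γ e] at hγ
        exact (r1 γ hγ).le
    rcases hya : pa.1.f m with _ | ya
    · rcases hyb : pb.1.f m with _ | yb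
      · have := hm.1
        simp [hya, hyb, hmH] at this
      · exact ⟨yb, (pb.ok hyb).restr.le r3, by simp, fun y hy => Option.some.inj hy ▸ YLe.refl _⟩
    rcases hyb : pb.1.f m with _ | yb
    · exact ⟨ya, (pa.ok hya).restr.le r2, fun y hy => Option.some.inj hy ▸ YLe.refl _, by simp⟩
    have oa := (pa.ok hya).restr.le r2
    have ob := (pb.ok hyb).restr.le r3
    obtain ⟨yc, hyc, c1⟩ := hca m ya hya
    obtain ⟨yc', hyc', c2⟩ := hcb m yb hyb
    obtain rfl : yc = yc' := Option.some.inj (hyc.symm.trans hyc')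
    rcases hk : kind m with _ | _
    swap
    · rcases List.prefix_or_prefix_of_prefix c1.1 c2.1 with h | h
      · exact ⟨yb, ob, fun y hy => Option.some.inj hy ▸ ⟨h, by simp [oa.nocol hk]⟩,
          fun y hy => Option.some.inj hy ▸ YLe.refl _⟩
      · exact ⟨ya, oa, fun y hy => Option.some.inj hy ▸ YLe.refl _,
          fun y hy => Option.some.inj hy ▸ ⟨h, by simp [ob.nocol hk]⟩⟩
    have hpath := oa.proper.path
    have hma : pa.1.f m ≠ none := by simp [hya]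
    have hmb : pb.1.f m ≠ none := by simp [hyb]
    have mimic : ∀ c ∈ yb.2, ∀ h, h ∈ H → ∀ s, (Fc pa fun r => K r m h s) →
        Fc r fun r => Sd r (.cone c.1 (!c.2.1)) (.inr h) (val (c.1, c.2.1) h) := by
      intro c hc h
      have hc' : c ∈ col pb.1 m := col_some hyb ▸ hc
      induction h using WellFoundedLT.induction with
      | ind h ih2 =>
      intro hh s hs
      have hsr : Fc r fun r => K r m h s := (hs.restr (loc_K le_rfl _ _)).mono r2
      have hlt : c.1 < h := hpath.fc_low_lt hN (hbc m c hc') (hH h hh).1 (ob.col c hc) hsr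
      have hhm := hs.K_lt
      rcases lt_or_ge h θ with hθ | hθ
      · exact ((hval m hma c hc' h hh s hs).restr
          (loc_sd (g := .inr h) (hlt.trans hθ).le hθ)).mono r4
      have hl : ∀ q : PP, q ≤ pa.restr m → lst pa.1 h ≠ [] →
          ∃ y, q.1.f h = some y ∧ lst pa.1 h <+: y.1 := by
        intro q hq hne
        rcases hy : pa.1.f h with _ | y
        · exact absurd (lst_none hy) hne
        · obtain ⟨y', g1, g2⟩ := hq h y ((restr_f_of_lt hhm).trans hy)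
          exact ⟨y', g1, lst_some hy ▸ g2.1⟩
      rcases common_value (z := .cone c.1 (!c.2.1)) (h := h) (p := r) (q := pc) (lst pa.1 h)
        (hl r r2) (hl pc (hca.trans (pa.le_restr m))) (by
          intro d hd
          rcases hg : d.1.1 with n | z
          · exact ⟨false, fc_sd (.natF n (by simp)), fc_sd (.natF n (by simp))⟩
          obtain ⟨y, hy, hd'⟩ := mem_lst hd
          have hz := (pa.ok hy).entO d hd' z hg
          by_cases hzN : z ∈ N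
          · obtain ⟨b, hb⟩ := hdec m hma c hc' h hh s hs d hd z hg hzN
            exact ⟨b, (hb.restr (loc_sd (g := .inr z) (hlt.trans hhm).le
              (hz.K_lt.trans hhm))).mono r3, hb.mono hcb⟩
          · have hzH := hHe h hh d hd z hg hzN
            have hz' := (pa.ok hya).proper.path.fc_down hs hz
            exact ⟨_, ih2 z hz.K_lt hzH _ hz', hval m hma c hc' z hzH _ hz'⟩)
        with ⟨h1, -⟩ | ⟨v, h1, h2⟩
      · intro q hq
        obtain ⟨q1, hq1, g1⟩ := h1 q hq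
        obtain ⟨q2, hq2, g2⟩ := hpath.fc_lin (ob.col c hc) hsr hlt q1 (hq1.trans hq)
        obtain ⟨q3, hq3, g3⟩ := (r5 h hh hθ hhm).2 _ (hΛ m hma c hc') q2
          (hq2.trans (hq1.trans hq)) g2 (g1.mono hq2)
        exact ⟨q3, hq3.trans (hq2.trans hq1), g3⟩
      · have hp : Pth (.cone c.1 (!c.2.1)) pc := pth_cone
          (((pb.ok hyb).proper.path.fc_act' ((pb.ok hyb).col c hc)).mono hcb) _
        rwa [← hp.fc_eq h2 (hval m hma c hc' h hh s hs)]
    have hcol : ∀ c ∈ ya.2 ∪ yb.2, Fc r fun r => K r m c.1 c.2.1 := fun c hc =>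
      (Finset.mem_union.1 hc).elim (oa.col c) (ob.col c)
    have hlo : ∀ c ∈ ya.2 ∪ yb.2, c.1 ∈ N → c ∈ yb.2 := fun c hc h =>
      (Finset.mem_union.1 hc).elim
        (fun hc => col_some hyb ▸ hlow m hmb c (col_some hya ▸ hc) h) id
    have hhi : ∀ c ∈ ya.2 ∪ yb.2, c.1 ∉ N → c ∈ ya.2 := fun c hc h =>
      (Finset.mem_union.1 hc).elim id fun hc => absurd (hbc m c (col_some hyb ▸ hc)) h
    refine ⟨([], ya.2 ∪ yb.2), ⟨oa.proper, fun h => by simp [hk] at h, fun _ => rfl, by simp,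
      by simp, hcol, fun c hc c' hc' h1 h2 => ?_⟩,
      fun y hy => Option.some.inj hy ▸ ⟨by simp [oa.noent hk], Finset.subset_union_left⟩,
      fun y hy => Option.some.inj hy ▸ ⟨by simp [ob.noent hk], Finset.subset_union_right⟩⟩
    by_cases hcN : c.1 ∈ N
    · by_cases hcN' : c'.1 ∈ N
      · exact ob.sep c (hlo c hc hcN) c' (hlo c' hc' hcN') h1 h2
      · have a1 := hlo c hc hcN
        have a2 := hhi c' hc' hcN'
        have a3 := hHc m c' (col_some hya ▸ a2) hcN'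
        have a4 := (pa.ok hya).col c' a2
        have hp : Pth (.cone c.1 (!c.2.1)) pc := pth_cone
          (((pb.ok hyb).proper.path.fc_act' ((pb.ok hyb).col c a1)).mono hcb) _
        rw [hp.fc_eq ((pc.ok hyc).sep c (c2.2 a1) c' (c1.2 a2) h1 h2)
          (hval m hma c (col_some hyb ▸ a1) c'.1 a3 _ a4)]
        exact mimic c a1 c'.1 a3 _ a4
    · by_cases hcN' : c'.1 ∈ N
      · exact absurd (hpath.fc_low_lt hN hcN' hcN (hcol c' hc') (hcol c hc)) (not_lt.2 h1.le)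
      · exact oa.sep c (hhi c hc hcN) c' (hhi c' hc' hcN') h1 h2
  obtain ⟨a, ha⟩ := exists_sup pa.1
  obtain ⟨b, hb⟩ := exists_sup pb.1
  obtain ⟨c, hc⟩ := H.finite_toSet.bddAbove
  obtain ⟨r, -, r2, r3, r4, r5⟩ := main (max (max a b) (max θ (Order.succ c)))
    ((le_max_left _ _).trans (le_max_right _ _))
  have ea : pa.restr (max (max a b) (max θ (Order.succ c))) = pa :=
    Subtype.ext (ha.mono ((le_max_left _ _).trans (le_max_left _ _))).restr_eq
  have eb : pb.restr (max (max a b) (max θ (Order.succ c))) = pb :=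
    Subtype.ext (hb.mono ((le_max_right _ _).trans (le_max_left _ _))).restr_eq
  exact ⟨r, ea ▸ r2, eb ▸ r3, r4, fun h hh h1 => r5 h hh h1
    ((Order.lt_succ_iff.2 (hc hh)).trans_le ((le_max_right _ _).trans (le_max_right _ _)))⟩

end Pool.Agent.P.MP_63de32_gt
end

-- part Pool.Agent.P.MP_63de32_gt.Sal2
section

set_option autoImplicit false

/-! User form of the amalgamation lemma, closed sets of stages, reflection. -/

open Pool.Agent.Lib.PosetForcing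

namespace Pool.Agent.P.MP_63de32_gt

/-- the stages mentioned in a condition -/
def ment (p : C) : Set O :=
  {γ | p.f γ ≠ none} ∪ {z | ∃ h, ∃ e ∈ lst p h, e.1.1 = .inr z} ∪ {z | ∃ j, ∃ c ∈ col p j, c.1 = z}

theorem ents_finite (p : C) : {e | ∃ h, e ∈ lst p h}.Finite :=
  (p.fin.biUnion fun h _ => List.finite_toSet (lst p h)).subset fun e ⟨h, he⟩ => by
    obtain ⟨y, hy, -⟩ := mem_lst he
    exact Set.mem_biUnion (show p.f h ≠ none by simp [hy]) he

theorem cols_finite (p : C) : {x : O × Col | x.2 ∈ col p x.1}.Finite :=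
  (p.fin.biUnion fun h _ => ((col p h).finite_toSet.image fun c => (h, c))).subset fun x hx => by
    obtain ⟨y, hy, -⟩ := mem_col hx
    exact Set.mem_biUnion (show p.f x.1 ≠ none by simp [hy]) ⟨x.2, hx, rfl⟩

theorem ment_finite (p : C) : (ment p).Finite := by
  refine (p.fin.union ?_).union ?_
  · refine (((ents_finite p).image fun e => e.1.1).preimage
      (Sum.inr_injective.injOn)).subset ?_
    rintro z ⟨h, e, he, hz⟩
    exact ⟨e, ⟨h, he⟩, hz⟩
  · refine ((cols_finite p).image fun x => x.2.1).subset ?_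
    rintro z ⟨j, c, hc, hz⟩
    exact ⟨(j, c), hc, hz⟩

/-- the natural numbers mentioned in a condition -/
def nment (p : C) : Set ℕ := {n | ∃ h, ∃ e ∈ lst p h, e.1.1 = .inl n}

theorem nment_finite (p : C) : (nment p).Finite := by
  refine (((ents_finite p).image fun e => e.1.1).preimage (Sum.inl_injective.injOn)).subset ?_
  rintro z ⟨h, e, he, hz⟩
  exact ⟨e, ⟨h, he⟩, hz⟩

/-- the side of the coloured cone `c` of the branch `j` at the node `z` is decided -/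
def DecAt (q : PP) (j : O) (c : Col) (z : O) : Prop :=
  (z < j ∧ ∃ b, Fc q fun r => Sd r (.cone c.1 (!c.2.1)) (.inr z) b) ∨
    ∀ b, ∀ s ≤ q, ¬ K s.1 j z b

theorem DecAt.mono {q q' : PP} {j : O} {c : Col} {z : O} (h : DecAt q j c z) (hq : q' ≤ q) :
    DecAt q' j c z :=
  h.imp (fun ⟨h1, b, h2⟩ => ⟨h1, b, h2.mono hq⟩) fun h b s hs => h b s (hs.trans hq)

theorem DecAt.restr {q : PP} {j x : O} {c : Col} {z : O} (h : DecAt q j c z) (hc : c.1 < j)
    (hx : j ≤ x) : DecAt (q.restr x) j c z := by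
  rcases h with ⟨h1, b, h2⟩ | h
  · exact Or.inl ⟨h1, b, h2.restr (loc_sd (g := .inr z) (hc.le.trans hx) (h1.trans_le hx))⟩
  · refine Or.inr fun b s hs hK => ?_
    obtain ⟨_, _, h3⟩ := ImpP.restr (p := q) (loc_K hx z b) (Loc.false x)
      (fun r hr g => (h b r hr g).elim) s hs hK
    exact h3

theorem PP.col_fc (q : PP) {j : O} {c : Col} (hc : c ∈ col q.1 j) :
    Proper j q ∧ Fc q fun r => K r j c.1 c.2.1 := by
  obtain ⟨y, h1, h2⟩ := mem_col hc
  exact ⟨(q.ok h1).proper, (q.ok h1).col c h2⟩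

theorem exists_decAt (a : Finset O) (J : Finset O) : ∀ q : PP, ∃ q' ≤ q,
    (∀ γ, (∀ j ∈ J, j ≤ γ) → q'.1.f γ = q.1.f γ) ∧
      ∀ j ∈ J, ∀ c ∈ col q'.1 j, ∀ z ∈ a, DecAt q' j c z := by
  classical
  induction J using Finset.induction_on_max with
  | empty => exact fun q => ⟨q, le_rfl, fun _ _ => rfl, by simp⟩
  | insert m J hm ih =>
    intro q
    obtain ⟨s, hs, h1⟩ := fin_dn (col q.1 m ×ˢ a : Finset (Col × O)).finite_toSet
      (Φ := fun x s => DecAt s m x.1 x.2) (p := q)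
      (fun _ _ _ hs g => g.mono hs) (by
        intro x hx r hr
        obtain ⟨g1, g2⟩ := q.col_fc (Finset.mem_product.1 hx).1
        by_cases h : ∃ b, ∃ s ≤ r, K s.1 m x.2 b
        · obtain ⟨b, s, hs, h⟩ := h
          obtain ⟨t, ht, g3⟩ := g2 s (hs.trans hr)
          obtain ⟨u, hu, v, g4⟩ := cone_total g1.path (ht.trans (hs.trans hr)) g3 (h.mono ht)
          exact ⟨u, hu.trans (ht.trans hs), Or.inl ⟨h.lt, v, fc_sd g4⟩⟩
        · exact ⟨r, le_rfl, Or.inr fun b s hs g => h ⟨b, s, hs, g⟩⟩)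
    obtain ⟨q1, a1, a2, -, a4⟩ := amalg q (s.restr m) m (s.sup_restr m) (PP.restr_mono hs m)
    obtain ⟨q2, b1, b2, b3⟩ := ih q1
    refine ⟨q2, b1.trans a2, fun γ hγ => ?_, fun j hj c hc z hz => ?_⟩
    · rw [b2 γ fun j hj => hγ j (Finset.mem_insert_of_mem hj),
        a4 γ (hγ m (Finset.mem_insert_self _ _))]
    · rcases Finset.mem_insert.1 hj with rfl | hj
      · have e : col q2.1 j = col q.1 j := by
          unfold col
          rw [b2 j fun j' hj' => le_of_lt (hm j' hj'), a4 j le_rfl]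
        rw [e] at hc
        exact ((h1 (c, z) (Finset.mem_product.2 ⟨hc, hz⟩)).restr (q.col_fc hc).2.K_lt
          le_rfl).mono (b1.trans a1)
      · exact b3 j hj c hc z hz

/-- `pb` lives in `N` and fits the part of `pa` in `N` -/
structure Fit (N : Set O) (pa pb : PP) : Prop where
  sub : ment pb.1 ⊆ N
  low : ∀ j ∈ N, ∀ c ∈ col pa.1 j, c.1 ∈ N → c ∈ col pb.1 j
  dec : ∀ j ∈ N, pa.1.f j ≠ none → ∀ c ∈ col pb.1 j, ∀ z ∈ N, z ∈ ment pa.1 → DecAt pb j c z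

theorem sal2 {N : Set O} (hN : DClosed N) {pa pb pc : PP} (hca : pc ≤ pa) (hcb : pc ≤ pb) (θ : O)
    (hf : Fit N pa pb) {x0 : Pt} (hx0 : Pth x0 pa) (S0 : Finset O) (Λ0 : Finset (O × Bool))
    (n0 : ℕ)
    (hnc : Λ0.Nonempty → ∀ j ∈ N, pa.1.f j ≠ none → kind j = false → ∀ h ∉ N, ∀ s s',
      Dn (fun r : PP => KP r.1 x0 h s) pa → (Fc pa fun r => K r j h s') → False) :
    ∃ r : PP, r ≤ pa ∧ r ≤ pb ∧ r ≤ pc.restr θ ∧ ∀ y : Pt,
      ((y = .nat n0 ∧ n0 ∉ nment pa.1) ∨ ∃ a ∈ Λ0, y = .cone a.1 (!a.2) ∧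
        ∀ h s, h ∉ N → θ ≤ h → Dn (fun r : PP => KP r.1 x0 h s) pa →
          Fc r fun r => K r h a.1 a.2) →
      (∀ g s, g ∈ ment pa.1 → (g ∈ N ∨ g < θ) → Dn (fun r : PP => KP r.1 x0 g s) pa →
        Fc r fun r => Sd r y (.inr g) s) →
      ∀ h s, (h ∈ ment pa.1 ∨ h ∈ S0) → h ∉ N → θ ≤ h → Dn (fun r : PP => KP r.1 x0 h s) pa →
        Fc r fun r => Sd r y (.inr h) s := by
  classical
  let H : Finset O := ((ment_finite pa.1).toFinset ∪ S0).filter
    fun h => h ∉ N ∧ Fc pa fun r => ActN r h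
  have hH : ∀ h, h ∈ H ↔ (h ∈ ment pa.1 ∨ h ∈ S0) ∧ h ∉ N ∧ Fc pa fun r => ActN r h := by
    intro h
    simp only [H, Finset.mem_filter, Finset.mem_union, Set.Finite.mem_toFinset]
  let Λ : Finset (O × Bool) := Λ0 ∪ (cols_finite pb.1).toFinset.image fun x => (x.2.1, x.2.2.1)
  obtain ⟨pc', hc', hv⟩ := fin_dn (S := {x : O × Col | x.2 ∈ col pb.1 x.1} ×ˢ (H : Set O))
    ((cols_finite pb.1).prod H.finite_toSet) (p := pc)
    (Φ := fun x s => (∃ b, Fc pa fun r => K r x.1.1 x.2 b) →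
      ∃ v, Sd s.1 (.cone x.1.2.1 (!x.1.2.2.1)) (.inr x.2) v)
    (fun _ _ _ hs g h => (g h).imp fun _ g => g.mono hs) (by
      intro x hx r hr
      by_cases h : ∃ b, Fc pa fun r => K r x.1.1 x.2 b
      · obtain ⟨b, hb⟩ := h
        obtain ⟨g1, g2⟩ := pb.col_fc hx.1
        obtain ⟨s, hs, g3, g4⟩ := (g1.path.le hcb).fc_both (g2.mono hcb) (hb.mono hca) hr
        obtain ⟨t, ht, g5⟩ := cone_total (g1.path.le hcb) (hs.trans hr) g3 g4
        exact ⟨t, ht.trans hs, fun _ => g5⟩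
      · exact ⟨r, le_rfl, fun g => absurd g h⟩)
  let vn : O → Bool := fun h => decide (Dn (fun r : PP => KP r.1 x0 h true) pa)
  have hvn : ∀ h s, Dn (fun r : PP => KP r.1 x0 h s) pa → vn h = s := by
    intro h s hs
    cases s
    · refine decide_eq_false fun g => ?_
      obtain ⟨r, hr, g1, g2⟩ := IsPath.fc_both hx0 g hs le_rfl
      exact hx0.fn r hr h g1 g2
    · exact decide_eq_true hs
  let val : O × Bool → O → Bool := fun a h =>
    if Λ0.Nonempty ∧ ∃ s, Dn (fun r : PP => KP r.1 x0 h s) pa then vn h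
    else decide (Fc pc' fun r => Sd r (.cone a.1 (!a.2)) (.inr h) true)
  have hjN : ∀ j, ∀ c ∈ col pb.1 j, j ∈ N := fun j c hc => by
    obtain ⟨y, hy, -⟩ := mem_col hc
    exact hf.sub (Or.inl (Or.inl (show pb.1.f j ≠ none by simp [hy])))
  obtain ⟨r, r1, r2, r3, r4⟩ := sal hN (hc'.trans hca) (hc'.trans hcb) θ H Λ val n0 vn
    (fun γ h => hf.sub (Or.inl (Or.inl h))) (fun j c hc => hf.sub (Or.inr ⟨j, c, hc, rfl⟩))
    (fun j hj c hc h => hf.low j (hf.sub (Or.inl (Or.inl hj))) c hc h)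
    (fun h hh => ((hH h).1 hh).2)
    (fun h _ e he z hz hzN => by
      obtain ⟨y, hy, he'⟩ := mem_lst he
      exact (hH z).2 ⟨Or.inl (Or.inl (Or.inr ⟨h, e, he, hz⟩)), hzN,
        (pa.ok hy).proper.path.fc_act' ((pa.ok hy).entO e he' z hz)⟩)
    (fun j c hc hcN => (hH _).2 ⟨Or.inl (Or.inr ⟨j, c, hc, rfl⟩), hcN,
      (pa.col_fc hc).1.path.fc_act' (pa.col_fc hc).2⟩)
    (fun j _ c hc => Finset.mem_union_right _ (Finset.mem_image.2
      ⟨(j, c), (cols_finite pb.1).mem_toFinset.2 hc, rfl⟩))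
    (fun j hj c hc h hh s hs => by
      obtain ⟨v, hv⟩ := hv ((j, c), h) ⟨hc, hh⟩ ⟨s, hs⟩
      have hk : kind j = false := by
        obtain ⟨y, hy, hc'⟩ := mem_col hc
        by_contra hk
        rw [(pb.ok hy).nocol (by simpa using hk)] at hc'
        simp at hc'
      have hp : Pth (.cone c.1 (!c.2.1)) pc' := pth_cone
        (((pb.col_fc hc).1.path.fc_act' (pb.col_fc hc).2).mono (hc'.trans hcb)) _
      have e : val (c.1, c.2.1) h = v := by
        simp only [val]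
        rw [if_neg fun g => g.2.elim fun s' g' =>
          hnc g.1 j (hjN j c hc) hj hk h ((hH h).1 hh).2.1 s' s g' hs]
        cases v
        · exact decide_eq_false fun g => by simpa using hp.fc_eq g (fc_sd hv)
        · exact decide_eq_true (fc_sd hv)
      rw [e]
      exact fc_sd hv)
    (fun j hj c hc h hh s hs e he z hz hzN => by
      rcases hf.dec j (hjN j c hc) hj c hc z hzN (Or.inl (Or.inr ⟨h, e, he, hz⟩)) with g | g
      · exact g.2
      · obtain ⟨y, hy, he'⟩ := mem_lst he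
        obtain ⟨t, ht, g'⟩ := (pa.proper hj).path.fc_down hs ((pa.ok hy).entO e he' z hz) pc hca
        exact absurd g' (g _ t (ht.trans hcb)))
  refine ⟨r, r1, r2, r3.trans (PP.restr_mono hc' θ), fun y hy hlow h => ?_⟩
  induction h using WellFoundedLT.induction with
  | ind h ih =>
  intro s h1 h2 h3 h4
  have hh : h ∈ H := (hH h).2 ⟨h1, h2, IsPath.fc_act' hx0 h4⟩
  have hP : Fc r fun r => Pass r y (lst pa.1 h) := by
    refine fc_pass fun d hd => ?_
    obtain ⟨y', hy', hd'⟩ := mem_lst hd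
    rcases hg : d.1.1 with n | z
    · rw [(pa.ok hy').entN d hd' n hg]
      refine fc_sd (.natF n ?_)
      rcases hy with ⟨rfl, hy⟩ | ⟨a, -, rfl, -⟩
      · intro e
        obtain rfl : n0 = n := by simpa using e
        exact hy ⟨h, d, hd, hg⟩
      · simp
    · have g1 := (pa.ok hy').entO d hd' z hg
      have g2 := IsPath.fc_down hx0 h4 g1
      have g3 : z ∈ ment pa.1 := Or.inl (Or.inr ⟨h, d, hd, hg⟩)
      by_cases hz : z ∈ N ∨ z < θ
      · exact hlow z _ g3 hz g2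
      · rw [not_or, not_lt] at hz
        exact ih z g1.K_lt _ (Or.inl g3) hz.1 hz.2 g2
  intro q hq
  obtain ⟨q1, hq1, g1⟩ := hP q hq
  rcases hy with ⟨rfl, -⟩ | ⟨a, ha, rfl, hK⟩
  · exact ⟨q1, hq1, hvn h s h4 ▸ (r4 h hh h3).1 q1 (hq1.trans hq) g1⟩
  · obtain ⟨q2, hq2, g2⟩ := hK h s h2 h3 h4 q1 (hq1.trans hq)
    obtain ⟨q3, hq3, g3⟩ := (r4 h hh h3).2 a (Finset.mem_union_left _ ha) q2
      (hq2.trans (hq1.trans hq)) g2 (g1.mono hq2)
    refine ⟨q3, hq3.trans (hq2.trans hq1), ?_⟩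
    have e : val a h = s := by
      simp only [val]
      rw [if_pos ⟨⟨a, ha⟩, s, h4⟩, hvn h s h4]
    exact e ▸ g3

/-- closure under a finitary operation -/
def Cl (F : Finset O → Set O) (N : Set O) : Prop := ∀ a : Finset O, ↑a ⊆ N → F a ⊆ N

/-- the property holds for all sets closed under some countably valued finitary operation -/
def Club (Q : Set O → Prop) : Prop :=
  ∃ F : Finset O → Set O, (∀ a, (F a).Countable) ∧ ∀ N, Cl F N → Q N

theorem Club.and {Q Q' : Set O → Prop} (h : Club Q) (h' : Club Q') : Club fun N => Q N ∧ Q' N := by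
  obtain ⟨F, h1, h2⟩ := h
  obtain ⟨F', g1, g2⟩ := h'
  exact ⟨fun a => F a ∪ F' a, fun a => (h1 a).union (g1 a), fun N hN =>
    ⟨h2 N fun a ha => Set.subset_union_left.trans (hN a ha),
      g2 N fun a ha => Set.subset_union_right.trans (hN a ha)⟩⟩

theorem Club.imp {Q Q' : Set O → Prop} (h : Club Q) (h' : ∀ N, Q N → Q' N) : Club Q' := by
  obtain ⟨F, h1, h2⟩ := h
  exact ⟨F, h1, fun N hN => h' N (h2 N hN)⟩

theorem countable_finsets {X : Type*} {N : Set X} (hN : N.Countable) :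
    {a : Finset X | ↑a ⊆ N}.Countable :=
  Set.countable_of_injective_of_countable_image (f := fun a : Finset X => (a : Set X))
    Finset.coe_injective.injOn ((Set.countable_ofPred_finite_subset hN).mono
      fun _ ⟨a, ha, e⟩ => e ▸ ⟨a.finite_toSet, ha⟩)

theorem finset_subset_iUnion {X ι : Type*} [LinearOrder ι] [Nonempty ι] {N : ι → Set X}
    (hN : Monotone N) (a : Finset X) (ha : ↑a ⊆ ⋃ k, N k) : ∃ k, ↑a ⊆ N k := by
  classical
  induction a using Finset.induction_on with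
  | empty => exact ⟨Classical.arbitrary ι, by simp⟩
  | insert x a _ ih =>
    rw [Finset.coe_insert, Set.insert_subset_iff] at ha
    obtain ⟨k, hk⟩ := ih ha.2
    obtain ⟨l, hl⟩ := Set.mem_iUnion.1 ha.1
    refine ⟨max k l, ?_⟩
    rw [Finset.coe_insert, Set.insert_subset_iff]
    exact ⟨hN (le_max_right k l) hl, hk.trans (hN (le_max_left k l))⟩

theorem exists_cl {F : Finset O → Set O} (hF : ∀ a, (F a).Countable) {S : Set O}
    (hS : S.Countable) : ∃ N, S ⊆ N ∧ N.Countable ∧ Cl F N := by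
  let step : Set O → Set O := fun N => N ∪ ⋃ a ∈ {a : Finset O | ↑a ⊆ N}, F a
  let N : ℕ → Set O := fun k => step^[k] S
  have e : ∀ k, N (k + 1) = step (N k) := fun k => Function.iterate_succ_apply' step k S
  have hc : ∀ k, (N k).Countable := by
    intro k
    induction k with
    | zero => exact hS
    | succ k ih => rw [e]; exact ih.union ((countable_finsets ih).biUnion fun a _ => hF a)
  have hm : Monotone N := monotone_nat_of_le_succ fun k => by
    rw [e]; exact Set.subset_union_left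
  refine ⟨⋃ k, N k, Set.subset_iUnion N 0, Set.countable_iUnion hc, fun a ha => ?_⟩
  obtain ⟨k, hk⟩ := finset_subset_iUnion hm a ha
  refine Set.Subset.trans ?_ (Set.subset_iUnion N (k + 1))
  rw [e]
  exact (Set.subset_biUnion_of_mem (u := F) hk).trans Set.subset_union_right

theorem Club.exists {Q : Set O → Prop} (h : Club Q) {S : Set O} (hS : S.Countable) :
    ∃ N, S ⊆ N ∧ N.Countable ∧ Q N := by
  obtain ⟨F, h1, h2⟩ := h
  obtain ⟨N, g1, g2, g3⟩ := exists_cl h1 hS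
  exact ⟨N, g1, g2, h2 N g3⟩

theorem club_param {Θ : Type*} (mt : Θ → Set O) (hf : ∀ θ, (mt θ).Finite)
    (hc : ∀ N : Set O, N.Countable → {θ | mt θ ⊆ N}.Countable) (out : Θ → Set O)
    (ho : ∀ θ, (out θ).Countable) : Club fun N => ∀ θ, mt θ ⊆ N → out θ ⊆ N :=
  ⟨fun a => ⋃ θ ∈ {θ | mt θ ⊆ ↑a}, out θ,
    fun a => (hc _ a.countable_toSet).biUnion fun θ _ => ho θ, fun N hN θ hθ =>
      (Set.subset_biUnion_of_mem (u := out) (show θ ∈ {θ' | mt θ' ⊆ ↑(hf θ).toFinset} by simp)).trans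
        (hN (hf θ).toFinset (by simpa using hθ))⟩

theorem club_dclosed : Club DClosed := by
  classical
  refine (club_param (fun x : O => {x}) (fun x => Set.finite_singleton x)
    (fun N hN => hN.mono fun x hx => hx rfl) (fun x => if (Dm x).Countable then Dm x else ∅)
    fun x => ?_).imp fun N h x hx hc => ?_
  · split_ifs with h
    · exact h
    · exact Set.countable_empty
  · simpa [hc] using h x (by simpa using hx)

/-- the countable chain condition for families inside `D` -/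
def CC (D : Set PP) : Prop := ∀ (ι : Type 1) (I : Set ι), ¬ I.Countable → ∀ p : ι → PP,
  (∀ i ∈ I, p i ∈ D) → ∃ i ∈ I, ∃ j ∈ I, i ≠ j ∧ ∃ r, r ≤ p i ∧ r ≤ p j

theorem CC.predense {D : Set PP} (h : CC D) {W : Type*} (Q : PP → W → Prop)
    (hQ : ∀ q w, Q q w → q ∈ D) : ∃ S : Set (PP × W), S.Countable ∧ (∀ x ∈ S, Q x.1 x.2) ∧
      ∀ q w, Q q w → ∃ x ∈ S, ∃ r, r ≤ x.1 ∧ r ≤ q := by
  obtain ⟨S, h1, h2, h3⟩ := exists_max_antichain {q | ∃ w, Q q w}
  have hS : S.Countable := by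
    by_contra hS
    obtain ⟨i, hi, j, hj, hne, r, r1, r2⟩ := h PP S hS id fun i hi => by
      obtain ⟨w, hw⟩ := h1 hi
      exact hQ _ _ hw
    exact hne (h2 i hi j hj r r1 r2)
  choose w hw using fun q : S => h1 q.2
  have := hS.to_subtype
  refine ⟨Set.range fun q : S => (q.1, w q), Set.countable_range _, ?_, fun q w' hq => ?_⟩
  · rintro _ ⟨q, rfl⟩
    exact hw q
  · obtain ⟨p, hp, r, r1, r2⟩ := h3 q ⟨w', hq⟩
    exact ⟨_, ⟨⟨p, hp⟩, rfl⟩, r, r1, r2⟩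

/-- witnesses can be found inside closed sets -/
theorem club_witness {D : Set PP} (h : CC D) {Θ W : Type*} (mt : Θ → Set O)
    (hf : ∀ θ, (mt θ).Finite) (hc : ∀ N : Set O, N.Countable → {θ | mt θ ⊆ N}.Countable)
    (Q : Θ → PP → W → Prop) (hQ : ∀ θ q w, Q θ q w → q ∈ D) (ex : W → Set O)
    (he : ∀ w, (ex w).Countable) : Club fun N => ∀ θ, mt θ ⊆ N → ∀ q w, Q θ q w →
      ∃ q' w', Q θ q' w' ∧ ment q'.1 ⊆ N ∧ ex w' ⊆ N ∧ ∃ r, r ≤ q' ∧ r ≤ q := by
  choose S h1 h2 h3 using fun θ => h.predense (Q θ) (hQ θ)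
  refine (club_param mt hf hc (fun θ => ⋃ x ∈ S θ, ment x.1.1 ∪ ex x.2) fun θ =>
    (h1 θ).biUnion fun x _ => (ment_finite _).countable.union (he _)).imp
    fun N hN θ hθ q w hq => ?_
  obtain ⟨x, hx, r, r1, r2⟩ := h3 θ q w hq
  have := (Set.subset_biUnion_of_mem (u := fun x : PP × W => ment x.1.1 ∪ ex x.2) hx).trans
    (hN θ hθ)
  exact ⟨x.1, x.2, h2 θ x hx, Set.subset_union_left.trans this, Set.subset_union_right.trans this,
    r, r1, r2⟩

/-- reflection of a forced property to a fitting condition -/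
theorem club_reflect {D : Set PP} (h : CC D)
    (hD : ∀ q ∈ D, ∀ q' ≤ q, ∃ x, q'.restr x ∈ D ∧ Sup x q.1) {Θ W : Type*} (mt : Θ → Set O)
    (hf : ∀ θ, (mt θ).Finite) (hc : ∀ N : Set O, N.Countable → {θ | mt θ ⊆ N}.Countable)
    (ψ : Θ → PP → W → Prop) (hψ : ∀ θ q q' w, q' ≤ q → ψ θ q w → ψ θ q' w) (ex : W → Set O)
    (he : ∀ w, (ex w).Countable) : Club fun N => ∀ θ, mt θ ⊆ N → ∀ pa pp : PP, pp ≤ pa → pp ∈ D →
      ∀ w, ψ θ pp w → ∃ pb w' pc, ψ θ pb w' ∧ ex w' ⊆ N ∧ pc ≤ pp ∧ pc ≤ pb ∧ Fit N pa pb := by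
  classical
  refine (club_witness h (Θ := Θ × Finset O × Finset (O × Col))
    (fun θ => mt θ.1 ∪ ↑θ.2.1 ∪ ((fun x : O × Col => x.1) '' ↑θ.2.2 ∪
      (fun x : O × Col => x.2.1) '' ↑θ.2.2))
    (fun θ => ((hf _).union θ.2.1.finite_toSet).union
      ((θ.2.2.finite_toSet.image _).union (θ.2.2.finite_toSet.image _)))
    (fun N hN => by
      refine ((hc N hN).prod ((countable_finsets hN).prod (countable_finsets
        (hN.prod (hN.prod (Set.countable_univ (α := Bool × ℕ))))))).mono fun θ hθ => ?_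
      exact ⟨fun x hx => hθ (Or.inl (Or.inl hx)), fun x hx => hθ (Or.inl (Or.inr hx)),
        fun x hx => ⟨hθ (Or.inr (Or.inl ⟨x, hx, rfl⟩)), hθ (Or.inr (Or.inr ⟨x, hx, rfl⟩)), trivial⟩⟩)
    (fun θ q w => q ∈ D ∧ ψ θ.1 q w ∧ (∀ x ∈ θ.2.2, x.2 ∈ col q.1 x.1) ∧
      ∀ j ∈ θ.2.1, ∀ c ∈ col q.1 j, ∀ z ∈ θ.2.1, DecAt q j c z)
    (fun _ _ _ h => h.1) ex he).imp fun N hN θ hθ pa pp hp hpD w hw => ?_
  let a : Finset O := (ment_finite pa.1).toFinset.filter (· ∈ N)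
  let B : Finset (O × Col) := (cols_finite pa.1).toFinset.filter fun x => x.1 ∈ N ∧ x.2.1 ∈ N
  have ha : ∀ z, z ∈ a ↔ z ∈ ment pa.1 ∧ z ∈ N := by simp [a]
  have hB : ∀ x, x ∈ B ↔ x.2 ∈ col pa.1 x.1 ∧ x.1 ∈ N ∧ x.2.1 ∈ N := by simp [B]
  obtain ⟨q, hq, -, q2⟩ := exists_decAt a a pp
  obtain ⟨x, x1, x2⟩ := hD pp hpD q hq
  have hq' : q.restr x ≤ pp := PP.restr_le_of_sup hq x2
  obtain ⟨pb, w', ⟨-, g1, g2, g3⟩, g4, g5, pc, g6, g7⟩ := hN (θ, a, B) (by
      rintro z ((hz | hz) | ⟨y, hy, rfl⟩ | ⟨y, hy, rfl⟩)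
      · exact hθ hz
      · exact ((ha z).1 hz).2
      · exact ((hB y).1 hy).2.1
      · exact ((hB y).1 hy).2.2) (q.restr x) w
    ⟨x1, hψ _ _ _ _ hq' hw, fun y hy => col_mono (hq'.trans hp) ((hB y).1 hy).1,
      fun j hj c hc z hz => by
        obtain ⟨y, hy, hc'⟩ := mem_col hc
        obtain ⟨e1, e2⟩ := restr_f_some hy
        have hc'' : c ∈ col q.1 j := col_some e2 ▸ hc'
        exact (q2 j hj c hc'' z hz).restr (q.col_fc hc'').2.K_lt e1.le⟩
  exact ⟨pb, w', pc, g1, g5, g7.trans hq', g6, g4,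
    fun j hj c hc hc' => g2 (j, c) ((hB _).2 ⟨hc, hj, hc'⟩),
    fun j hj hj' c hc z hz hz' => g3 j ((ha j).2 ⟨Or.inl (Or.inl hj'), hj⟩) c hc z
      ((ha z).2 ⟨hz', hz⟩)⟩

end Pool.Agent.P.MP_63de32_gt
end

-- part Pool.Agent.P.MP_63de32_gt.Ccc
section

set_option autoImplicit false

/-! The iteration has the countable chain condition. -/

open Pool.Agent.Lib.PosetForcing Cardinal

namespace Pool.Agent.P.MP_63de32_gt

/-- conditions with support below a stage -/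
def DS (Ω : O) : Set PP := {q | Sup Ω q.1}

/-- the paths coded at `i` and `j` can only split inside `N` -/
def SplitIn (N : Set O) (i j : O) : Prop :=
  ∀ q : PP, Split q.1 i j → ∃ μ ∈ N, ∃ m, ∃ r ≤ q, K r.1 i μ m ∧ K r.1 j μ (!m)

theorem club_split {Ω : O} (h : CC (DS Ω)) :
    Club fun N => ∀ i ∈ N, ∀ j ∈ N, i ≤ Ω → j ≤ Ω → SplitIn N i j := by
  refine (club_witness h (Θ := O × O) (W := O × Bool) (fun θ => {θ.1, θ.2})
    (fun θ => Set.toFinite _) (fun N hN => (hN.prod hN).mono fun θ hθ =>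
      And.intro (hθ (Or.inl rfl)) (hθ (Or.inr rfl)))
    (fun θ q w => q ∈ DS Ω ∧ K q.1 θ.1 w.1 w.2 ∧ K q.1 θ.2 w.1 (!w.2)) (fun _ _ _ h => h.1)
    (fun w => {w.1}) fun w => Set.countable_singleton _).imp ?_
  rintro N hN i hi j hj h1 h2 q ⟨μ, m, g1, g2⟩
  obtain ⟨q', w, ⟨a1, a2, a3⟩, -, a4, r, r1, r2⟩ := hN (i, j) (by rintro z (rfl | rfl) <;> assumption)
    (q.restr Ω) (μ, m) ⟨q.sup_restr Ω, g1.restr h1, g2.restr h2⟩
  obtain ⟨s, s1, s2, -⟩ := amalg q (r.restr Ω) Ω (r.sup_restr Ω)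
    (PP.restr_le_of_sup r2 (q.sup_restr Ω))
  have l : s ≤ q' := s1.trans (PP.restr_le_of_sup r1 a1)
  exact ⟨w.1, a4 rfl, w.2, s, s2, a2.mono l, a3.mono l⟩

theorem no_high {N : Set O} (hN : DClosed N) {i j h : O} (hs : SplitIn N i j) {p : PP}
    (hi : Proper i p) (hj : Proper j p) (hsp : ∃ q ≤ p, Split q.1 i j) (hh : h ∉ N) {s s' : Bool}
    (h1 : Fc p fun r => K r i h s) (h2 : Fc p fun r => K r j h s') : False := by
  obtain ⟨q, hq, g⟩ := hsp
  obtain ⟨μ, hμ, m, r, hr, g1, g2⟩ := hs q g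
  have l1 := hr.trans hq
  obtain ⟨r1, hr1, a1⟩ := h1 r l1
  obtain ⟨r2, hr2, a2⟩ := h2 r1 (hr1.trans l1)
  have l2 := hr2.trans hr1
  have hlt := hi.path.low_lt hN (l2.trans l1) hμ hh (g1.mono l2) (a1.mono hr2)
  obtain ⟨r3, hr3, a3⟩ := hi.path.lin r2 (l2.trans l1) h s μ m hlt (a1.mono hr2) (g1.mono l2)
  obtain ⟨r4, hr4, a4⟩ := hj.path.lin r3 (hr3.trans (l2.trans l1)) h s' μ _ hlt (a2.mono hr3)
    (g2.mono (hr3.trans l2))
  exact (hi.path.fc_act' h1).proper.path.not_both (hr4.trans (hr3.trans (l2.trans l1)))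
    (a3.mono hr4) a4

theorem exists_fiber' {ι Z : Type*} (f : ι → Z) {I : Set ι} (hI : ¬ I.Countable) {S : Set Z}
    (hS : S.Countable) (hf : ∀ i ∈ I, f i ∈ S) : ∃ y, ¬ {i | i ∈ I ∧ f i = y}.Countable := by
  by_contra hcon
  push Not at hcon
  exact hI ((hS.biUnion fun y _ => hcon y).mono fun i hi =>
    Set.mem_biUnion (hf i hi) (And.intro hi rfl))

theorem countable_lists {X : Type*} {S : Set X} (hS : S.Countable) :
    {l : List X | ∀ x ∈ l, x ∈ S}.Countable := by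
  have := hS.to_subtype
  refine (Set.countable_range fun l : List S => l.map Subtype.val).mono fun l hl => ?_
  exact ⟨l.attach.map fun x => ⟨x.1, hl x.1 x.2⟩, by simp⟩

theorem countable_gens {S : Set O} (hS : S.Countable) :
    {g : Gn | ∀ z, g = .inr z → z ∈ S}.Countable := by
  refine ((Set.countable_range Sum.inl).union (hS.image Sum.inr)).mono ?_
  rintro (n | z) h
  · exact Or.inl ⟨n, rfl⟩
  · exact Or.inr ⟨z, h z rfl, rfl⟩

theorem glue {m : O} {p q r : PP} (hp : Sup (Order.succ m) p.1) (hq : Sup (Order.succ m) q.1)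
    (h1 : r ≤ p.restr m) (h2 : r ≤ q.restr m) (y' : Y) (ho : POk m (r.restr m) y')
    (h3 : ∀ y, p.1.f m = some y → YLe y' y) (h4 : ∀ y, q.1.f m = some y → YLe y' y) :
    ∃ s, s ≤ p ∧ s ≤ q := by
  obtain ⟨s, s1, s2, -⟩ := (r.restr m).update m y'
    (fun y hy => by simp [(r.sup_restr m).none le_rfl] at hy) ho
  have ep : p.restr (Order.succ m) = p := Subtype.ext hp.restr_eq
  have eq : q.restr (Order.succ m) = q := Subtype.ext hq.restr_eq
  exact ⟨s, ep ▸ le_restr_succ (PP.restr_le_of_sup h1 (p.sup_restr m)) s1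
    fun y hy => ⟨y', s2, h3 y hy⟩, eq ▸ le_restr_succ (PP.restr_le_of_sup h2 (q.sup_restr m)) s1
    fun y hy => ⟨y', s2, h4 y hy⟩⟩

theorem cc_succ {m : O} (h : CC (DS m)) : CC (DS (Order.succ m)) := by
  classical
  intro ι I hI p hp
  have same : ∀ (J : Set ι) (y : Y), J ⊆ I → ¬ J.Countable → (∀ i ∈ J, (p i).1.f m = some y) →
      ∃ i ∈ I, ∃ j ∈ I, i ≠ j ∧ ∃ r, r ≤ p i ∧ r ≤ p j := by
    intro J y hJ hJ' hy
    obtain ⟨i, hi, j, hj, hne, r, r1, r2⟩ := h ι J hJ' (fun i => (p i).restr m)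
      fun i _ => (p i).sup_restr m
    exact ⟨i, hJ hi, j, hJ hj, hne, glue (hp i (hJ hi)) (hp j (hJ hj)) r1 r2 y
      (((p i).ok (hy i hi)).restr.le (PP.restr_le_of_sup r1 ((p i).sup_restr m)))
      (fun y' h => Option.some.inj ((hy i hi).symm.trans h) ▸ YLe.refl y)
      fun y' h => Option.some.inj ((hy j hj).symm.trans h) ▸ YLe.refl y⟩
  obtain ⟨b, hb⟩ := exists_fiber (fun i => decide ((p i).1.f m = none)) hI
  cases b
  swap
  · obtain ⟨i, hi, j, hj, g⟩ := h ι _ hb p fun i hi γ hγ =>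
      (Order.lt_succ_iff.1 (hp i hi.1 γ hγ)).lt_of_ne fun e => hγ (e ▸ of_decide_eq_true hi.2)
    exact ⟨i, hi.1, j, hj.1, g⟩
  set J := {i | i ∈ I ∧ decide ((p i).1.f m = none) = false} with hJ
  have hy : ∀ i ∈ J, (p i).1.f m = some (lst (p i).1 m, col (p i).1 m) := by
    intro i hi
    obtain ⟨y, hy⟩ := Option.ne_none_iff_exists'.1 (of_decide_eq_false hi.2)
    rw [lst_some hy, col_some hy, hy]
  rcases hk : kind m with _ | _
  swap
  · obtain ⟨i0, hi0⟩ := nonempty_of_not_countable hb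
    have hD := ((p i0).ok (hy i0 hi0)).proper.cnt hk
    obtain ⟨l, hl⟩ := exists_fiber' (fun i => lst (p i).1 m) hb (countable_lists
      (((countable_gens hD).prod (Set.countable_univ (α := Bool))).prod
        (Set.countable_univ (α := Bool)))) (by
      intro i hi e he
      refine ⟨⟨fun z hz => ?_, trivial⟩, trivial⟩
      obtain ⟨s, -, hs⟩ := ((p i).ok (hy i hi)).entO e he z hz _ le_rfl
      exact hs.mem)
    refine same _ (l, ∅) (fun i hi => hi.1.1) hl fun i hi => ?_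
    have e : col (p i).1 m = ∅ := ((p i).ok (hy i hi.1)).nocol hk
    rw [hy i hi.1, hi.2, e]
  have hy' : ∀ i ∈ J, (p i).1.f m = some ([], col (p i).1 m) := fun i hi => by
    have e : lst (p i).1 m = [] := ((p i).ok (hy i hi)).noent hk
    rw [hy i hi, e]
  obtain ⟨N, hmN, hNc, ⟨hN, hsp⟩, hre⟩ := ((club_dclosed.and (club_split h)).and
    (club_reflect h (fun q hq q' _ => ⟨m, q'.sup_restr m, hq⟩)
      (Θ := Finset Col × Finset (O × Bool)) (W := ι)
      (fun θ => Prod.fst '' (θ.1 : Set Col) ∪ Prod.fst '' (θ.2 : Set (O × Bool)))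
      (fun θ => (θ.1.finite_toSet.image _).union (θ.2.finite_toSet.image _))
      (fun N hN => by
        refine ((countable_finsets (hN.prod (Set.countable_univ (α := Bool × ℕ)))).prod
          (countable_finsets (hN.prod (Set.countable_univ (α := Bool))))).mono fun θ hθ => ?_
        exact ⟨fun x hx => ⟨hθ (Or.inl ⟨x, hx, rfl⟩), trivial⟩,
          fun x hx => ⟨hθ (Or.inr ⟨x, hx, rfl⟩), trivial⟩⟩)
      (fun θ q ξ => ξ ∈ J ∧ q ≤ (p ξ).restr m ∧ θ.1 ⊆ col (p ξ).1 m ∧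
        ∀ c ∈ col (p ξ).1 m, c ∉ θ.1 → ∀ g ∈ θ.2,
          Fc q fun r => Sd r (.cone c.1 (!c.2.1)) (.inr g.1) g.2)
      (fun θ q q' w hq g => ⟨g.1, hq.trans g.2.1, g.2.2.1,
        fun c hc hc' x hx => (g.2.2.2 c hc hc' x hx).mono hq⟩)
      (fun ξ => Prod.fst '' (col (p ξ).1 m : Set Col))
      fun ξ => (Finset.countable_toSet _).image _)).exists (Set.countable_singleton m)
  by_cases hall : ∀ η ∈ J, ∀ c ∈ col (p η).1 m, c.1 ∈ N
  · obtain ⟨q, hq⟩ := exists_fiber' (fun i => col (p i).1 m) hb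
      (countable_finsets (hNc.prod (Set.countable_univ (α := Bool × ℕ))))
      fun i hi c hc => ⟨hall i hi c hc, trivial⟩
    exact same _ ([], q) (fun i hi => hi.1.1) hq fun i hi => by rw [hy' i hi.1, hi.2]
  push Not at hall
  obtain ⟨η, hη, c0, hc0, hc0N⟩ := hall
  let pa := (p η).restr m
  have oa : POk m pa ([], col (p η).1 m) := ((p η).ok (hy' η hη)).restr
  let q0 : Finset Col := (col (p η).1 m).filter fun c => c.1 ∈ N
  let L : Finset (O × Bool) := ((ment_finite pa.1).toFinset ×ˢ Finset.univ).filter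
    fun g => g.1 ∈ N ∧ Fc pa fun r => K r m g.1 g.2
  have hL : ∀ g, g ∈ L ↔ g.1 ∈ ment pa.1 ∧ g.1 ∈ N ∧ Fc pa fun r => K r m g.1 g.2 := by simp [L]
  obtain ⟨pb, ξ, pc, ⟨hξ, a1, a2, a3⟩, a4, a5, a6, a7⟩ := hre (q0, L) (by
      rintro z (⟨c, hc, rfl⟩ | ⟨g, hg, rfl⟩)
      · exact (Finset.mem_filter.1 hc).2
      · exact ((hL g).1 hg).2.1) pa pa le_rfl ((p η).sup_restr m) η
    ⟨hη, le_rfl, Finset.filter_subset _ _, fun c hc hc' g hg r hr => by
      have hcN : c.1 ∉ N := fun h => hc' (Finset.mem_filter.2 ⟨hc, h⟩)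
      obtain ⟨-, g2, g3⟩ := (hL g).1 hg
      obtain ⟨s, hs, g4⟩ := oa.proper.path.fc_lin g3 (oa.col c hc)
        (oa.proper.path.fc_low_lt hN g2 hcN g3 (oa.col c hc)) r hr
      exact ⟨s, hs, .on _ _ (Or.inl g4)⟩⟩
  have hξN : ∀ c ∈ col (p ξ).1 m, c.1 ∈ N := fun c hc => a4 ⟨c, hc, rfl⟩
  obtain ⟨r, r1, r2, -, r4⟩ := sal2 hN a5 a6 0 a7 (pth_br oa.proper)
    ((col (p η).1 m).image Prod.fst) ((col (p ξ).1 m).image fun c => (c.1, c.2.1)) 0
    (fun _ j hj hj' hk' h hh s s' g1 g2 => by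
      have hjm : j < m := (p η).sup_restr m j hj'
      exact no_high hN (hsp m (hmN rfl) j hj le_rfl hjm.le) oa.proper (pa.proper hj')
        (oa.proper.newB hk j hjm pa le_rfl ⟨hk', hj'⟩) hh g1 g2)
  have ob : POk m r ([], col (p ξ).1 m) := ((p ξ).ok (hy' ξ hξ)).restr.le (r2.trans a1)
  have oa' := oa.le r1
  have hcol : ∀ c ∈ col (p ξ).1 m ∪ col (p η).1 m, Fc r fun r => K r m c.1 c.2.1 := fun c hc =>
    (Finset.mem_union.1 hc).elim (ob.col c) (oa'.col c)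
  have hlo : ∀ c ∈ col (p ξ).1 m ∪ col (p η).1 m, c.1 ∈ N → c ∈ col (p ξ).1 m := fun c hc h =>
    (Finset.mem_union.1 hc).elim id fun hc => a2 (Finset.mem_filter.2 ⟨hc, h⟩)
  have hhi : ∀ c ∈ col (p ξ).1 m ∪ col (p η).1 m, c.1 ∉ N → c ∈ col (p η).1 m := fun c hc h =>
    (Finset.mem_union.1 hc).elim (fun hc => absurd (hξN c hc) h) id
  refine ⟨ξ, hξ.1, η, hη.1, fun e => hc0N (hξN c0 (e ▸ hc0)),
    glue (hp ξ hξ.1) (hp η hη.1) (r2.trans a1) r1 ([], col (p ξ).1 m ∪ col (p η).1 m)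
      (POk.restr ⟨ob.proper, fun h => by simp [hk] at h, fun _ => rfl, by simp, by simp, hcol,
        fun c hc c' hc' h1 h2 => ?_⟩)
      (fun y h => Option.some.inj ((hy' ξ hξ).symm.trans h) ▸
        ⟨List.prefix_refl _, Finset.subset_union_left⟩)
      fun y h => Option.some.inj ((hy' η hη).symm.trans h) ▸
        ⟨List.prefix_refl _, Finset.subset_union_right⟩⟩
  by_cases hcN : c.1 ∈ N
  · by_cases hcN' : c'.1 ∈ N
    · exact ob.sep c (hlo c hc hcN) c' (hlo c' hc' hcN') h1 h2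
    · have b1 := hlo c hc hcN
      have b2 := hhi c' hc' hcN'
      by_cases hq0 : c ∈ q0
      · exact oa'.sep c (Finset.mem_filter.1 hq0).1 c' b2 h1 h2
      · refine r4 _ (Or.inr ⟨(c.1, c.2.1), Finset.mem_image.2 ⟨c, b1, rfl⟩, rfl,
          fun h s hh _ g => ?_⟩) (fun g s g1 g2 g3 => ?_) c'.1 c'.2.1
          (Or.inr (Finset.mem_image.2 ⟨c', b2, rfl⟩)) hcN' zero_le (oa.col c' b2)
        · exact ob.proper.path.fc_lin (ob.col c b1) (g.mono r1)
            (ob.proper.path.fc_low_lt hN hcN hh (ob.col c b1) (g.mono r1))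
        · exact (a3 c b1 hq0 (g, s) ((hL _).2 ⟨g1, g2.resolve_right (not_lt.2 zero_le), g3⟩)).mono r2
  · by_cases hcN' : c'.1 ∈ N
    · exact absurd (ob.proper.path.fc_low_lt hN hcN' hcN (hcol c' hc') (hcol c hc))
        (not_lt.2 h1.le)
    · exact oa'.sep c (hhi c hc hcN) c' (hhi c' hc' hcN') h1 h2

theorem amalg2 {p q r : PP} {x : O} (h1 : r ≤ p.restr x) (h2 : r ≤ q.restr x)
    (h : ∀ γ, x ≤ γ → p.1.f γ = none ∨ q.1.f γ = none) : ∃ s, s ≤ p ∧ s ≤ q := by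
  classical
  let s : C := ⟨fun γ => if γ < x then r.1.f γ else if p.1.f γ = none then q.1.f γ else p.1.f γ,
    ((r.1.fin.union p.1.fin).union q.1.fin).subset fun γ h => by
      by_cases hγ : γ < x <;> by_cases h' : p.1.f γ = none <;> simp_all⟩
  have e1 : ∀ γ, γ < x → s.f γ = r.1.f γ := fun γ h => if_pos h
  have e2 : ∀ γ, x ≤ γ → s.f γ = if p.1.f γ = none then q.1.f γ else p.1.f γ :=
    fun γ h => if_neg (not_lt.2 h)
  have l1 : s ≤ p.1 := fun γ y hy => by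
    rcases lt_or_ge γ x with g | g
    · rw [e1 γ g]; exact h1 γ y ((restr_f_of_lt g).trans hy)
    · exact ⟨y, by rw [e2 γ g, if_neg (by simp [hy]), hy], YLe.refl y⟩
  have l2 : s ≤ q.1 := fun γ y hy => by
    rcases lt_or_ge γ x with g | g
    · rw [e1 γ g]; exact h2 γ y ((restr_f_of_lt g).trans hy)
    · exact ⟨y, by rw [e2 γ g, if_pos ((h γ g).resolve_right (by simp [hy])), hy], YLe.refl y⟩
  refine ⟨⟨s, fun ι y hy => ?_⟩, l1, l2⟩
  rcases lt_or_ge ι x with g | g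
  · refine (r.2 ι y (by rw [← e1 ι g, hy])).mono fun γ y' hy' => ?_
    obtain ⟨a1, a2⟩ := restr_f_some hy'
    exact ⟨y', by rw [restr_f_of_lt a1, e1 γ (a1.trans g), a2], YLe.refl _⟩
  · rw [e2 ι g] at hy
    split_ifs at hy with h'
    · exact (q.2 ι y hy).mono (restr_mono l2 ι)
    · exact (p.2 ι y hy).mono (restr_mono l1 ι)

theorem cc_stage (Ω : O) : CC (DS Ω) := by
  classical
  induction Ω using WellFoundedLT.induction with
  | ind Ω ih =>
  intro ι I hI p hp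
  obtain ⟨R, J, hJ, hJ', h1, h2⟩ := exists_delta (fun i => (p i).1.fin.toFinset) hI
  have key : ∀ x, (∀ γ ∈ R, γ < x) → ∀ i ∈ J, ∀ j ∈ J, i ≠ j →
      ∀ γ, x ≤ γ → (p i).1.f γ = none ∨ (p j).1.f γ = none := by
    intro x hx i hi j hj hne γ hγ
    by_contra hcon
    rw [not_or] at hcon
    exact absurd (hx γ (h2 i hi j hj hne γ ((p i).1.fin.mem_toFinset.2 hcon.1)
      ((p j).1.fin.mem_toFinset.2 hcon.2))) (not_lt.2 hγ)
  rcases R.eq_empty_or_nonempty with rfl | hR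
  · obtain ⟨i, hi, j, hj, hne⟩ := exists_ne_of_not_countable hJ'
    have e : ∀ q : PP, (⊤ : PP) ≤ q.restr 0 := fun q γ y hy =>
      absurd (restr_f_some hy).1 (not_lt.2 zero_le)
    exact ⟨i, hJ hi, j, hJ hj, hne, amalg2 (e _) (e _) (key 0 (by simp) i hi j hj hne)⟩
  · obtain ⟨m, hm, hmax⟩ := R.exists_max_image id hR
    obtain ⟨i0, hi0⟩ := nonempty_of_not_countable hJ'
    have hmΩ : m < Ω := hp i0 (hJ hi0) m ((p i0).1.fin.mem_toFinset.1 (h1 i0 hi0 hm))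
    obtain ⟨i, hi, j, hj, hne, r, r1, r2⟩ := cc_succ (ih m hmΩ) ι J hJ'
      (fun i => (p i).restr (Order.succ m)) fun i _ => (p i).sup_restr _
    exact ⟨i, hJ hi, j, hJ hj, hne, amalg2 r1 r2
      (key _ (fun γ hγ => Order.lt_succ_iff.2 (hmax γ hγ)) i hi j hj hne)⟩

/-- the first uncountable ordinal as a type -/
abbrev W1 : Type 1 := (Cardinal.aleph.{1} 1).ord.ToType

theorem mk_W1 : #W1 = ℵ₁ := by simp

instance : Uncountable W1 := by
  rw [← aleph0_lt_mk_iff, mk_W1]; exact aleph0_lt_aleph_one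

theorem exists_W1_emb {ι : Type 1} {I : Set ι} (hI : ¬ I.Countable) :
    ∃ e : W1 → ι, Function.Injective e ∧ ∀ x, e x ∈ I := by
  rw [← le_aleph0_iff_set_countable, not_le, ← Order.succ_le_iff, succ_aleph0, ← mk_W1] at hI
  obtain ⟨e⟩ := hI
  exact ⟨fun x => e x, fun x y h => e.injective (Subtype.ext h), fun x => (e x).2⟩

instance : Small.{0} W1 := by
  rw [small_iff_lift_mk_lt_univ, mk_W1]
  simpa using lift_lt_univ (Cardinal.aleph.{0} 1)

theorem cc_univ : CC Set.univ := by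
  intro ι I hI p _
  obtain ⟨e, he, he'⟩ := exists_W1_emb hI
  obtain ⟨Ω, hΩ⟩ := exists_sup_small fun x => (p (e x)).1
  obtain ⟨i, -, j, -, hne, h⟩ := cc_stage Ω W1 Set.univ Set.not_countable_univ
    (fun x => p (e x)) fun x _ => hΩ x
  exact ⟨e i, he' i, e j, he' j, fun g => hne (he g), h⟩

theorem ccc : CCC PP := fun ι I hI p => cc_univ ι I hI p fun _ _ => trivial

theorem club_split' : Club fun N => ∀ i ∈ N, ∀ j ∈ N, SplitIn N i j := by
  refine (club_witness cc_univ (Θ := O × O) (W := O × Bool) (fun θ => {θ.1, θ.2})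
    (fun θ => Set.toFinite _) (fun N hN => (hN.prod hN).mono fun θ hθ =>
      And.intro (hθ (Or.inl rfl)) (hθ (Or.inr rfl)))
    (fun θ q w => K q.1 θ.1 w.1 w.2 ∧ K q.1 θ.2 w.1 (!w.2)) (fun _ _ _ _ => trivial)
    (fun w => {w.1}) fun w => Set.countable_singleton _).imp ?_
  rintro N hN i hi j hj q ⟨μ, m, g1, g2⟩
  obtain ⟨q', w, ⟨a2, a3⟩, -, a4, r, r1, r2⟩ := hN (i, j) (by rintro z (rfl | rfl) <;> assumption)
    q (μ, m) ⟨g1, g2⟩
  exact ⟨w.1, a4 rfl, w.2, r, r2, a2.mono r1, a3.mono r1⟩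

theorem club_reflect' {Θ W : Type*} (mt : Θ → Set O)
    (hf : ∀ θ, (mt θ).Finite) (hc : ∀ N : Set O, N.Countable → {θ | mt θ ⊆ N}.Countable)
    (ψ : Θ → PP → W → Prop) (hψ : ∀ θ q q' w, q' ≤ q → ψ θ q w → ψ θ q' w) (ex : W → Set O)
    (he : ∀ w, (ex w).Countable) : Club fun N => ∀ θ, mt θ ⊆ N → ∀ pa pp : PP, pp ≤ pa →
      ∀ w, ψ θ pp w → ∃ pb w' pc, ψ θ pb w' ∧ ex w' ⊆ N ∧ pc ≤ pp ∧ pc ≤ pb ∧ Fit N pa pb :=
  (club_reflect cc_univ (fun q _ _ _ => (exists_sup q.1).imp fun _ h => ⟨trivial, h⟩) mt hf hc ψ hψ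
    ex he).imp fun _ h θ hθ pa pp hp w hw => h θ hθ pa pp hp trivial w hw

end Pool.Agent.P.MP_63de32_gt
end

-- part Pool.Agent.P.MP_63de32_gt.Capture
section

set_option autoImplicit false

/-! Every path is coded at some active stage. -/

open Pool.Agent.Lib.PosetForcing Cardinal

namespace Pool.Agent.P.MP_63de32_gt

/-- the path `F` is forced to be the path coded at `x` -/
structure Same (F : PP → O → Bool → Prop) (x : O) (r : PP) : Prop where
  fwd : ∀ s ≤ r, ∀ κ i, F s κ i → ∃ t ≤ s, K t.1 x κ i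
  bwd : ∀ s ≤ r, ∀ κ i, K s.1 x κ i → ∃ t ≤ s, F t κ i

theorem Same.le {F : PP → O → Bool → Prop} {x : O} {r r' : PP} (h : Same F x r) (hr : r' ≤ r) :
    Same F x r' := ⟨fun s hs => h.fwd s (hs.trans hr), fun s hs => h.bwd s (hs.trans hr)⟩

theorem Same.trans {F : PP → O → Bool → Prop} {x x' : O} {r : PP} (h : Same F x r)
    (h' : Same (fun s => K s.1 x) x' r) : Same F x' r := by
  refine ⟨fun s hs κ i g => ?_, fun s hs κ i g => ?_⟩
  · obtain ⟨t, ht, g1⟩ := h.fwd s hs κ i g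
    obtain ⟨u, hu, g2⟩ := h'.fwd t (ht.trans hs) κ i g1
    exact ⟨u, hu.trans ht, g2⟩
  · obtain ⟨t, ht, g1⟩ := h'.bwd s hs κ i g
    obtain ⟨u, hu, g2⟩ := h.bwd t (ht.trans hs) κ i g1
    exact ⟨u, hu.trans ht, g2⟩

theorem bool_ne {a b : Bool} (h : a ≠ b) : a = !b := by cases a <;> cases b <;> simp_all

theorem path_bounded {F : PP → O → Bool → Prop} {q0 : PP} (hF : IsPath F q0) :
    ∃ q ≤ q0, ∃ α, ∀ s ≤ q, ∀ κ i, F s κ i → κ < α := by
  by_cases hS : {κ | ∃ s ≤ q0, ∃ i, F s κ i}.Countable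
  · have := hS.to_subtype
    obtain ⟨α, hα⟩ := Ordinal.bddAbove_of_small (s := {κ | ∃ s ≤ q0, ∃ i, F s κ i})
    exact ⟨q0, le_rfl, Order.succ α, fun s hs κ i h => Order.lt_succ_iff.2 (hα ⟨s, hs, i, h⟩)⟩
  obtain ⟨e, he, he'⟩ := exists_W1_emb hS
  choose k hk i hi using he'
  obtain ⟨α, hα⟩ := Ordinal.bddAbove_of_small (s := Set.range e)
  obtain ⟨ξ, -, q, hq, h⟩ := ccc.exists_many (I := Set.univ) Set.not_countable_univ k
  refine ⟨q, hq.trans (hk ξ), Order.succ α, fun s hs κ j g => ?_⟩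
  by_contra hκ
  have l := hs.trans (hq.trans (hk ξ))
  refine h s hs (((hF.cnt l g).preimage he).mono ?_)
  rintro η ⟨-, r, r1, r2⟩
  obtain ⟨t, -, g'⟩ := hF.lin r (r1.trans l) κ j (e η) (i η)
    ((Order.lt_succ_iff.2 (hα ⟨η, rfl⟩)).trans_le (not_lt.1 hκ)) (hF.mono _ _ _ _ r1 g)
    (hF.mono _ _ _ _ r2 (hi η))
  exact g'.mem

theorem exists_code {F : PP → O → Bool → Prop} {q : PP} (hF : IsPath F q) {α : O}
    (hα : ∀ s ≤ q, ∀ κ i, F s κ i → κ < α) (kd : Bool) : ∃ x, kind x = kd ∧ Same F x q ∧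
      Dm x ⊆ {κ | ∃ s ≤ q, ∃ i, F s κ i} := by
  choose A h1 h2 h3 using fun z : O × Bool => ccc.exists_antichain {s | s ≤ q ∧ F s z.1 z.2}
  let t : Set (C × O × Bool) := ⋃ z : Set.Iio α × Bool,
    (fun a : PP => (a.1, z.1.1, z.2)) '' A (z.1.1, z.2)
  have ht : Small.{0} t := by
    have : ∀ z : Set.Iio α × Bool,
        Small.{0} ((fun a : PP => (a.1, z.1.1, z.2)) '' A (z.1.1, z.2) :) := fun z => by
      have := ((h2 (z.1.1, z.2)).image fun a : PP => (a.1, z.1.1, z.2)).to_subtype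
      infer_instance
    exact small_iUnion _
  obtain ⟨β, hβ⟩ := exists_sup_small fun z : t => z.1.1
  obtain ⟨x, hx, e⟩ := exists_task.choose_spec t kd ht (max α β)
  have e1 : (task x).1 = t := congrArg Prod.fst e
  have mem : ∀ a κ i, (a, κ, i) ∈ (task x).1 → ∃ b : PP, b.1 = a ∧ b ≤ q ∧ F b κ i := by
    intro a κ i h
    rw [e1] at h
    obtain ⟨z, b, hb, e2⟩ := Set.mem_iUnion.1 h
    obtain ⟨rfl, rfl, rfl⟩ : b.1 = a ∧ z.1.1 = κ ∧ z.2 = i := by simpa using e2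
    exact ⟨b, rfl, h1 _ hb⟩
  refine ⟨x, congrArg Prod.snd e, ⟨fun s hs κ i g => ?_, fun s _ κ i g => ?_⟩, ?_⟩
  · obtain ⟨a, ha, r, r1, r2⟩ := h3 (κ, i) s ⟨hs, g⟩
    have h4 : (a.1, κ, i) ∈ t := Set.mem_iUnion.2 ⟨(⟨κ, hα s hs κ i g⟩, i), a, ha, rfl⟩
    exact ⟨r, r2, (hα s hs κ i g).trans_le ((le_max_left _ _).trans hx), a.1, e1 ▸ h4,
      (hβ ⟨_, h4⟩).mono ((le_max_right _ _).trans hx), r1⟩
  · obtain ⟨-, a, a1, -, a3⟩ := g
    obtain ⟨b, rfl, -, b2⟩ := mem a κ i a1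
    exact ⟨s, le_rfl, hF.mono _ _ _ _ a3 b2⟩
  · rintro κ ⟨a, i, h⟩
    obtain ⟨b, -, b1, b2⟩ := mem a κ i h
    exact ⟨b, b1, i, b2⟩

theorem Same.isPath {F : PP → O → Bool → Prop} {x : O} {q : PP} (h : Same F x q)
    (hF : IsPath F q) : IsPath (fun s => K s.1 x) q := by
  have two : ∀ r ≤ q, ∀ κ i μ m, K r.1 x κ i → K r.1 x μ m → ∃ s ≤ r, F s κ i ∧ F s μ m := by
    intro r hr κ i μ m g1 g2
    obtain ⟨s, hs, a1⟩ := h.bwd r hr κ i g1
    obtain ⟨t, ht, a2⟩ := h.bwd s (hs.trans hr) μ m (g2.mono hs)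
    exact ⟨t, ht.trans hs, hF.mono _ _ _ _ ht a1, a2⟩
  refine ⟨fun _ _ _ _ hs g => g.mono hs, fun r hr κ i g => ?_, fun r hr κ g1 g2 => ?_,
    fun r hr κ i μ m g1 g2 => ?_, fun r hr κ i μ m hl g1 g2 => ?_⟩
  · obtain ⟨s, hs, a1⟩ := h.bwd r hr κ i g
    obtain ⟨t, ht, a2⟩ := hF.act s (hs.trans hr) κ i a1
    exact ⟨t, ht.trans hs, a2⟩
  · obtain ⟨s, hs, a1, a2⟩ := two r hr _ _ _ _ g1 g2
    exact hF.fn s (hs.trans hr) κ a1 a2
  · obtain ⟨s, hs, a1⟩ := h.bwd r hr κ i g1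
    obtain ⟨t, ht, a2⟩ := hF.down s (hs.trans hr) κ i μ m a1 (g2.mono hs)
    obtain ⟨u, hu, a3⟩ := h.fwd t (ht.trans (hs.trans hr)) μ m a2
    exact ⟨u, hu.trans (ht.trans hs), a3⟩
  · obtain ⟨s, hs, a1, a2⟩ := two r hr _ _ _ _ g1 g2
    obtain ⟨t, ht, a3⟩ := hF.lin s (hs.trans hr) κ i μ m hl a1 a2
    exact ⟨t, ht.trans hs, a3⟩

/-- of two uncountable paths that cannot split, each contains the other -/
theorem sub_of_no_split {x j : O} {r : PP} (hx : IsPath (fun s => K s.1 x) r)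
    (hj : IsPath (fun s => K s.1 j) r) (hu : Unc (fun s => K s.1 j) r)
    (hn : ∀ s ≤ r, ¬ Split s.1 x j) : ∀ s ≤ r, ∀ κ i, K s.1 x κ i → ∃ t ≤ s, K t.1 j κ i := by
  intro s hs κ i g
  obtain ⟨t, ht, g'⟩ := hj.cmp_unc hu hs (hx.fc_act hs g)
  rcases g' with ⟨i', g'⟩ | ⟨ν, m, g1, g2⟩
  · by_cases e : i' = i
    · exact ⟨t, ht, e ▸ g'⟩
    · exact absurd ⟨κ, i, g.mono ht, bool_ne e ▸ g'⟩ (hn t (ht.trans hs))
  · obtain ⟨u, hu, g3⟩ := hx.down t (ht.trans hs) κ i ν m (g.mono ht) g1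
    exact absurd ⟨ν, m, g3, g2.mono hu⟩ (hn u (hu.trans (ht.trans hs)))

theorem capture {F : PP → O → Bool → Prop} {q0 : PP} (hF : IsPath F q0) :
    ∃ r ≤ q0, ∃ x, r.1.f x ≠ none ∧ Same F x r := by
  obtain ⟨q1, hq1, α, hα⟩ := path_bounded hF
  have act : ∀ q ≤ q0, ∀ x, Proper x q → Same F x q → ∃ r ≤ q0, ∃ x, r.1.f x ≠ none ∧ Same F x r := by
    intro q hq x h1 h2
    obtain ⟨s, hs, h3, -⟩ := h1.activate
    exact ⟨s, hs.trans hq, x, h3, h2.le hs⟩
  by_cases hc : ∃ q ≤ q1, {κ | ∃ s ≤ q, ∃ i, F s κ i}.Countable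
  · obtain ⟨q, hq, hc⟩ := hc
    have l := hq.trans hq1
    obtain ⟨x, hk, hs, hD⟩ := exists_code (hF.le l) (fun s hs => hα s (hs.trans hq)) true
    have hx := hs.isPath (hF.le l)
    by_cases hn : ∃ κ, ∃ r ≤ q, ActN r.1 κ ∧ κ < x ∧
      ∀ s ≤ r, ¬ ((∃ i, K s.1 x κ i) ∨ Split s.1 x κ)
    swap
    · push Not at hn
      exact act q l x ⟨hx, fun _ => hc.mono hD, fun _ κ hκ r hr g => hn κ r hr g hκ,
        fun h => by simp [hk] at h, fun h => by simp [hk] at h⟩ hs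
    obtain ⟨κ, ⟨r, hr, ha, hκ, hn⟩, hmin⟩ := (wellFounded_lt (α := O)).has_min _ hn
    have hκp := (r.proper ha.2).path
    refine ⟨r, hr.trans l, κ, ha.2, (hs.le hr).trans ⟨fun s hs μ m g => ?_, fun s hs μ m g => ?_⟩⟩
    · obtain ⟨t, ht, g'⟩ := node_cmp ((fc_actN ha).mono hs) (hx.fc_act (hs.trans hr) g)
      have l2 := ht.trans hs
      rcases g' with rfl | ⟨i, g'⟩ | ⟨i, g'⟩ | ⟨ν, a, g1, g2⟩
      · exact absurd (Or.inl ⟨m, g⟩) (hn s hs)
      · by_cases e : i = m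
        · exact ⟨t, ht, e ▸ g'⟩
        · exact absurd (Or.inr ⟨μ, m, g.mono ht, bool_ne e ▸ g'⟩) (hn t l2)
      · obtain ⟨u, hu, g3⟩ := hx.down t (l2.trans hr) μ m κ i (g.mono ht) g'
        exact absurd (Or.inl ⟨i, g3⟩) (hn u (hu.trans l2))
      · obtain ⟨u, hu, g3⟩ := hx.down t (l2.trans hr) μ m ν _ (g.mono ht) g2
        exact absurd (Or.inr ⟨ν, _, g3, by simpa using g1.mono hu⟩) (hn u (hu.trans l2))
    · obtain ⟨t, ht, a1⟩ := hκp.act s hs μ m g
      obtain ⟨u, hu, g'⟩ : ∃ u ≤ t, (∃ i, K u.1 x μ i) ∨ Split u.1 x μ := by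
        by_contra hcon
        exact hmin μ ⟨t, ht.trans (hs.trans hr), a1, g.lt.trans hκ,
          fun u hu h => hcon ⟨u, hu, h⟩⟩ g.lt
      have l2 := hu.trans ht
      rcases g' with ⟨i, g'⟩ | ⟨ν, a, g1, g2⟩
      · by_cases e : i = m
        · exact ⟨u, l2, e ▸ g'⟩
        · exact absurd (Or.inr ⟨μ, i, g', bool_ne (Ne.symm e) ▸ g.mono l2⟩) (hn u (l2.trans hs))
      · obtain ⟨v, hv, g3⟩ := hκp.down u (l2.trans hs) μ m ν _ (g.mono l2) g2
        exact absurd (Or.inr ⟨ν, a, g1.mono hv, g3⟩) (hn v (hv.trans (l2.trans hs)))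
  · obtain ⟨x, hk, hs, -⟩ := exists_code (hF.le hq1) hα false
    have hx := hs.isPath (hF.le hq1)
    have hu : Unc (fun s => K s.1 x) q1 := by
      intro T hT r hr
      by_contra hcon
      refine hc ⟨r, hr, hT.mono ?_⟩
      rintro κ ⟨s, hs', i, g⟩
      obtain ⟨t, ht, g'⟩ := hs.fwd s (hs'.trans hr) κ i g
      by_contra hκ
      exact hcon ⟨t, ht.trans hs', κ, i, hκ, g'⟩
    by_cases hn : ∃ j, ∃ r ≤ q1, ActB r.1 j ∧ ∀ s ≤ r, ¬ Split s.1 x j
    swap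
    · push Not at hn
      exact act q1 hq1 x ⟨hx, fun h => by simp [hk] at h, fun h => by simp [hk] at h, fun _ => hu,
        fun _ j _ r hr g => hn j r hr g⟩ hs
    obtain ⟨j, r, hr, ha, hn⟩ := hn
    have hj := r.proper ha.2
    exact ⟨r, hr.trans hq1, j, ha.2, (hs.le hr).trans
      ⟨sub_of_no_split (hx.le hr) hj.path (hj.unc ha.1) hn,
        sub_of_no_split hj.path (hx.le hr) (fun T hT s hs => hu T hT s (hs.trans hr))
          fun s hs g => hn s hs g.symm⟩⟩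

end Pool.Agent.P.MP_63de32_gt
end

-- part Pool.Agent.P.MP_63de32_gt.Comb
section

set_option autoImplicit false

/-! Compactness, density and sequential closedness of the natural numbers, combinatorially. -/

open Pool.Agent.Lib.PosetForcing

namespace Pool.Agent.P.MP_63de32_gt

/-- points of the space -/
def Act (p : C) : Pt → Prop
  | .nat _ => True
  | .br j => ActB p j
  | .cone _ _ => False

theorem Act.mono {p q : C} {z : Pt} (h : Act p z) (hq : q ≤ p) : Act q z := by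
  cases z with
  | nat n => trivial
  | br j => exact ActB.mono h hq
  | cone x b => exact h

theorem Act.pth {p : PP} {z : Pt} (h : Act p.1 z) : Pth z p := by
  cases z with
  | nat n => exact pth_nat n p
  | br j => exact pth_br (p.proper h.2)
  | cone x b => exact h.elim

theorem pt_total {p : PP} {z : Pt} (h : Act p.1 z) {x : O} (hx : Fc p fun r => ActN r x) :
    ∃ s ≤ p, ∃ b, Sd s.1 z (.inr x) b := by
  cases z with
  | nat n => exact sd_total x p h.pth hx (Or.inl ⟨n, rfl⟩)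
  | br j =>
    obtain ⟨s, hs, g⟩ := (p.proper h.2).path.cmp_unc ((p.proper h.2).unc h.1) le_rfl hx
    obtain ⟨t, ht, g'⟩ := sd_total x s (h.pth.le hs) (hx.mono hs) (Or.inr g)
    exact ⟨t, ht.trans hs, g'⟩
  | cone x b => exact h.elim

/-- codes of basic sets -/
abbrev Cd : Type 1 := Finset (Gn × Bool)

/-- the cone has a small canonical neighbourhood -/
def SmC (Sm : PP → Cd → Prop) (t : Pt) (r : PP) : Prop := ∃ e, Nb r.1 t e ∧ Sm r e

/-- the cone is forced to have no small canonical neighbourhood -/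
def Pos (Sm : PP → Cd → Prop) (t : Pt) (r : PP) : Prop := ∀ s ≤ r, ¬ SmC Sm t s

theorem SmC.mono {Sm : PP → Cd → Prop} (hm : ∀ p q e, q ≤ p → Sm p e → Sm q e) {t : Pt}
    {r s : PP} (h : SmC Sm t r) (hs : s ≤ r) : SmC Sm t s := by
  obtain ⟨e, h1, h2⟩ := h
  exact ⟨e, h1.mono hs, hm _ _ _ hs h2⟩

theorem Pos.mono {Sm : PP → Cd → Prop} {t : Pt} {r s : PP} (h : Pos Sm t r) (hs : s ≤ r) :
    Pos Sm t s := fun u hu => h u (hu.trans hs)

theorem Pos.of_dn {Sm : PP → Cd → Prop} (hm : ∀ p q e, q ≤ p → Sm p e → Sm q e) {t : Pt}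
    {r : PP} (h : ∀ s ≤ r, ∃ u ≤ s, Pos Sm t u) : Pos Sm t r := fun s hs g => by
  obtain ⟨u, hu, g'⟩ := h s hs
  exact g' u le_rfl (g.mono hm hu)

/-- a neighbourhood code on a path is a neighbourhood code of a cone of the path -/
theorem Nb.top {z : Pt} {p : PP} (hz : Pth z p) {e : Cd} (h : Nb p.1 z e) :
    (∀ g ∈ e, ∃ n, g = (.inl n, false)) ∨
      ∃ s ≤ p, ∃ κ i, KP s.1 z κ i ∧ Nb s.1 (.cone κ i) e := by
  classical
  let T : Set (O × Bool) := {x | (Sum.inr x.1, x.2) ∈ e}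
  have hT : T.Finite := e.finite_toSet.preimage (f := fun x : O × Bool => (Sum.inr x.1, x.2))
    fun a _ b _ hab => by simpa [Prod.ext_iff] using hab
  rcases T.eq_empty_or_nonempty with h1 | h1
  · refine Or.inl ?_
    rintro ⟨n | κ, b⟩ hg
    · obtain rfl : b = false := h _ hg
      exact ⟨n, rfl⟩
    · exact absurd (show (κ, b) ∈ T from hg) (by simp [h1])
  · obtain ⟨x, hx, hmax⟩ := T.exists_max_image Prod.fst hT h1
    have hx' : KP p.1 z x.1 x.2 := h _ hx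
    obtain ⟨s, hs, g⟩ := fin_dn e.finite_toSet (p := p)
      (Φ := fun g s => GenP s.1 (.cone x.1 x.2) g) (fun _ _ _ hs g => g.mono hs) (by
        rintro ⟨n | κ, b⟩ hg r hr
        · exact ⟨r, le_rfl, h _ hg⟩
        · have h2 : KP r.1 z κ b := KP.mono (h _ hg) hr
          rcases (hmax (κ, b) hg).lt_or_eq with hl | hl
          · obtain ⟨s, hs, g⟩ := hz.lin r hr _ _ _ _ hl (hx'.mono hr) h2
            exact ⟨s, hs, Or.inl g⟩
          · obtain rfl : κ = x.1 := hl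
            exact ⟨r, le_rfl, Or.inr ⟨rfl, IsPath.eq hz hr h2 (hx'.mono hr)⟩⟩)
    exact Or.inr ⟨s, hs, x.1, x.2, hx'.mono hs, g⟩

theorem compact_comb (Sm : PP → Cd → Prop) (hm : ∀ p q e, q ≤ p → Sm p e → Sm q e) (p0 : PP)
    (sub2 : ∀ (p : PP) e e1 e2, (∀ q ≤ p, ∀ z, Act q.1 z → InB q.1 z e →
      ∃ r ≤ q, InB r.1 z e1 ∨ InB r.1 z e2) → Sm p e1 → Sm p e2 → Sm p e)
    (pt : ∀ q ≤ p0, ∀ z, Act q.1 z → ∃ r ≤ q, ∃ e, InB r.1 z e ∧ Sm r e) : ∃ q ≤ p0, Sm q ∅ := by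
  classical
  by_contra hcon
  have natrem : ∀ e : Cd, (∀ g ∈ e, ∃ n, g = (.inl n, false)) → ∀ r ≤ p0, ¬ Sm r e := by
    intro e
    induction e using Finset.induction_on with
    | empty => exact fun _ r hr h => hcon ⟨r, hr, h⟩
    | insert g e _ ih =>
      intro he r hr h
      obtain ⟨n, rfl⟩ := he g (Finset.mem_insert_self _ _)
      obtain ⟨s, hs, e', h1, h2⟩ := pt r hr (.nat n) trivial
      refine ih (fun g hg => he g (Finset.mem_insert_of_mem hg)) s (hs.trans hr)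
        (sub2 s e _ e' (fun q hq z _ hz => ⟨q, le_rfl, ?_⟩) (hm _ _ _ hs h) h2)
      by_cases hzn : z = .nat n
      · exact Or.inr (hzn ▸ h1.mono hq)
      · refine Or.inl fun g hg => ?_
        rcases Finset.mem_insert.1 hg with rfl | hg
        · exact .natF n hzn
        · exact hz g hg
  let Good : PP → O → Bool → Prop := fun r κ i =>
    Pos Sm (.cone κ i) r ∧ (i = true → Dn (SmC Sm (.cone κ false)) r)
  have gm : ∀ r s κ i, s ≤ r → Good r κ i → Good s κ i := fun r s κ i hs g =>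
    ⟨g.1.mono hs, fun h => (g.2 h).mono hs⟩
  have gd : ∀ r κ i, (∀ s ≤ r, ∃ u ≤ s, Good u κ i) → Good r κ i := fun r κ i g =>
    ⟨Pos.of_dn hm fun s hs => (g s hs).imp fun _ h => ⟨h.1, h.2.1⟩,
      fun h => Dn.dn fun s hs => (g s hs).imp fun _ h' => ⟨h'.1, h'.2.2 h⟩⟩
  have ge : ∀ r κ i j, Good r κ i → Good r κ j → i = j := by
    have : ∀ r κ, Good r κ true → Good r κ false → False := fun r κ g1 g2 => by
      obtain ⟨s, hs, g⟩ := g1.2 rfl r le_rfl
      exact g2.1 s hs g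
    intro r κ i j g1 g2
    cases i <;> cases j
    · rfl
    · exact (this r κ g2 g1).elim
    · exact (this r κ g1 g2).elim
    · rfl
  let F : PP → O → Bool → Prop := fun r κ i => (Fc r fun s => ActN s κ) ∧ Good r κ i ∧
    ∀ s ≤ r, ∀ μ m, K s.1 κ μ m → Good s μ m
  have hF : IsPath F p0 := by
    refine ⟨fun r s κ i hs g => ⟨g.1.mono hs, gm _ _ _ _ hs g.2.1,
      fun u hu => g.2.2 u (hu.trans hs)⟩, fun r _ κ i g => g.1 r le_rfl,
      fun r _ κ g1 g2 => by simpa using ge _ _ _ _ g1.2.1 g2.2.1, fun r _ κ i μ m g1 g2 => ?_,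
      fun r _ κ i μ m hl g1 g2 => ?_⟩
    · refine ⟨r, le_rfl, g1.1.proper.path.fc_act le_rfl g2, g1.2.2 r le_rfl μ m g2,
        fun s hs ν a g3 => gd _ _ _ fun u hu => ?_⟩
      obtain ⟨v, hv, g4⟩ := g1.1.proper.path.down u (hu.trans hs) μ m ν a
        (g2.mono (hu.trans hs)) (g3.mono hu)
      exact ⟨v, hv, g1.2.2 v (hv.trans (hu.trans hs)) ν a g4⟩
    · obtain ⟨s, hs, g⟩ := node_cmp g1.1 g2.1
      rcases g with rfl | ⟨a, g⟩ | ⟨a, g⟩ | ⟨ν, a, g3, g4⟩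
      · exact absurd hl (lt_irrefl _)
      · exact ⟨s, hs, ge _ _ _ _ (g1.2.2 s hs μ a g) (gm _ _ _ _ hs g2.2.1) ▸ g⟩
      · exact absurd (hl.trans g.lt) (lt_irrefl _)
      · simpa using ge _ _ _ _ (g1.2.2 s hs ν a g3) (g2.2.2 s hs ν _ g4)
  obtain ⟨r, hr, x, hx, hs⟩ := capture hF
  have hp : Pth (.br x) r := pth_br (r.proper hx)
  have top : ∀ s ≤ r, ∀ e, Nb s.1 (.br x) e → ¬ Sm s e := by
    intro s hsr e h1 h2
    rcases h1.top (hp.le hsr) with h3 | ⟨t, ht, κ, i, h3, h4⟩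
    · exact natrem e h3 s (hsr.trans hr) h2
    · obtain ⟨u, hu, h5⟩ := hs.bwd t (ht.trans hsr) κ i h3
      exact h5.2.1.1 u le_rfl ⟨e, h4.mono hu, hm _ _ _ (hu.trans ht) h2⟩
  rcases hk : kind x with _ | _
  · obtain ⟨s, hsr, e, h1, h2⟩ := pt r hr (.br x) ⟨hk, hx⟩
    obtain ⟨e', h3, h4⟩ := h1.nb (by simp)
    exact top s hsr e' h3
      (sub2 s e' e e (fun q hq z _ hz => ⟨q, le_rfl, Or.inl (h4 q.1 hq z hz)⟩) h2 h2)
  have ha : Fc r fun s => ActN s x := fc_actN ⟨hk, hx⟩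
  suffices h : ∃ s ≤ r, ∃ i, Good s x i by
    obtain ⟨s, hsr, i, g⟩ := h
    obtain ⟨t, -, g'⟩ := hs.fwd s hsr x i ⟨ha.mono hsr, g, fun u hu μ m g1 => gd _ _ _
      fun v hv => (hs.bwd v (hv.trans (hu.trans hsr)) μ m (g1.mono hv)).imp
        fun _ h => ⟨h.1, h.2.2.1⟩⟩
    exact lt_irrefl _ g'.lt
  by_cases h0 : ∃ s ≤ r, Pos Sm (.cone x false) s
  · obtain ⟨s, hsr, g⟩ := h0
    exact ⟨s, hsr, false, g, by simp⟩
  have h0' : Dn (SmC Sm (.cone x false)) r := fun s hsr => by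
    by_contra g
    exact h0 ⟨s, hsr, fun u hu g' => g ⟨u, hu, g'⟩⟩
  refine ⟨r, le_rfl, true, fun s hsr ⟨e2, b1, b2⟩ => ?_, fun _ => h0'⟩
  obtain ⟨t, ht, e1, a1, a2⟩ := h0' s hsr
  have key : ∀ (b : Bool) (e' : Cd), Nb t.1 (.cone x b) e' → e' ⊆ e1 ∪ e2 → ∀ q : PP, ∀ z,
      InB q.1 z ((e1 ∪ e2).filter fun g => g.1 ≠ .inr x) → Sd q.1 z (.inr x) b → InB q.1 z e' := by
    rintro b e' h1 h2 q z h3 h4 ⟨g, c⟩ hg
    by_cases e : g = .inr x
    · subst e
      rcases h1 _ hg with h5 | ⟨-, rfl⟩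
      · exact absurd h5.lt (lt_irrefl _)
      · exact h4
    · exact h3 _ (Finset.mem_filter.2 ⟨h2 hg, e⟩)
  refine top t (ht.trans hsr) ((e1 ∪ e2).filter fun g => g.1 ≠ .inr x) ?_
    (sub2 t _ e1 e2 (fun q hq z hz h3 => ?_) a2 (hm _ _ _ ht b2))
  · rintro ⟨n | κ, c⟩ hg
    · exact (Finset.mem_union.1 (Finset.mem_filter.1 hg).1).elim (a1 _) (b1 _)
    · have hne : κ ≠ x := by simpa using (Finset.mem_filter.1 hg).2
      rcases Finset.mem_union.1 (Finset.mem_filter.1 hg).1 with h | h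
      · exact (a1 _ h).resolve_right fun g => hne g.1
      · exact K.mono ((b1 _ h).resolve_right fun g => hne g.1) ht
  · obtain ⟨u, hu, b, hb⟩ := pt_total hz (ha.mono (hq.trans (ht.trans hsr)))
    cases b
    · exact ⟨u, hu, Or.inl (key _ e1 a1 Finset.subset_union_left u z (h3.mono hu) hb)⟩
    · exact ⟨u, hu, Or.inr (key _ e2 (b1.mono ht) Finset.subset_union_right u z (h3.mono hu) hb)⟩

theorem exists_branch (p : PP) : ∃ r ≤ p, ∃ j, ActB r.1 j := by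
  let F : PP → O → Bool → Prop := fun r κ i => (Fc r fun s => ActN s κ) ∧ i = false ∧
    ∀ s ≤ r, ∀ μ m, K s.1 κ μ m → m = false
  have hF : IsPath F p := by
    refine ⟨fun r s κ i hs g => ⟨g.1.mono hs, g.2.1, fun u hu => g.2.2 u (hu.trans hs)⟩,
      fun r _ κ i g => g.1 r le_rfl, fun r _ κ g1 _ => by simpa using g1.2.1,
      fun r _ κ i μ m g1 g2 => ?_, fun r _ κ i μ m hl g1 g2 => ?_⟩
    · refine ⟨r, le_rfl, g1.1.proper.path.fc_act le_rfl g2, g1.2.2 r le_rfl μ m g2,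
        fun s hs ν a g3 => ?_⟩
      obtain ⟨v, hv, g4⟩ := g1.1.proper.path.down s hs μ m ν a (g2.mono hs) g3
      exact g1.2.2 v (hv.trans hs) ν a g4
    · obtain ⟨s, hs, g⟩ := node_cmp g1.1 g2.1
      rcases g with rfl | ⟨a, g⟩ | ⟨a, g⟩ | ⟨ν, a, g3, g4⟩
      · exact absurd hl (lt_irrefl _)
      · exact ⟨s, hs, ((g1.2.2 s hs μ a g).trans g2.2.1.symm) ▸ g⟩
      · exact absurd (hl.trans g.lt) (lt_irrefl _)
      · have := g2.2.2 s hs ν _ g4
        simp [g1.2.2 s hs ν a g3] at this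
  obtain ⟨r, hr, x, hx, hs⟩ := capture hF
  rcases hk : kind x with _ | _
  · exact ⟨r, hr, x, hk, hx⟩
  · obtain ⟨t, -, g'⟩ := hs.fwd r le_rfl x false ⟨fc_actN ⟨hk, hx⟩, rfl, fun u hu μ m g1 =>
      (hs.bwd u hu μ m g1).elim fun _ h => h.2.2.1⟩
    exact absurd g'.lt (lt_irrefl _)

theorem fit_top (p : PP) : Fit ∅ p ⊤ := by
  refine ⟨?_, by simp, by simp⟩
  rintro z ((h | ⟨h, e, he, -⟩) | ⟨j, c, hc, -⟩)
  · exact h rfl
  · obtain ⟨y, hy, -⟩ := mem_lst he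
    exact absurd hy (by simp [show (⊤ : PP).1.f h = none from rfl])
  · obtain ⟨y, hy, -⟩ := mem_col hc
    exact absurd hy (by simp [show (⊤ : PP).1.f j = none from rfl])

theorem cd_nat_finite (e : Cd) : {n | ∃ b, (Sum.inl n, b) ∈ e}.Finite :=
  ((e.finite_toSet.image Prod.fst).preimage Sum.inl_injective.injOn).subset
    fun _ ⟨_, h⟩ => ⟨_, h, rfl⟩

theorem cd_node_finite (e : Cd) : {x | ∃ b, (Sum.inr x, b) ∈ e}.Finite :=
  ((e.finite_toSet.image Prod.fst).preimage Sum.inr_injective.injOn).subset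
    fun _ ⟨_, h⟩ => ⟨_, h, rfl⟩

theorem dense_nat {p : PP} {j : O} (hj : ActB p.1 j) {e : Cd} (h : InB p.1 (.br j) e) :
    ∃ r ≤ p, ∃ n, InB r.1 (.nat n) e := by
  obtain ⟨e', h1, h2⟩ := h.nb (by simp)
  obtain ⟨n, hn⟩ := ((nment_finite p.1).union (cd_nat_finite e')).exists_notMem
  obtain ⟨r, r1, -, -, r4⟩ := sal2 (N := ∅) (fun _ h => h.elim) (le_refl p) le_top 0 (fit_top p)
    (pth_br (p.proper hj.2)) (cd_node_finite e').toFinset ∅ n (by simp)
  obtain ⟨s, hs, g⟩ := fin_dn e'.finite_toSet (p := r)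
    (Φ := fun g s => Sd s.1 (.nat n) g.1 g.2) (fun _ _ _ hs g => g.mono hs) (by
      rintro ⟨m | κ, b⟩ hg
      · obtain rfl : b = false := h1 _ hg
        exact fc_sd (.natF m fun e => hn (Or.inr ⟨false, by
          obtain rfl : n = m := by simpa using e
          exact hg⟩))
      · exact r4 _ (Or.inl ⟨rfl, fun h => hn (Or.inl h)⟩) (by simp) κ b
          (Or.inr ((cd_node_finite e').mem_toFinset.2 ⟨b, hg⟩)) (by simp) zero_le
          (fc_K (h1 _ hg)))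
  exact ⟨s, hs.trans r1, n, h2 s.1 (hs.trans r1) _ g⟩

theorem seq_closed (Sq : PP → ℕ → ℕ → Prop) (hm : ∀ p q k n, q ≤ p → Sq p k n → Sq q k n)
    (p0 : PP) {j : O} (hj : ActB p0.1 j) (tot : ∀ q ≤ p0, ∀ k, ∃ r ≤ q, ∃ n, Sq r k n)
    (cv : ∀ q ≤ p0, ∀ e, InB q.1 (.br j) e → ∃ r ≤ q, ∃ m, ∀ s ≤ r, ∀ k, m ≤ k → ∀ n,
      Sq s k n → ∃ t ≤ s, InB t.1 (.nat n) e) : False := by
  classical
  obtain ⟨N, -, hNc, hN, hre⟩ := (club_dclosed.and (club_reflect'
    (Θ := (ℕ × ℕ) × Finset (O × Bool)) (W := Unit) (fun θ => Prod.fst '' (θ.2 : Set (O × Bool)))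
    (fun θ => θ.2.finite_toSet.image _)
    (fun N hN => by
      refine ((Set.countable_univ (α := ℕ × ℕ)).prod
        (countable_finsets (hN.prod (Set.countable_univ (α := Bool))))).mono fun θ hθ => ?_
      exact ⟨trivial, fun x hx => ⟨hθ ⟨x, hx, rfl⟩, trivial⟩⟩)
    (fun θ q _ => Sq q θ.1.1 θ.1.2 ∧ ∀ g ∈ θ.2, Sd q.1 (.nat θ.1.2) (.inr g.1) g.2)
    (fun θ q q' w hq g => ⟨hm _ _ _ _ hq g.1, fun x hx => (g.2 x hx).mono hq⟩)
    (fun _ => ∅) fun _ => Set.countable_empty)).exists Set.countable_empty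
  have hp := p0.proper hj.2
  obtain ⟨p1, hp1, h0, i0, hh0, g0⟩ := hp.unc hj.1 N hNc p0 le_rfl
  obtain ⟨pa, hpa, m, h1⟩ := cv p1 hp1 {(.inr h0, i0)} (by
    intro g hg
    obtain rfl := Finset.mem_singleton.1 hg
    exact .on _ _ g0)
  have la := hpa.trans hp1
  have hx0 : Pth (.cone h0 (!i0)) pa := pth_cone ((hp.path.fc_act hp1 g0).mono hpa) _
  let L : Finset (O × Bool) := ((ment_finite pa.1).toFinset ×ˢ Finset.univ).filter
    fun g => g.1 ∈ N ∧ Dn (fun r : PP => KP r.1 (.cone h0 (!i0)) g.1 g.2) pa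
  have hL : ∀ g, g ∈ L ↔ g.1 ∈ ment pa.1 ∧ g.1 ∈ N ∧
      Dn (fun r : PP => KP r.1 (.cone h0 (!i0)) g.1 g.2) pa := by simp [L]
  let e0 : Cd := L.image (fun g => (.inr g.1, g.2)) ∪
    (nment_finite pa.1).toFinset.image fun n => (.inl n, false)
  obtain ⟨q1, hq1, a1⟩ := fin_dn e0.finite_toSet (p := pa)
    (Φ := fun g s => Sd s.1 (.br j) g.1 g.2) (fun _ _ _ hs g => g.mono hs) (by
      intro g hg r hr
      rcases Finset.mem_union.1 hg with hg | hg
      · obtain ⟨x, hx, rfl⟩ := Finset.mem_image.1 hg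
        obtain ⟨-, b2, b3⟩ := (hL x).1 hx
        obtain ⟨s, hs, b4 | ⟨b4, -⟩⟩ := b3 r hr
        · obtain ⟨t, ht, b5⟩ := hp.path.down s (hs.trans (hr.trans la)) h0 i0 _ _
            (g0.mono (hs.trans (hr.trans hpa))) b4
          exact ⟨t, ht.trans hs, .on _ _ b5⟩
        · exact absurd (b4 ▸ b2) hh0
      · obtain ⟨n, -, rfl⟩ := Finset.mem_image.1 hg
        exact ⟨r, le_rfl, .natF n (by simp)⟩)
  obtain ⟨q2, hq2, m0, a2⟩ := cv q1 (hq1.trans la) e0 a1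
  obtain ⟨q3, hq3, n, a3⟩ := tot q2 (hq2.trans (hq1.trans la)) (max m m0)
  obtain ⟨q4, hq4, a4⟩ := a2 q3 hq3 _ (le_max_right _ _) n a3
  obtain ⟨pb, -, pc, ⟨b1, b2⟩, -, b3, b4, b5⟩ := hre ((max m m0, n), L)
    (by rintro z ⟨g, hg, rfl⟩; exact ((hL g).1 hg).2.1) pa q4
    (hq4.trans (hq3.trans (hq2.trans hq1))) ()
    ⟨hm _ _ _ _ hq4 a3, fun g hg => a4 (.inr g.1, g.2)
      (Finset.mem_union_left _ (Finset.mem_image.2 ⟨g, hg, rfl⟩))⟩
  obtain ⟨r, r1, r2, -, r4⟩ := sal2 hN (b3.trans (hq4.trans (hq3.trans (hq2.trans hq1)))) b4 0 b5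
    hx0 {h0} ∅ n (by simp)
  obtain ⟨s, hs, c1⟩ := r4 _ (Or.inl ⟨rfl, fun h => by
      have := a4 (.inl n, false) (Finset.mem_union_right _ (Finset.mem_image.2
        ⟨n, (nment_finite pa.1).mem_toFinset.2 h, rfl⟩))
      simpa using sd_inl this⟩)
    (fun g s g1 g2 g3 => fc_sd ((b2 (g, s) ((hL _).2
      ⟨g1, g2.resolve_right (not_lt.2 zero_le), g3⟩)).mono r2)) h0 (!i0)
    (Or.inr (Finset.mem_singleton_self _)) hh0 zero_le
    (fun r _ => ⟨r, le_rfl, Or.inr ⟨rfl, rfl⟩⟩) r le_rfl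
  obtain ⟨t, ht, c2⟩ := h1 s (hs.trans r1) _ (le_max_left _ _) n (hm _ _ _ _ (hs.trans r2) b1)
  exact (pth_nat n t).cons (c2 (.inr h0, i0) (Finset.mem_singleton_self _)) (c1.mono ht)

end Pool.Agent.P.MP_63de32_gt
end

-- part Pool.Agent.P.MP_63de32_gt.Claim
section

set_option autoImplicit false

/-! Minimal small cones lie along branches coded in closed sets. -/

open Pool.Agent.Lib.PosetForcing

namespace Pool.Agent.P.MP_63de32_gt

/-- a family of forced small basic sets -/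
structure IsSm (Sm : PP → Cd → Prop) : Prop where
  mono : ∀ p q e, q ≤ p → Sm p e → Sm q e
  sub : ∀ (p : PP) e e', (∀ q : PP, q ≤ p → ∀ z, InB q.1 z e' → InB q.1 z e) → Sm p e → Sm p e'

theorem IsSm.smc {Sm : PP → Cd → Prop} (h : IsSm Sm) {r : PP} {y : Pt} (hy : ∀ n, y ≠ .nat n)
    {e : Cd} (h1 : InB r.1 y e) (h2 : Sm r e) : SmC Sm y r := by
  obtain ⟨e', h3, h4⟩ := h1.nb hy
  exact ⟨e', h3, h.sub r e e' (fun q hq z => h4 q.1 hq z) h2⟩

/-- all cones on the path to the node `μ` are forced not to be small -/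
def IsA (Sm : PP → Cd → Prop) (μ : O) (p : PP) : Prop :=
  (Fc p fun r => ActN r μ) ∧ ∀ s ≤ p, ∀ κ i, K s.1 μ κ i → Pos Sm (.cone κ i) s

theorem IsA.mono {Sm : PP → Cd → Prop} {μ : O} {p q : PP} (h : IsA Sm μ p) (hq : q ≤ p) :
    IsA Sm μ q := ⟨h.1.mono hq, fun s hs => h.2 s (hs.trans hq)⟩

/-- the part in `N` of the path coded at `x` is forced to lie on the path coded at `j` -/
def Agree (N : Set O) (x j : O) (r : PP) : Prop :=
  ∀ s ≤ r, ∀ κ ∈ N, ∀ i, K s.1 x κ i → ∃ t ≤ s, K t.1 j κ i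

theorem Agree.mono {N : Set O} {x j : O} {r s : PP} (h : Agree N x j r) (hs : s ≤ r) :
    Agree N x j s := fun u hu => h u (hu.trans hs)

theorem Agree.sub {N N' : Set O} {x j : O} {r : PP} (h : Agree N x j r) (hN : N' ⊆ N) :
    Agree N' x j r := fun u hu κ hκ => h u hu κ (hN hκ)

theorem Agree.trans {N : Set O} {x j l : O} {r : PP} (h : Agree N x j r) (h' : Agree N j l r) :
    Agree N x l r := fun u hu κ hκ i g => by
  obtain ⟨t, ht, g1⟩ := h u hu κ hκ i g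
  obtain ⟨v, hv, g2⟩ := h' t (ht.trans hu) κ hκ i g1
  exact ⟨v, hv.trans ht, g2⟩

/-- the path coded at `x` is comparable with all nodes of `N` -/
def CmpN (N : Set O) (x : O) (p : PP) : Prop := ∀ s ≤ p, ∀ μ ∈ N, (Fc s fun r => ActN r μ) →
  ∃ t ≤ s, (∃ i, K t.1 x μ i) ∨ ∃ ν a, K t.1 μ ν a ∧ K t.1 x ν (!a)

theorem cmpN_br (N : Set O) {j : O} {p : PP} (h : ActB p.1 j) : CmpN N j p := fun _ hs _ _ g =>
  (p.proper h.2).path.cmp_unc ((p.proper h.2).unc h.1) hs g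

theorem cmpN_node {N : Set O} (hN : DClosed N) {x : O} {p : PP} (h : Fc p fun r => ActN r x)
    (hx : x ∉ N) : CmpN N x p := fun s hs μ hμ g => by
  obtain ⟨t, ht, g'⟩ := node_cmp (h.mono hs) g
  rcases g' with rfl | g' | ⟨i, g'⟩ | g'
  · exact absurd hμ hx
  · exact ⟨t, ht, Or.inl g'⟩
  · exact absurd (hN μ hμ (g.proper.cnt g.kind) g'.mem) hx
  · exact ⟨t, ht, Or.inr g'.symm⟩

theorem Agree.symm {N : Set O} (hN : DClosed N) {x j : O} {p : PP} (h : Agree N x j p)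
    (hc : CmpN N x p) (hj : Proper j p) : Agree N j x p := fun s hs κ hκ i g => by
  have ha := hj.path.fc_act hs g
  obtain ⟨t, ht, g'⟩ := hc s hs κ hκ ha
  rcases g' with ⟨i', g'⟩ | ⟨ν, a, g1, g2⟩
  · obtain ⟨u, hu, g3⟩ := h t (ht.trans hs) κ hκ i' g'
    exact ⟨t, ht, hj.path.eq (hu.trans (ht.trans hs)) g3 (g.mono (hu.trans ht)) ▸ g'⟩
  · obtain ⟨u, hu, g3⟩ := h t (ht.trans hs) ν (hN κ hκ (ha.proper.cnt ha.kind) g1.mem) _ g2
    obtain ⟨v, hv, g4⟩ := hj.path.down u (hu.trans (ht.trans hs)) κ i ν a (g.mono (hu.trans ht))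
      (g1.mono hu)
    exact (hj.path.not_both (hv.trans (hu.trans (ht.trans hs))) g4 (g3.mono hv)).elim

theorem exists_split {p : PP} {j j' : O} (h : ActB p.1 j) (h' : ActB p.1 j') (hne : j ≠ j') :
    ∃ q ≤ p, Split q.1 j j' := by
  rcases lt_or_gt_of_ne hne with hl | hl
  · obtain ⟨q, hq, g⟩ := (p.proper h'.2).newB h'.1 j hl p le_rfl h
    exact ⟨q, hq, g.symm⟩
  · exact (p.proper h.2).newB h.1 j' hl p le_rfl h'

theorem Agree.eq {N : Set O} {j j' : O} {p : PP} (h : Agree N j j' p) (hs : SplitIn N j j')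
    (hj : ActB p.1 j) (hj' : ActB p.1 j') : j = j' := by
  by_contra hne
  obtain ⟨q, hq, g⟩ := exists_split hj hj' hne
  obtain ⟨μ, hμ, m, r, hr, g1, g2⟩ := hs q g
  obtain ⟨t, ht, g3⟩ := h r (hr.trans hq) μ hμ m g1
  exact (p.proper hj'.2).path.not_both (ht.trans (hr.trans hq)) g3 (g2.mono ht)

/-- a step of the stem above `L` -/
def OKs (Sm : PP → Cd → Prop) (L : Finset (O × Bool)) (μ : O) (m : Bool) (r : PP) : Prop :=
  (∃ g ∈ L, g = (μ, m) ∨ K r.1 g.1 μ m) ∨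
    ((∀ g ∈ L, K r.1 μ g.1 g.2) ∧ Pos Sm (.cone μ m) r ∧ SmC Sm (.cone μ (!m)) r)

theorem OKs.mono {Sm : PP → Cd → Prop} (h : IsSm Sm) {L : Finset (O × Bool)} {μ : O} {m : Bool}
    {r s : PP} (g : OKs Sm L μ m r) (hs : s ≤ r) : OKs Sm L μ m s := by
  rcases g with ⟨x, hx, g⟩ | ⟨g1, g2, g3⟩
  · exact Or.inl ⟨x, hx, g.imp id fun g => g.mono hs⟩
  · exact Or.inr ⟨fun x hx => (g1 x hx).mono hs, g2.mono hs, g3.mono h.mono hs⟩

/-- the stem above `L` -/
def Stem (Sm : PP → Cd → Prop) (L : Finset (O × Bool)) (r : PP) (κ : O) (i : Bool) : Prop :=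
  (Fc r fun s => ActN s κ) ∧ Dn (OKs Sm L κ i) r ∧
    ∀ s ≤ r, ∀ ν a, K s.1 κ ν a → Dn (OKs Sm L ν a) s

theorem stem_path {Sm : PP → Cd → Prop} (h : IsSm Sm) {L : Finset (O × Bool)} {x0 : Pt} {p : PP}
    (hx : Pth x0 p) (hL : ∀ g ∈ L, Dn (fun r : PP => KP r.1 x0 g.1 g.2) p) :
    IsPath (Stem Sm L) p := by
  have on : ∀ s ≤ p, ∀ ν a, (∃ g ∈ L, g = (ν, a) ∨ K s.1 g.1 ν a) → ∃ t ≤ s, KP t.1 x0 ν a := by
    rintro s hs ν a ⟨g, hg, rfl | h1⟩
    · exact hL _ hg s hs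
    · obtain ⟨t, ht, h2⟩ := hL g hg s hs
      obtain ⟨u, hu, h3⟩ := hx.down t (ht.trans hs) _ _ ν a h2 (h1.mono ht)
      exact ⟨u, hu.trans ht, h3⟩
  have mix : ∀ (s : PP) ν a, (∃ g ∈ L, g = (ν, a) ∨ K s.1 g.1 ν a) →
      (∀ g ∈ L, K s.1 ν g.1 g.2) → False := by
    rintro s ν a ⟨g, hg, rfl | h1⟩ h2
    · exact lt_irrefl _ (h2 _ hg).lt
    · exact lt_irrefl _ (h1.lt.trans (h2 _ hg).lt)
  have ex : ∀ s ≤ p, ∀ ν a, Dn (OKs Sm L ν a) s → Dn (OKs Sm L ν (!a)) s → False := by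
    intro s hs ν a h1 h2
    obtain ⟨t, ht, g1⟩ := h1 s le_rfl
    obtain ⟨u, hu, g2⟩ := h2 t ht
    have l := hu.trans (ht.trans hs)
    rcases g1.mono h hu with g1 | g1
    · rcases g2 with g2 | g2
      · obtain ⟨v, hv, a1⟩ := on u l _ _ g1
        obtain ⟨w, hw, a2⟩ := on v (hv.trans l) _ _
          (g2.imp fun _ g => ⟨g.1, g.2.imp id fun g => g.mono hv⟩)
        exact IsPath.not_both hx (hw.trans (hv.trans l)) (a1.mono hw) a2
      · exact mix u _ _ g1 g2.1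
    · rcases g2 with g2 | g2
      · exact mix u _ _ g2 g1.1
      · exact g2.2.1 u le_rfl g1.2.2
  refine ⟨fun r s κ i hs g => ⟨g.1.mono hs, g.2.1.mono hs, fun u hu => g.2.2 u (hu.trans hs)⟩,
    fun r _ κ i g => g.1 r le_rfl, fun r hr κ g1 g2 => ex r hr κ true g1.2.1 g2.2.1,
    fun r _ κ i μ m g1 g2 => ?_, fun r hr κ i μ m hl g1 g2 => ?_⟩
  · refine ⟨r, le_rfl, g1.1.proper.path.fc_act le_rfl g2, g1.2.2 r le_rfl μ m g2,
      fun s hs ν a g3 => Dn.dn fun u hu => ?_⟩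
    obtain ⟨v, hv, g4⟩ := g1.1.proper.path.down u (hu.trans hs) μ m ν a
      (g2.mono (hu.trans hs)) (g3.mono hu)
    exact ⟨v, hv, g1.2.2 v (hv.trans (hu.trans hs)) ν a g4⟩
  · obtain ⟨s, hs, g⟩ := node_cmp g1.1 g2.1
    rcases g with rfl | ⟨a, g⟩ | ⟨a, g⟩ | ⟨ν, a, g3, g4⟩
    · exact absurd hl (lt_irrefl _)
    · by_cases e : m = a
      · exact ⟨s, hs, e ▸ g⟩
      · exact (ex s (hs.trans hr) μ a (g1.2.2 s hs μ a g) (bool_ne e ▸ g2.2.1.mono hs)).elim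
    · exact absurd (hl.trans g.lt) (lt_irrefl _)
    · exact (ex s (hs.trans hr) ν a (g1.2.2 s hs ν a g3) (g2.2.2 s hs ν _ g4)).elim

/-- the properties of closed sets used for the colouring -/
structure Nice (Sm : PP → Cd → Prop) (N : Set O) : Prop where
  dc : DClosed N
  sp : ∀ i ∈ N, ∀ j ∈ N, SplitIn N i j
  sm : ∀ j ∈ N, ∀ (q : PP) κ i, K q.1 j κ i → SmC Sm (.cone κ i) q →
    ∃ r ≤ q, ∃ κ' ∈ N, ∃ i', K r.1 j κ' i' ∧ SmC Sm (.cone κ' i') r
  claim : ∀ (p : PP) μ m e, μ ∉ N → IsA Sm μ p → Nb p.1 (.cone μ m) e → Sm p e →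
    ∃ r ≤ p, ∃ j ∈ N, ActB r.1 j ∧ Agree N μ j r

theorem club_nice {Sm : PP → Cd → Prop} (hS : IsSm Sm) : Club (Nice Sm) := by
  classical
  have c1 := club_witness cc_univ (Θ := O) (W := O) (fun j => {j})
    (fun j => Set.finite_singleton j) (fun N hN => hN.mono fun j hj => hj rfl)
    (fun j q κ => ∃ i, K q.1 j κ i ∧ SmC Sm (.cone κ i) q) (fun _ _ _ _ => trivial)
    (fun κ => {κ}) fun κ => Set.countable_singleton κ
  have c2 := club_witness cc_univ (Θ := Finset (O × Bool)) (W := O)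
    (fun L => Prod.fst '' (L : Set (O × Bool))) (fun L => L.finite_toSet.image _)
    (fun N hN => (countable_finsets (hN.prod (Set.countable_univ (α := Bool)))).mono
      fun L hL x hx => And.intro (hL ⟨x, hx, rfl⟩) trivial)
    (fun L q x => q.1.f x ≠ none ∧ Same (Stem Sm L) x q) (fun _ _ _ _ => trivial)
    (fun κ => {κ}) fun κ => Set.countable_singleton κ
  have c3 := club_reflect' (Θ := O × Bool) (W := Unit) (fun θ => {θ.1})
    (fun θ => Set.finite_singleton _)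
    (fun N hN => (hN.prod (Set.countable_univ (α := Bool))).mono
      fun θ hθ => And.intro (hθ rfl) trivial)
    (fun θ q _ => Pos Sm (.cone θ.1 (!θ.2)) q) (fun θ q q' w hq g => g.mono hq)
    (fun _ => ∅) fun _ => Set.countable_empty
  refine (((club_dclosed.and club_split').and c1).and (c2.and c3)).imp ?_
  rintro N ⟨⟨⟨hN, hsp⟩, w1⟩, w2, w3⟩
  refine ⟨hN, hsp, fun j hj q κ i g1 g2 => ?_, fun p μ m e hμ hA he hSm => ?_⟩
  · obtain ⟨q', κ', ⟨i', a1, a2⟩, -, a3, r, r1, r2⟩ := w1 j (by simpa using hj) q κ ⟨i, g1, g2⟩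
    exact ⟨r, r2, κ', a3 rfl, i', a1.mono r1, a2.mono hS.mono r1⟩
  by_contra hcon
  have hx0 : Pth (.cone μ m) p := pth_cone hA.1 m
  have hμp := hA.1.proper.path
  let S : Finset O := (ment_finite p.1).toFinset ∪ (cd_node_finite e).toFinset
  let L : Finset (O × Bool) := (S ×ˢ Finset.univ).filter
    fun g => g.1 ∈ N ∧ Dn (fun r : PP => KP r.1 (.cone μ m) g.1 g.2) p
  have hL : ∀ g, g ∈ L ↔ g.1 ∈ S ∧ g.1 ∈ N ∧
      Dn (fun r : PP => KP r.1 (.cone μ m) g.1 g.2) p := by simp [L]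
  have he' : ∀ h s, (Sum.inr h, s) ∈ e → h ∈ S ∧
      Dn (fun r : PP => KP r.1 (.cone μ m) h s) p := fun h s hg =>
    ⟨Finset.mem_union_right _ ((cd_node_finite e).mem_toFinset.2 ⟨s, hg⟩),
      fun r hr => ⟨r, le_rfl, KP.mono (he _ hg) hr⟩⟩
  by_cases fork : ∃ pp ≤ p, ∃ α ∈ N, ∃ i, K pp.1 μ α i ∧ (∀ g ∈ L, K pp.1 α g.1 g.2) ∧
    Pos Sm (.cone α (!i)) pp
  · obtain ⟨pp, hpp, α, hα, i, f1, f2, f3⟩ := fork
    obtain ⟨h0, ⟨hh0, s0, hs0⟩, hmin⟩ := (wellFounded_lt (α := O)).has_min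
      {h | h ∉ N ∧ ∃ s, Dn (fun r : PP => KP r.1 (.cone μ m) h s) p}
      ⟨μ, hμ, m, fun r _ => ⟨r, le_rfl, Or.inr ⟨rfl, rfl⟩⟩⟩
    obtain ⟨pb, -, pc, b1, -, b3, b4, b5⟩ := w3 (α, i) (by simpa using hα) p pp hpp () f3
    obtain ⟨r, r1, r2, r3, r4⟩ := sal2 hN (b3.trans hpp) b4 h0 b5 hx0 S {(α, i)} 0
      (fun _ j hj hj' hk h hh s s' g1 g2 => hcon ⟨p, le_rfl, j, hj, ⟨hk, hj'⟩,
        fun u hu κ hκ a g => by
          obtain ⟨v, hv, g3⟩ := g1 u hu
          obtain ⟨w, hw, g4⟩ := g2 v (hv.trans hu)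
          have l := hw.trans (hv.trans hu)
          have g5 : KP w.1 (.cone μ m) κ a := Or.inl (g.mono (hw.trans hv))
          obtain ⟨w1, hw1, g6⟩ := hx0.lin w l h s κ a
            (IsPath.low_lt hN hx0 l hκ hh g5 (g3.mono hw)) (g3.mono hw) g5
          obtain ⟨w2, hw2, g7⟩ := (p.proper hj').path.down w1 (hw1.trans l) h s' κ a
            (g4.mono hw1) g6
          exact ⟨w2, hw2.trans (hw1.trans (hw.trans hv)), g7⟩⟩)
    have lc := b3.trans hpp
    have a1 : Dn (fun r : PP => KP r.1 (.cone μ m) α i) pc := fun u hu =>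
      ⟨u, le_rfl, Or.inl (f1.mono (hu.trans b3))⟩
    have hαh : α < h0 := IsPath.fc_low_lt hN (hx0.le lc) hα hh0 a1 (hs0.mono lc)
    have a2 : Fc r fun r => K r h0 α i :=
      ((IsPath.fc_lin (hx0.le lc) a1 (hs0.mono lc) hαh).restr (loc_K le_rfl _ _)).mono r3
    have a3 : ∀ g ∈ L, Fc r fun r => Sd r (.cone α (!i)) (.inr g.1) g.2 := fun g hg u hu => by
      obtain ⟨v, hv, g1⟩ := ((fc_K ((f2 g hg).mono b3)).restr (loc_K hαh.le _ _)).mono r3 u hu
      exact ⟨v, hv, .on _ _ (Or.inl g1)⟩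
    have a4 := r4 _ (Or.inr ⟨(α, i), Finset.mem_singleton_self _, rfl, fun h s _ h2 g => by
        rcases h2.lt_or_eq with h2 | rfl
        · exact ((IsPath.fc_act' hx0 g).mono r1).proper.path.fc_down
            ((IsPath.fc_lin hx0 hs0 g h2).mono r1) a2
        · exact a2⟩)
      (fun g s g1 g2 g3 => by
        have g4 : g ∈ N := by
          by_contra g4
          exact hmin g ⟨g4, s, g3⟩ (g2.resolve_left g4)
        exact a3 (g, s) ((hL _).2
          ⟨Finset.mem_union_left _ ((ment_finite p.1).mem_toFinset.2 g1), g4, g3⟩))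
    obtain ⟨s, hs, a5⟩ := fin_dn e.finite_toSet (p := r)
      (Φ := fun g s => Sd s.1 (.cone α (!i)) g.1 g.2) (fun _ _ _ hs g => g.mono hs) (by
        rintro ⟨n | h, b⟩ hg
        · obtain rfl : b = false := he _ hg
          exact fc_sd (.natF n (by simp))
        · obtain ⟨g1, g2⟩ := he' h b hg
          by_cases hh : h ∈ N
          · exact a3 (h, b) ((hL _).2 ⟨g1, hh, g2⟩)
          · exact a4 h b (Or.inr g1) hh (not_lt.1 (hmin h ⟨hh, b, g2⟩)) g2)
    exact b1 s (hs.trans r2) (hS.smc (by simp) a5 (hS.mono _ _ _ (hs.trans r1) hSm))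
  obtain ⟨r0, hr0, x, hx⟩ := capture (stem_path hS hx0 fun g hg => ((hL g).1 hg).2.2)
  obtain ⟨q', x', ⟨b1, b2⟩, -, b3, s, s1, s2⟩ := w2 L
    (by rintro z ⟨g, hg, rfl⟩; exact ((hL g).1 hg).2.1) r0 x hx
  have hx' : x' ∈ N := b3 rfl
  have ok : ∀ u ≤ p, ∀ κ ∈ N, ∀ i, K u.1 μ κ i → Dn (OKs Sm L κ i) u := by
    intro u hu κ hκ i g v hv
    have l := hv.trans hu
    by_cases h1 : ∃ c ∈ L, κ ≤ c.1
    · obtain ⟨c, hc, h1⟩ := h1
      obtain ⟨w, hw, h2⟩ := ((hL c).1 hc).2.2 v l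
      have h3 : KP w.1 (.cone μ m) κ i := Or.inl (g.mono (hw.trans hv))
      rcases h1.lt_or_eq with h1 | h1
      · obtain ⟨w1, hw1, h4⟩ := hx0.lin w (hw.trans l) _ _ _ _ h1 h2 h3
        exact ⟨w1, hw1.trans hw, Or.inl ⟨c, hc, Or.inr h4⟩⟩
      · exact ⟨v, le_rfl, Or.inl ⟨c, hc, Or.inl (Prod.ext h1.symm
          (IsPath.eq hx0 (hw.trans l) (h1 ▸ h2) h3))⟩⟩
    · push Not at h1
      obtain ⟨w, hw, h2⟩ := fin_dn L.finite_toSet (p := v) (Φ := fun c s => K s.1 κ c.1 c.2)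
        (fun _ _ _ hs g => g.mono hs) fun c hc => IsPath.fc_lin (hx0.le l)
          (((hL c).1 hc).2.2.mono l)
          (fun w hw => ⟨w, le_rfl, Or.inl (g.mono (hw.trans hv))⟩) (h1 c hc)
      have h3 : ∃ w' ≤ w, SmC Sm (.cone κ (!i)) w' := by
        by_contra h3
        exact fork ⟨w, hw.trans l, κ, hκ, i, g.mono (hw.trans hv), h2,
          fun w' hw' h4 => h3 ⟨w', hw', h4⟩⟩
      obtain ⟨w', hw', h3⟩ := h3
      exact ⟨w', hw'.trans hw, Or.inr ⟨fun c hc => (h2 c hc).mono hw',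
        hA.2 w' (hw'.trans (hw.trans l)) κ i (g.mono (hw'.trans (hw.trans hv))), h3⟩⟩
  have ls := s2.trans hr0
  have ag : Agree N μ x' s := fun u hu κ hκ i g => by
    have l := hu.trans ls
    refine b2.fwd u (hu.trans s1) κ i ⟨hμp.fc_act l g, ok u l κ hκ i g,
      fun v hv ν a g1 => Dn.dn fun w hw => ?_⟩
    obtain ⟨w1, hw1, g2⟩ := hμp.down w (hw.trans (hv.trans l)) κ i ν a (g.mono (hw.trans hv))
      (g1.mono hw)
    exact ⟨w1, hw1, ok w1 (hw1.trans (hw.trans (hv.trans l))) ν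
      (hN κ hκ (hμp.cnt l g) g1.mem) a g2⟩
  rcases hk : kind x' with _ | _
  · exact hcon ⟨s, ls, x', hx', ⟨hk, C.ne_none s1 b1⟩, ag⟩
  have ha : Fc s fun r => ActN r x' := fc_actN ⟨hk, C.ne_none s1 b1⟩
  obtain ⟨t, ht, g⟩ := cmpN_node hN (hA.1.mono ls) hμ s le_rfl x' hx' ha
  rcases g with ⟨a, g⟩ | ⟨ν, a, g1, g2⟩
  · obtain ⟨u, -, g'⟩ := ag t ht x' hx' a g
    exact lt_irrefl _ g'.lt
  · obtain ⟨u, hu, g'⟩ := ag t ht ν (hN x' hx' (ha.proper.cnt hk) g1.mem) _ g2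
    exact ha.proper.path.not_both (hu.trans ht) (g1.mono hu) g'

end Pool.Agent.P.MP_63de32_gt
end

-- part Pool.Agent.P.MP_63de32_gt.Theta
section

set_option autoImplicit false

/-! The colouring of the minimal small cones. -/

open Pool.Agent.Lib.PosetForcing Cardinal

namespace Pool.Agent.P.MP_63de32_gt

theorem countable_Iio_W1 (ξ : W1) : (Set.Iio ξ).Countable := by
  rw [← le_aleph0_iff_set_countable, ← Order.lt_succ_iff, succ_aleph0]
  exact (mk_Iio_lt ξ (by simp)).trans_eq mk_W1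

/-- a continuous chain of countable closed sets -/
structure Chain (Sm : PP → Cd → Prop) (B : Set O) (M N : W1 → Set O) : Prop where
  cB : B.Countable
  cM : ∀ ξ, (M ξ).Countable
  nB : Nice Sm B
  nM : ∀ ξ, Nice Sm (M ξ)
  nN : ∀ ξ, Nice Sm (N ξ)
  mem : ∀ ξ x, x ∈ N ξ ↔ x ∈ B ∨ ∃ ζ < ξ, x ∈ M ζ
  sub : ∀ ξ, N ξ ⊆ M ξ
  esc : ∀ ξ, ∀ j ∈ N ξ, ∀ q : PP, ActB q.1 j → ∃ r ≤ q, ∃ κ ∈ M ξ, ∃ i, κ ∉ N ξ ∧ K r.1 j κ i

theorem exists_chain {Sm : PP → Cd → Prop} (hS : IsSm Sm) : ∃ B M N, Chain Sm B M N := by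
  obtain ⟨F, hF, hQ⟩ := club_nice hS
  obtain ⟨B, -, cB, clB⟩ := exists_cl hF Set.countable_empty
  have step : ∀ N : Set O, ∃ M : Set O, N.Countable → N ⊆ M ∧ M.Countable ∧ Cl F M ∧
      ∀ j ∈ N, ∀ q : PP, ActB q.1 j → ∃ r ≤ q, ∃ κ ∈ M, ∃ i, κ ∉ N ∧ K r.1 j κ i := by
    intro N
    by_cases hN : N.Countable
    swap
    · exact ⟨∅, fun h => absurd h hN⟩
    choose S h1 h2 h3 using fun j => cc_univ.predense
      (fun q (κ : O) => κ ∉ N ∧ ∃ i, K q.1 j κ i) fun _ _ _ => trivial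
    obtain ⟨M, g1, g2, g3⟩ := exists_cl hF (S := N ∪ ⋃ j ∈ N, Prod.snd '' S j)
      (hN.union (hN.biUnion fun j _ => (h1 j).image _))
    refine ⟨M, fun _ => ⟨Set.subset_union_left.trans g1, g2, g3, fun j hj q hq => ?_⟩⟩
    obtain ⟨s, hs, κ, i, a1, a2⟩ := (q.proper hq.2).unc hq.1 N hN q le_rfl
    obtain ⟨x, hx, r, r1, r2⟩ := h3 j s κ ⟨a1, i, a2⟩
    obtain ⟨b1, i', b2⟩ := h2 j x hx
    exact ⟨r, r2.trans hs, x.2, g1 (Or.inr (Set.mem_biUnion hj ⟨x, hx, rfl⟩)), i', b1, b2.mono r1⟩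
  choose nxt hn using step
  let M : W1 → Set O := (wellFounded_lt (α := W1)).fix fun ξ M' =>
    nxt {x | x ∈ B ∨ ∃ ζ, ∃ h : ζ < ξ, x ∈ M' ζ h}
  let N : W1 → Set O := fun ξ => {x | x ∈ B ∨ ∃ ζ < ξ, x ∈ M ζ}
  have e : ∀ ξ, M ξ = nxt (N ξ) := fun ξ => by
    refine (WellFounded.fix_eq _ _ ξ).trans (congrArg nxt (Set.ext fun x => ?_))
    exact or_congr Iff.rfl ⟨fun ⟨ζ, h, g⟩ => ⟨ζ, h, g⟩, fun ⟨ζ, h, g⟩ => ⟨ζ, h, g⟩⟩
  have cN : ∀ ξ, (N ξ).Countable := by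
    intro ξ
    induction ξ using WellFoundedLT.induction with
    | ind ξ ih =>
      refine (cB.union ((countable_Iio_W1 ξ).biUnion (t := fun ζ _ => M ζ) fun ζ h => ?_)).mono ?_
      · rw [e]; exact (hn _ (ih ζ h)).2.1
      · rintro x (hx | ⟨ζ, h, hx⟩)
        · exact Or.inl hx
        · exact Or.inr (Set.mem_biUnion h hx)
  have sub : ∀ ξ, N ξ ⊆ M ξ := fun ξ => by rw [e]; exact (hn _ (cN ξ)).1
  have cl : ∀ ξ, Cl F (M ξ) := fun ξ => by rw [e]; exact (hn _ (cN ξ)).2.2.1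
  have mono : ∀ ζ ξ, ζ ≤ ξ → M ζ ⊆ M ξ := fun ζ ξ h x hx => by
    rcases h.lt_or_eq with h | rfl
    · exact sub ξ (Or.inr ⟨ζ, h, hx⟩)
    · exact hx
  refine ⟨B, M, N, cB, fun ξ => by rw [e]; exact (hn _ (cN ξ)).2.1, hQ B clB,
    fun ξ => hQ _ (cl ξ), fun ξ => hQ _ fun a ha => ?_, fun _ _ => Iff.rfl, sub,
    fun ξ => by rw [e]; exact (hn _ (cN ξ)).2.2.2⟩
  have key : ↑a ⊆ B ∨ ∃ ζ < ξ, ↑a ⊆ M ζ := by
    classical
    induction a using Finset.induction_on with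
    | empty => exact Or.inl (by simp)
    | insert x a _ ih =>
      rw [Finset.coe_insert, Set.insert_subset_iff] at ha
      simp only [Finset.coe_insert, Set.insert_subset_iff]
      rcases ih ha.2 with h | ⟨ζ, h1, h2⟩ <;> rcases ha.1 with g | ⟨ζ', g1, g2⟩
      · exact Or.inl ⟨g, h⟩
      · exact Or.inr ⟨ζ', g1, g2, fun y hy => sub ζ' (Or.inl (h hy))⟩
      · exact Or.inr ⟨ζ, h1, sub ζ (Or.inl g), h2⟩
      · exact Or.inr ⟨max ζ ζ', max_lt h1 g1, mono _ _ (le_max_right _ _) g2,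
          h2.trans (mono _ _ (le_max_left _ _))⟩
  rcases key with h | ⟨ζ, h1, h2⟩
  · exact fun x hx => Or.inl (clB a h hx)
  · exact fun x hx => Or.inr ⟨ζ, h1, cl ζ a h2 hx⟩

/-- ranks of branches -/
def Rk (B : Set O) (M N : W1 → Set O) (r : PP) : ℕ → O → Prop
  | 0, j => j ∈ B
  | k + 1, j => ∃ ξ j', j ∈ M ξ ∧ j ∉ N ξ ∧ j' ∈ N ξ ∧ ActB r.1 j' ∧ Agree (N ξ) j j' r ∧
      Rk B M N r k j'

theorem Rk.mono {B : Set O} {M N : W1 → Set O} {r s : PP} (hs : s ≤ r) {k : ℕ} :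
    ∀ {j : O}, Rk B M N r k j → Rk B M N s k j := by
  induction k with
  | zero => exact fun h => h
  | succ k ih =>
    rintro j ⟨ξ, j', h1, h2, h3, h4, h5, h6⟩
    exact ⟨ξ, j', h1, h2, h3, h4.mono hs, h5.mono hs, ih h6⟩

variable {Sm : PP → Cd → Prop} {B : Set O} {M N : W1 → Set O}

theorem Chain.MN (h : Chain Sm B M N) {ζ ξ : W1} (hl : ζ < ξ) : M ζ ⊆ N ξ :=
  fun x hx => (h.mem ξ x).2 (Or.inr ⟨ζ, hl, hx⟩)

theorem Chain.NN (h : Chain Sm B M N) {ζ ξ : W1} (hl : ζ ≤ ξ) : N ζ ⊆ N ξ := by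
  rcases hl.lt_or_eq with hl | rfl
  · exact (h.sub ζ).trans (h.MN hl)
  · exact subset_rfl

theorem Chain.le_of (h : Chain Sm B M N) {ζ ξ : W1} {x : O} (h1 : x ∈ M ξ) (h2 : x ∉ N ζ) :
    ζ ≤ ξ := not_lt.1 fun hl => h2 (h.MN hl h1)

theorem Chain.birth (h : Chain Sm B M N) {ξ : W1} {x : O} (h1 : x ∈ M ξ) (h2 : x ∉ B) :
    ∃ ζ ≤ ξ, x ∈ M ζ ∧ x ∉ N ζ := by
  obtain ⟨ζ, hζ, hmin⟩ := (wellFounded_lt (α := W1)).has_min {ζ | x ∈ M ζ} ⟨ξ, h1⟩
  refine ⟨ζ, not_lt.1 (hmin ξ h1), hζ, fun g => ?_⟩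
  rcases (h.mem ζ x).1 g with g | ⟨ζ', g1, g2⟩
  · exact h2 g
  · exact hmin ζ' g2 g1

theorem Chain.rank_lt (h : Chain Sm B M N) {r : PP} (k : ℕ) : ∀ {j j' : O} {k' : ℕ} {ξ' : W1},
    ActB r.1 j → ActB r.1 j' → Rk B M N r k j → Rk B M N r k' j' → j' ∈ N ξ' →
      Agree (N ξ') j j' r → j ∉ N ξ' → k' < k := by
  induction k with
  | zero => exact fun _ _ h1 _ _ _ h2 => absurd ((h.mem _ _).2 (Or.inl h1)) h2
  | succ k ih =>
    rintro j j' k' ξ' a1 a2 ⟨ξ, l, b1, -, b3, b4, b5, b6⟩ c1 c2 c3 c4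
    have hsub := h.NN (h.le_of b1 c4)
    have ag : Agree (N ξ') l j' r :=
      ((b5.symm (h.nN ξ).dc (cmpN_br _ a1) (r.proper b4.2)).sub hsub).trans c3
    by_cases hl : l ∈ N ξ'
    · obtain rfl := ag.eq ((h.nN ξ').sp l hl j' c2) b4 a2
      cases k' with
      | zero => exact Nat.succ_pos k
      | succ k' =>
        obtain ⟨ζ, l', -, d2, d3, d4, d5, d6⟩ := c1
        exact Nat.succ_lt_succ (ih a2 d4 b6 d6 d3 d5 d2)
    · exact (ih b4 a2 b6 c1 c2 ag hl).trans (Nat.lt_succ_self k)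

theorem Chain.rank_ex (h : Chain Sm B M N) (hS : IsSm Sm) {μ : O} {m : Bool} {e : Cd} (ξ : W1) :
    ∀ p : PP, μ ∉ N ξ → IsA Sm μ p → Nb p.1 (.cone μ m) e → Sm p e →
      ∃ r ≤ p, ∃ j ∈ N ξ, ∃ k, ActB r.1 j ∧ Agree (N ξ) μ j r ∧ Rk B M N r k j := by
  induction ξ using WellFoundedLT.induction with
  | ind ξ ih =>
    intro p h1 h2 h3 h4
    obtain ⟨r, hr, j, hj, a1, a2⟩ := (h.nN ξ).claim p μ m e h1 h2 h3 h4
    by_cases hB : j ∈ B
    · exact ⟨r, hr, j, hj, 0, a1, a2, hB⟩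
    obtain ⟨ζ', g1, g2⟩ := ((h.mem ξ j).1 hj).resolve_left hB
    obtain ⟨ζ, g3, g4, g5⟩ := h.birth g2 hB
    have hl := g3.trans_lt g1
    obtain ⟨s, hs, j', hj', k, b1, b2, b3⟩ := ih ζ hl r (fun g => h1 (h.NN hl.le g)) (h2.mono hr)
      (h3.mono hr) (hS.mono _ _ _ hr h4)
    refine ⟨s, hs.trans hr, j, hj, k + 1, a1.mono hs, a2.mono hs, ζ, j', g4, g5, hj', b1, ?_, b3⟩
    exact (((a2.symm (h.nN ξ).dc (cmpN_node (h.nN ξ).dc (h2.1.mono hr) h1)
      (r.proper a1.2)).mono hs).sub (h.NN hl.le)).trans b2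

theorem Chain.inside (h : Chain Sm B M N) {p : PP} {μ : O} {m : Bool} {e : Cd} (h2 : IsA Sm μ p)
    (h3 : Nb p.1 (.cone μ m) e) (h4 : Sm p e) : ∃ ξ, μ ∈ M ξ := by
  by_contra hcon
  push Not at hcon
  have key : ∀ ξ, ∃ κ ∈ Dm μ, κ ∈ M ξ ∧ κ ∉ N ξ := by
    intro ξ
    obtain ⟨r, hr, j, hj, a1, a2⟩ := (h.nN ξ).claim p μ m e (fun g => hcon ξ (h.sub ξ g)) h2 h3 h4
    obtain ⟨s, hs, κ, b1, i, b2, b3⟩ := h.esc ξ j hj r a1
    have hjp := (r.proper a1.2).path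
    have ha := hjp.fc_act hs b3
    obtain ⟨t, ht, g⟩ := cmpN_node (h.nM ξ).dc (h2.1.mono hr) (hcon ξ) s hs κ b1 ha
    rcases g with ⟨a, g⟩ | ⟨ν, a, g1, g2⟩
    · exact ⟨κ, g.mem, b1, b2⟩
    · refine ⟨ν, g2.mem, (h.nM ξ).dc κ b1 (ha.proper.cnt ha.kind) g1.mem, fun hν => ?_⟩
      obtain ⟨u, hu, g3⟩ := a2 t (ht.trans hs) ν hν _ g2
      obtain ⟨v, hv, g4⟩ := hjp.down u (hu.trans (ht.trans hs)) κ i ν a (b3.mono (hu.trans ht))
        (g1.mono hu)
      exact hjp.not_both (hv.trans (hu.trans (ht.trans hs))) g4 (g3.mono hv)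
  choose κ k1 k2 k3 using key
  have hinj : Function.Injective κ := fun ξ ζ e =>
    le_antisymm (h.le_of (k2 ζ) (e ▸ k3 ξ)) (h.le_of (k2 ξ) (e ▸ k3 ζ))
  exact Set.not_countable_univ (((h2.1.proper.cnt h2.1.kind).preimage hinj).mono fun ξ _ => k1 ξ)

/-- a cone with a code, all inside `S` -/
def Ins (S : Set O) (x : O × Bool × Cd) : Prop := x.1 ∈ S ∧ ∀ z b, (Sum.inr z, b) ∈ x.2.2 → z ∈ S

theorem countable_ins {S : Set O} (hS : S.Countable) : {x | Ins S x}.Countable := by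
  refine (hS.prod ((Set.countable_univ (α := Bool)).prod (countable_finsets
    ((countable_gens hS).prod (Set.countable_univ (α := Bool)))))).mono fun x hx => ?_
  exact ⟨hx.1, trivial, fun g hg => ⟨fun z hz => hx.2 z g.2 (by rw [← hz]; exact hg), trivial⟩⟩

theorem ins_of_nb {S : Set O} (hS : DClosed S) {p : PP} {μ : O} {m : Bool} {e : Cd} (hμ : μ ∈ S)
    (ha : Fc p fun r => ActN r μ) (he : Nb p.1 (.cone μ m) e) : Ins S (μ, m, e) :=
  ⟨hμ, fun _ _ hg => (he _ hg).elim (fun g => hS μ hμ (ha.proper.cnt ha.kind) g.mem)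
    fun g => g.1 ▸ hμ⟩

/-- the data attached to a coloured code -/
structure Dat (Sm : PP → Cd → Prop) (B : Set O) (M N : W1 → Set O) (p : PP) (k n : ℕ) (e : Cd)
    (μ : O) (m : Bool) (ξ : W1) (j κ : O) (i : Bool) : Prop where
  sm : Sm p e
  isA : IsA Sm μ p
  nb : Nb p.1 (.cone μ m) e
  notN : μ ∉ N ξ
  inM : μ ∈ M ξ
  jN : j ∈ N ξ
  act : ActB p.1 j
  agree : Agree (N ξ) μ j p
  rk : Rk B M N p k j
  colr : (κ, i, n) ∈ col p.1 j
  mem : (Sum.inr κ, !i) ∈ e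
  high : κ ∉ N ξ

theorem Dat.mono (hS : IsSm Sm) {p q : PP} {k n : ℕ} {e : Cd} {μ : O} {m : Bool} {ξ : W1} {j κ : O}
    {i : Bool} (h : Dat Sm B M N p k n e μ m ξ j κ i) (hq : q ≤ p) :
    Dat Sm B M N q k n e μ m ξ j κ i :=
  ⟨hS.mono _ _ _ hq h.sm, h.isA.mono hq, h.nb.mono hq, h.notN, h.inM, h.jN, h.act.mono hq,
    h.agree.mono hq, h.rk.mono hq, col_mono hq h.colr, h.mem, h.high⟩

/-- the cone where a branch leaves the path of `t` lies in the neighbourhoods of `t` that contain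
the branch -/
theorem off_inB {p : PP} {t : Pt} (ht : Pth t p) {x ν : O} {b : Bool} (hx : ActB p.1 x) {e : Cd}
    (h1 : Nb p.1 t e) (h2 : InB p.1 (.br x) e) (h3 : K p.1 x ν b) (h4 : KP p.1 t ν (!b)) :
    ∃ s ≤ p, InB s.1 (.cone ν b) e := by
  have hxp := (p.proper hx.2).path
  refine fin_dn e.finite_toSet (Φ := fun g s => Sd s.1 (.cone ν b) g.1 g.2)
    (fun _ _ _ hs g => g.mono hs) ?_
  rintro ⟨n | γ, c⟩ hg r hr
  · obtain rfl : c = false := h1 _ hg
    exact ⟨r, le_rfl, .natF n (by simp)⟩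
  · obtain ⟨s, hs, v, g1⟩ := cone_total ht hr (h4.mono hr) (KP.mono (h1 _ hg) hr)
    rw [Bool.not_not] at g1
    obtain ⟨e', g2, g3⟩ := g1.nb (by simp)
    obtain ⟨u, hu, g4⟩ := g2.transfer (z := .br x) (by
      rintro w hw κ i (g | ⟨rfl, rfl⟩)
      · exact hxp.down w (hw.trans (hs.trans hr)) ν b κ i (h3.mono (hw.trans (hs.trans hr))) g
      · exact ⟨w, le_rfl, h3.mono (hw.trans (hs.trans hr))⟩)
    have g5 := g3 u.1 hu _ (g4.inB (by simp))
    have l := hu.trans (hs.trans hr)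
    obtain rfl : v = c := ((pth_br (p.proper hx.2)).le l).fc_eq (fc_sd g5)
      (fc_sd ((h2 _ hg).mono l))
    exact ⟨s, hs, g1⟩

theorem Chain.unique (h : Chain Sm B M N) (hS : IsSm Sm) {p : PP} {k n : ℕ} {e e' : Cd}
    {μ μ' : O} {m m' : Bool} {ξ ξ' : W1} {j j' κ κ' : O} {i i' : Bool}
    (D : Dat Sm B M N p k n e μ m ξ j κ i) (D' : Dat Sm B M N p k n e' μ' m' ξ' j' κ' i') {x : O}
    (hx : ActB p.1 x) (h1 : K p.1 x μ m) (h2 : InB p.1 (.br x) e') : ξ = ξ' := by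
  by_contra hne
  have hxp := (p.proper hx.2).path
  have hμ : μ ≠ μ' := fun e => hne (le_antisymm (h.le_of D'.inM (e ▸ D.notN))
    (h.le_of D.inM (e ▸ D'.notN)))
  have sm : SmC Sm (.cone μ m) p := ⟨e, D.nb, D.sm⟩
  have sm' : SmC Sm (.cone μ' m') p := ⟨e', D'.nb, D'.sm⟩
  have ht' : Pth (.cone μ' m') p := pth_cone D'.isA.1 m'
  obtain ⟨s, hs, ν, b, a1, a2⟩ : ∃ s ≤ p, ∃ ν b, K s.1 x ν b ∧ KP s.1 (.cone μ' m') ν (!b) := by
    obtain ⟨s, hs, g⟩ := cmpN_br Set.univ hx p le_rfl μ' trivial D'.isA.1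
    rcases g with ⟨a, g⟩ | ⟨ν, a, g1, g2⟩
    · by_cases e : m' = a
      · subst e
        exfalso
        rcases lt_or_gt_of_ne hμ with hl | hl
        · obtain ⟨t, ht, g'⟩ := hxp.lin s hs _ _ _ _ hl g (h1.mono hs)
          exact D'.isA.2 t (ht.trans hs) _ _ g' t le_rfl (sm.mono hS.mono (ht.trans hs))
        · obtain ⟨t, ht, g'⟩ := hxp.lin s hs _ _ _ _ hl (h1.mono hs) g
          exact D.isA.2 t (ht.trans hs) _ _ g' t le_rfl (sm'.mono hS.mono (ht.trans hs))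
      · exact ⟨s, hs, μ', a, g, Or.inr ⟨rfl, (bool_ne e).symm⟩⟩
    · exact ⟨s, hs, ν, !a, g2, Or.inl (by simpa using g1)⟩
  obtain ⟨t, ht, a3⟩ := off_inB (ht'.le hs) (hx.mono hs) (D'.nb.mono hs) (h2.mono hs) a1 a2
  have lt := ht.trans hs
  have a4 : SmC Sm (.cone ν b) t := hS.smc (by simp) a3 (hS.mono _ _ _ lt D'.sm)
  rcases lt_trichotomy ν μ with hl | rfl | hl
  · obtain ⟨u, hu, g⟩ := hxp.lin t lt _ _ _ _ hl (h1.mono lt) (a1.mono ht)
    exact D.isA.2 u (hu.trans lt) _ _ g u le_rfl (a4.mono hS.mono hu)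
  swap
  · obtain ⟨u, hu, g⟩ := hxp.lin t lt _ _ _ _ hl (a1.mono ht) (h1.mono lt)
    obtain ⟨v, hv, g'⟩ := ht'.down u (hu.trans lt) _ _ _ _ (a2.mono (hu.trans ht)) g
    have l := hv.trans (hu.trans lt)
    exact D'.isA.2 v l _ _ (g'.resolve_right fun g => hμ g.1) v le_rfl (sm.mono hS.mono l)
  obtain rfl : b = m := hxp.eq hs a1 (h1.mono hs)
  have a5 : K s.1 μ' ν (!b) := a2.resolve_right fun g => hμ g.1
  have hl : ξ < ξ' := (h.le_of ((h.nM ξ').dc μ' D'.inM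
    (D'.isA.1.proper.cnt D'.isA.1.kind) a5.mem) D.notN).lt_of_ne hne
  have hν : ν ∈ N ξ' := h.MN hl D.inM
  obtain ⟨u, hu, a6⟩ := D'.agree t lt ν hν _ (a5.mono ht)
  have lu := hu.trans lt
  have hjp := (p.proper D'.act.2).path
  have ag : Agree (N ξ) j' j u := fun v hv γ hγ c g => by
    obtain ⟨w, hw, g1⟩ := hjp.lin v (hv.trans lu) _ _ _ _
      (hjp.low_lt (h.nN ξ).dc (hv.trans lu) hγ D.notN g (a6.mono hv)) (a6.mono hv) g
    obtain ⟨w', hw', g2⟩ := D.agree w (hw.trans (hv.trans lu)) γ hγ c g1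
    exact ⟨w', hw'.trans hw, g2⟩
  have hj' : j' ∈ N ξ := by
    by_contra g
    exact lt_irrefl _ (h.rank_lt k (D'.act.mono lu) (D.act.mono lu) (D'.rk.mono lu) (D.rk.mono lu)
      D.jN ag g)
  obtain rfl := ag.eq ((h.nN ξ).sp j' hj' j D.jN) (D'.act.mono lu) (D.act.mono lu)
  have c1 := (p.col_fc D.colr).2
  have c2 := (p.col_fc D'.colr).2
  obtain ⟨rfl, rfl⟩ : κ = ν ∧ (!i) = b := by
    refine (show KP p.1 (.cone ν b) κ (!i) from D.nb _ D.mem).resolve_left fun g => ?_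
    obtain ⟨v, hv, g1⟩ := hjp.down u lu _ _ _ _ a6 (g.mono lu)
    obtain ⟨w, hw, g2⟩ := c1 v (hv.trans lu)
    exact hjp.not_both (hw.trans (hv.trans lu)) g2 (g1.mono hw)
  obtain ⟨y, hy, -⟩ := mem_col D.colr
  obtain ⟨v, hv, g⟩ := (p.ok hy).sep _ (col_some hy ▸ D.colr) _ (col_some hy ▸ D'.colr)
    (hjp.fc_low_lt (h.nN ξ').dc hν D'.high c1 c2) rfl t lt
  exact (pth_cone (D.isA.1.mono (hv.trans lt)) _).cons g ((a3 _ D'.mem).mono hv)

theorem add_colour {p : PP} {j κ : O} {i : Bool} (hj : ActB p.1 j) (h : K p.1 j κ i) :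
    ∃ s ≤ p, ∃ n, (κ, i, n) ∈ col s.1 j := by
  classical
  obtain ⟨y, hy⟩ := Option.ne_none_iff_exists'.1 hj.2
  have ho := p.ok hy
  obtain ⟨n, hn⟩ := (y.2.finite_toSet.image fun c : Col => c.2.2).exists_notMem
  obtain ⟨s, hs, h1, -⟩ := p.update j (y.1, insert (κ, i, n) y.2) (fun y' hy' => by
      obtain rfl : y = y' := Option.some.inj (hy.symm.trans hy')
      exact ⟨List.prefix_refl _, Finset.subset_insert _ _⟩)
    ⟨ho.proper, fun g => by simp [hj.1] at g, ho.noent, ho.entN, ho.entO, fun c hc => by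
      rcases Finset.mem_insert.1 hc with rfl | hc
      · exact fc_K h
      · exact ho.col c hc, fun c hc c' hc' h1 h2 => by
      rcases Finset.mem_insert.1 hc with rfl | hc <;> rcases Finset.mem_insert.1 hc' with rfl | hc'
      · exact absurd h1 (lt_irrefl _)
      · exact absurd ⟨c', hc', h2.symm⟩ hn
      · exact absurd ⟨c, hc, h2⟩ hn
      · exact ho.sep c hc c' hc' h1 h2⟩
  exact ⟨s, hs, n, col_some h1 ▸ Finset.mem_insert_self _ _⟩

/-- colours -/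
abbrev Clr : Type := ℕ ⊕ ℕ ⊕ (ℕ × ℕ × ℕ)

theorem theta_aux (hS : IsSm Sm) : ∃ Gr : PP → Clr → Cd → Prop,
    (∀ p q c e, q ≤ p → Gr p c e → Gr q c e) ∧ (∀ p c e, Gr p c e → Sm p e) ∧
    ∀ (p : PP) z e, Act p.1 z → InB p.1 z e → Sm p e → ∃ r ≤ p, ∃ c e0, Gr r c e0 ∧ InB r.1 z e0 ∧
      ∀ s ≤ r, ∀ e', Gr s c e' → InB s.1 z e' → e' = e0 := by
  classical
  obtain ⟨B, M, N, h⟩ := exists_chain hS
  obtain ⟨iB, hiB⟩ := Set.countable_iff_exists_injOn.1 (countable_ins h.cB)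
  choose iM hiM using fun ξ => Set.countable_iff_exists_injOn.1 (countable_ins (h.cM ξ))
  refine ⟨fun p c e => match c with
    | .inl n => e = {(.inl n, true)} ∧ Sm p e
    | .inr (.inl ν) => Sm p e ∧ ∃ μ m, Ins B (μ, m, e) ∧ iB (μ, m, e) = ν
    | .inr (.inr c) => ∃ μ m ξ j κ i, Dat Sm B M N p c.1 c.2.1 e μ m ξ j κ i ∧
        iM ξ (μ, m, e) = c.2.2, ?_, ?_, ?_⟩
  · rintro p q (n | ν | c) e hq g
    · exact ⟨g.1, hS.mono _ _ _ hq g.2⟩
    · exact ⟨hS.mono _ _ _ hq g.1, g.2⟩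
    · obtain ⟨μ, m, ξ, j, κ, i, g1, g2⟩ := g
      exact ⟨μ, m, ξ, j, κ, i, g1.mono hS hq, g2⟩
  · rintro p (n | ν | c) e g
    · exact g.2
    · exact g.1
    · obtain ⟨μ, m, ξ, j, κ, i, g1, -⟩ := g
      exact g1.sm
  rintro p (n | x | _) e ha h1 h2
  · refine ⟨p, le_rfl, .inl n, {(.inl n, true)}, ⟨rfl, hS.sub p e _ (fun q hq z hz => ?_) h2⟩,
      fun g hg => ?_, fun s _ e' g _ => g.1⟩
    · rw [(sd_inl (hz _ (Finset.mem_singleton_self _))).1 rfl]
      exact h1.mono hq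
    · obtain rfl := Finset.mem_singleton.1 hg
      exact .natT n rfl
  swap
  · exact ha.elim
  have hxp := (p.proper ha.2).path
  obtain ⟨e1, a1, a2⟩ := hS.smc (by simp) h1 h2
  obtain ⟨μ, ⟨r, hr, m, b1, e2, b2, b3⟩, hmin⟩ := (wellFounded_lt (α := O)).has_min
    {κ | ∃ r ≤ p, ∃ i, K r.1 x κ i ∧ SmC Sm (.cone κ i) r} (by
      rcases a1.top (pth_br (p.proper ha.2)) with g | ⟨s, hs, κ, i, g1, g2⟩
      · obtain ⟨s, hs, κ, i, -, g1⟩ := (p.proper ha.2).unc ha.1 ∅ Set.countable_empty p le_rfl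
        refine ⟨κ, s, hs, i, g1, e1, fun c hc => ?_, hS.mono _ _ _ hs a2⟩
        obtain ⟨n, rfl⟩ := g c hc
        rfl
      · exact ⟨κ, s, hs, i, g1, e1, g2, hS.mono _ _ _ hs a2⟩)
  have hA : IsA Sm μ r := ⟨hxp.fc_act hr b1, fun s hs κ i g u hu g' => by
    obtain ⟨v, hv, g1⟩ := hxp.down u (hu.trans (hs.trans hr)) μ m κ i (b1.mono (hu.trans hs))
      (g.mono hu)
    exact hmin κ ⟨v, hv.trans (hu.trans (hs.trans hr)), i, g1, g'.mono hS.mono hv⟩ g.lt⟩
  have tr : ∀ s ≤ r, ∀ e0, Nb s.1 (.cone μ m) e0 → ∃ t ≤ s, InB t.1 (.br x) e0 := by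
    intro s hs e0 g
    obtain ⟨t, ht, g'⟩ := g.transfer (z := .br x) (by
      rintro w hw κ i (g | ⟨rfl, rfl⟩)
      · exact hxp.down w (hw.trans (hs.trans hr)) μ m κ i (b1.mono (hw.trans hs)) g
      · exact ⟨w, le_rfl, b1.mono (hw.trans hs)⟩)
    exact ⟨t, ht, g'.inB (by simp)⟩
  by_cases hB : μ ∈ B
  · obtain ⟨t, ht, g⟩ := tr r le_rfl e2 b2
    have hi := ins_of_nb h.nB.dc hB hA.1 b2
    refine ⟨t, ht.trans hr, .inr (.inl (iB (μ, m, e2))), e2,
      ⟨hS.mono _ _ _ ht b3, μ, m, hi, rfl⟩, g, ?_⟩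
    rintro s - e' ⟨-, μ', m', g1, g2⟩ -
    exact congrArg (fun x => x.2.2) (hiB g1 hi g2)
  obtain ⟨ξ0, hξ0⟩ := h.inside hA b2 b3
  obtain ⟨ξ, -, c1, c2⟩ := h.birth hξ0 hB
  obtain ⟨r1, hr1, j, hj, k, d1, d2, d3⟩ := h.rank_ex hS ξ r c2 hA b2 b3
  have hjp := (r1.proper d1.2).path
  obtain ⟨r2, hr2, κ, i, f1, f2, f3⟩ : ∃ r2 ≤ r1, ∃ κ i, K r2.1 j κ i ∧
      KP r2.1 (.cone μ m) κ (!i) ∧ κ ∉ N ξ := by
    obtain ⟨s, hs, g⟩ := cmpN_br Set.univ d1 r1 le_rfl μ trivial (hA.1.mono hr1)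
    rcases g with ⟨a, g⟩ | ⟨ν, a, g1, g2⟩
    · by_cases e : m = a
      · subst e
        obtain ⟨t, ht, κ', hκ', i', g1, g2⟩ := (h.nN ξ).sm j hj s μ m g
          ⟨e2, b2.mono (hs.trans hr1), hS.mono _ _ _ (hs.trans hr1) b3⟩
        obtain ⟨u, hu, g3⟩ := d2.symm (h.nN ξ).dc (cmpN_node (h.nN ξ).dc (hA.1.mono hr1) c2)
          (r1.proper d1.2) t (ht.trans hs) κ' hκ' i' g1
        exact (hA.2 u (hu.trans (ht.trans (hs.trans hr1))) _ _ g3 u le_rfl
          (g2.mono hS.mono hu)).elim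
      · exact ⟨s, hs, μ, a, g, Or.inr ⟨rfl, (bool_ne e).symm⟩, c2⟩
    · refine ⟨s, hs, ν, !a, g2, Or.inl (by simpa using g1), fun hν => ?_⟩
      obtain ⟨t, ht, g3⟩ := d2 s hs ν hν a g1
      exact hjp.not_both (ht.trans hs) g3 (g2.mono ht)
  obtain ⟨r3, hr3, n, f4⟩ := add_colour (d1.mono hr2) f1
  have l3 := hr3.trans (hr2.trans hr1)
  have nb : Nb r3.1 (.cone μ m) (insert (.inr κ, !i) e2) := fun g hg => by
    rcases Finset.mem_insert.1 hg with rfl | hg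
    · exact f2.mono hr3
    · exact (b2 g hg).mono l3
  have D : Dat Sm B M N r3 k n (insert (.inr κ, !i) e2) μ m ξ j κ i :=
    ⟨hS.sub _ e2 _ (fun q _ z hz g hg => hz g (Finset.mem_insert_of_mem hg))
      (hS.mono _ _ _ l3 b3), hA.mono l3, nb, c2, c1, hj, d1.mono (hr3.trans hr2),
      d2.mono (hr3.trans hr2), d3.mono (hr3.trans hr2), f4, Finset.mem_insert_self _ _, f3⟩
  obtain ⟨t, ht, g⟩ := tr r3 l3 _ nb
  refine ⟨t, ht.trans (l3.trans hr), .inr (.inr (k, n, iM ξ (μ, m, insert (.inr κ, !i) e2))), _,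
    ⟨μ, m, ξ, j, κ, i, D.mono hS ht, rfl⟩, g, ?_⟩
  rintro s hs e' ⟨μ', m', ξ', j', κ', i', g1, g2⟩ g3
  have ls := hs.trans (ht.trans l3)
  obtain rfl := h.unique hS (D.mono hS (hs.trans ht)) g1 (ActB.mono ha (ls.trans hr))
    (b1.mono ls) g3
  exact congrArg (fun x => x.2.2) (hiM ξ (ins_of_nb (h.nM ξ).dc g1.inM g1.isA.1 g1.nb)
    (ins_of_nb (h.nM ξ).dc c1 D.isA.1 nb) g2)

theorem theta_comb (hS : IsSm Sm) : ∃ Gr : PP → ℕ → Cd → Prop,
    (∀ p q c e, q ≤ p → Gr p c e → Gr q c e) ∧ (∀ p c e, Gr p c e → Sm p e) ∧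
    ∀ (p : PP) z e, Act p.1 z → InB p.1 z e → Sm p e → ∃ r ≤ p, ∃ c e0, Gr r c e0 ∧ InB r.1 z e0 ∧
      ∀ s ≤ r, ∀ e', Gr s c e' → InB s.1 z e' → e' = e0 := by
  obtain ⟨Gr, h1, h2, h3⟩ := theta_aux hS
  refine ⟨fun p n e => Gr p (Denumerable.ofNat Clr n) e, fun p q c e => h1 p q _ e,
    fun p c e => h2 p _ e, fun p z e a1 a2 a3 => ?_⟩
  obtain ⟨r, hr, c, e0, g⟩ := h3 p z e a1 a2 a3
  exact ⟨r, hr, Encodable.encode c, e0, by simpa only [Denumerable.ofNat_encode] using g⟩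

end Pool.Agent.P.MP_63de32_gt
end

-- part Pool.Agent.P.MP_63de32_gt.Space
section

set_option autoImplicit false

/-! The space in the forcing extension. -/

open Pool.Agent.Lib.PosetForcing

namespace Pool.Agent.P.MP_63de32_gt

instance clopen_isFin (a b : Name PP) :
    Clopen fun U : Gen PP => IsFin Mod.mem (a.val U) (b.val U) := by
  unfold IsFin; infer_instance

instance clopen_covers (a b : Name PP) :
    Clopen fun U : Gen PP => Covers Mod.mem (a.val U) (b.val U) := by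
  unfold Covers; infer_instance

instance clopen_relOpen (a b c : Name PP) :
    Clopen fun U : Gen PP => RelOpen Mod.mem (a.val U) (b.val U) (c.val U) := by
  unfold RelOpen; infer_instance

instance clopen_conv (a b c d : Name PP) :
    Clopen fun U : Gen PP => Conv Mod.mem (a.val U) (b.val U) (c.val U) (d.val U) := by
  unfold Conv; infer_instance

/-- names of points -/
noncomputable def eN (z : Pt) : Name PP := elt z

/-- names of basic sets -/
noncomputable def bN (e : Cd) : Name PP :=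
  .mk {x : PP × Pt // Act x.1.1 x.2 ∧ InB x.1.1 x.2 e} (fun x => eN x.1.2) fun x => x.1.1

/-- the space -/
noncomputable def xN : Name PP := bN ∅

/-- the base -/
noncomputable def baseN : Name PP := fam bN

/-- the topology -/
noncomputable def topN : Name PP := sepName (powName xN) fun U V =>
  ∀ z, Mod.mem z V → ∃ B, Mod.mem B (baseN.val U) ∧ Mod.mem z B ∧ IsSub Mod.mem B V

/-- the set of isolated points -/
noncomputable def aN : Name PP := fam fun n : ULift.{1} ℕ => eN (.nat n.down)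

theorem f_bN {p : PP} {z : Pt} {e : Cd} (h1 : Act p.1 z) (h2 : InB p.1 z e) :
    Forces p fun U => Mod.mem ((eN z).val U) ((bN e).val U) :=
  forces_el_mem (b := bN e) ⟨(p, z), h1, h2⟩ le_rfl

theorem e_bN {p : PP} {a : Name PP} {e : Cd}
    (h : Forces p fun U => Mod.mem (a.val U) ((bN e).val U)) :
    ∃ q ≤ p, ∃ z, Act q.1 z ∧ InB q.1 z e ∧ Forces q fun U => a.val U = (eN z).val U := by
  obtain ⟨q, hq, i, h1, h2⟩ := h.exists_el
  exact ⟨q, hq, i.1.2, i.2.1.mono h1, i.2.2.mono h1, h2⟩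

theorem e_bN' {p : PP} {z : Pt} {e : Cd}
    (h : Forces p fun U => Mod.mem ((eN z).val U) ((bN e).val U)) :
    ∃ q ≤ p, Act q.1 z ∧ InB q.1 z e := by
  obtain ⟨q, hq, z', h1, h2, h3⟩ := e_bN h
  obtain rfl : z = z' := Forces.elt_inj h3
  exact ⟨q, hq, h1, h2⟩

theorem forces_bN {Φ : ∀ U : Gen PP, Mod U → Prop} [∀ a : Name PP, Clopen fun U => Φ U (a.val U)]
    {e : Cd} {p : PP} (h : ∀ q ≤ p, ∀ z, Act q.1 z → InB q.1 z e →
      ∃ r ≤ q, Forces r fun U => Φ U ((eN z).val U)) :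
    Forces p fun U => ∀ x, Mod.mem x ((bN e).val U) → Φ U x :=
  forces_forall_mem (b := bN e) fun i q hq hi => h q hq i.1.2 (i.2.1.mono hi) (i.2.2.mono hi)

theorem forall_bN {Φ : ∀ U : Gen PP, Mod U → Prop} [∀ a : Name PP, Clopen fun U => Φ U (a.val U)]
    {e : Cd} (h : ∀ q : PP, ∀ z, Act q.1 z → InB q.1 z e →
      ∃ r ≤ q, Forces r fun U => Φ U ((eN z).val U)) (U : Gen PP) :
    ∀ x, Mod.mem x ((bN e).val U) → Φ U x :=
  forall_mem (b := bN e) (fun i q hi => h q i.1.2 (i.2.1.mono hi) (i.2.2.mono hi)) U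

theorem bN_sub {e e' : Cd} (h : e ⊆ e') (U : Gen PP) :
    IsSub Mod.mem ((bN e').val U) ((bN e).val U) :=
  forall_bN (Φ := fun U x => Mod.mem x ((bN e).val U))
    (fun q _ h1 h2 => ⟨q, le_rfl, f_bN h1 fun g hg => h2 g (h hg)⟩) U

open Classical in
theorem bN_inter (e e' : Cd) (U : Gen PP) (x : Mod U) (h : Mod.mem x ((bN e).val U))
    (h' : Mod.mem x ((bN e').val U)) : Mod.mem x ((bN (e ∪ e')).val U) :=
  forall_bN (Φ := fun U x => Mod.mem x ((bN e').val U) → Mod.mem x ((bN (e ∪ e')).val U))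
    (fun q z _ h2 => ⟨q, le_rfl, forces_imp fun r hr g => by
      obtain ⟨s, hs, g1, g2⟩ := e_bN' g
      exact ⟨s, hs, f_bN g1 fun c hc =>
        (Finset.mem_union.1 hc).elim (h2.mono (hs.trans hr) c) (g2 c)⟩⟩) U x h h'

theorem mem_topN (U : Gen PP) (V : Mod U) : Mod.mem V (topN.val U) ↔ IsSub Mod.mem V (xN.val U) ∧
    ∀ z, Mod.mem z V → ∃ B, Mod.mem B (baseN.val U) ∧ Mod.mem z B ∧ IsSub Mod.mem B V :=
  (mem_sepName _ _ U V).trans (and_congr (mem_powName xN U V) Iff.rfl)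

theorem bN_open (e : Cd) (U : Gen PP) : Mod.mem ((bN e).val U) (topN.val U) :=
  (mem_topN U _).2 ⟨bN_sub (Finset.empty_subset e) U,
    fun _ hz => ⟨_, mem_fam bN e U, hz, fun _ h => h⟩⟩

theorem open_elim {p : PP} {V : Name PP} {z : Pt} (h : Forces p fun U =>
    Mod.mem (V.val U) (topN.val U) ∧ Mod.mem ((eN z).val U) (V.val U)) :
    ∃ q ≤ p, ∃ e, Act q.1 z ∧ InB q.1 z e ∧
      Forces q fun U => IsSub Mod.mem ((bN e).val U) (V.val U) := by
  obtain ⟨B, hB⟩ := Forces.exists_name (Φ := fun U B => Mod.mem B (baseN.val U) ∧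
    Mod.mem ((eN z).val U) B ∧ IsSub Mod.mem B (V.val U))
    (h.imp fun U h => ((mem_topN U _).1 h.1).2 _ h.2)
  obtain ⟨q, hq, e, he⟩ := Forces.exists_fam (hB.imp fun _ h => h.1)
  have h1 := ((hB.mono hq).and he).imp (Ψ := fun U => Mod.mem ((eN z).val U) ((bN e).val U) ∧
    IsSub Mod.mem ((bN e).val U) (V.val U)) fun U h => h.2 ▸ h.1.2
  obtain ⟨r, hr, g1, g2⟩ := e_bN' (h1.imp fun _ h => h.1)
  exact ⟨r, hr.trans hq, e, g1, g2, (h1.mono hr).imp fun _ h => h.2⟩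

theorem isTop (U : Gen PP) : IsTop Mod.mem (xN.val U) (topN.val U) := by
  classical
  refine ⟨fun V hV => ((mem_topN U V).1 hV).1, bN_open ∅ U, fun V W Z hV hW hZ => ?_,
    fun F Z hF hZ => ?_⟩
  · obtain ⟨v1, v2⟩ := (mem_topN U V).1 hV
    obtain ⟨-, w2⟩ := (mem_topN U W).1 hW
    refine (mem_topN U Z).2 ⟨fun x hx => v1 x ((hZ x).1 hx).1, fun z hz => ?_⟩
    obtain ⟨B, b1, b2, b3⟩ := v2 z ((hZ z).1 hz).1
    obtain ⟨B', c1, c2, c3⟩ := w2 z ((hZ z).1 hz).2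
    obtain ⟨D, d1, d2⟩ := forall_mem_fam (A := bN) (Φ := fun U B => ∀ B', Mod.mem B' (baseN.val U) →
      ∃ D, Mod.mem D (baseN.val U) ∧ ∀ x, Mod.mem x D ↔ Mod.mem x B ∧ Mod.mem x B')
      (fun e U => forall_mem_fam (A := bN) (Φ := fun U B' => ∃ D, Mod.mem D (baseN.val U) ∧
        ∀ x, Mod.mem x D ↔ Mod.mem x ((bN e).val U) ∧ Mod.mem x B')
        (fun e' U => ⟨_, mem_fam bN (e ∪ e') U, fun x =>
          ⟨fun h => ⟨bN_sub Finset.subset_union_left U x h, bN_sub Finset.subset_union_right U x h⟩,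
            fun h => bN_inter e e' U x h.1 h.2⟩⟩) U) U B b1 B' c1
    exact ⟨D, d1, (d2 z).2 ⟨b2, c2⟩,
      fun x hx => (hZ x).2 ⟨b3 x ((d2 x).1 hx).1, c3 x ((d2 x).1 hx).2⟩⟩
  · refine (mem_topN U Z).2 ⟨fun x hx => ?_, fun z hz => ?_⟩
    · obtain ⟨V, h1, h2⟩ := (hZ x).1 hx
      exact ((mem_topN U V).1 (hF V h1)).1 x h2
    · obtain ⟨V, h1, h2⟩ := (hZ z).1 hz
      obtain ⟨B, b1, b2, b3⟩ := ((mem_topN U V).1 (hF V h1)).2 z h2
      exact ⟨B, b1, b2, fun x hx => (hZ x).2 ⟨V, h1, b3 x hx⟩⟩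

theorem separate {q : PP} {z z' : Pt} (h : Act q.1 z) (h' : Act q.1 z') (hne : z ≠ z') :
    ∃ r ≤ q, ∃ g b, Sd r.1 z g b ∧ Sd r.1 z' g (!b) := by
  cases z with
  | nat n => exact ⟨q, le_rfl, .inl n, true, .natT n rfl, .natF n hne.symm⟩
  | cone _ _ => exact h.elim
  | br j =>
    cases z' with
    | nat n => exact ⟨q, le_rfl, .inl n, false, .natF n hne, .natT n rfl⟩
    | cone _ _ => exact h'.elim
    | br j' =>
      obtain ⟨r, hr, μ, m, g1, g2⟩ := exists_split h h' fun e => hne (e ▸ rfl)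
      exact ⟨r, hr, .inr μ, m, .on _ _ g1, .on _ _ g2⟩

theorem isHausdorff (U : Gen PP) : IsHausdorff Mod.mem (xN.val U) (topN.val U) := by
  refine forall_bN (e := ∅) (Φ := fun U x => ∀ y, Mod.mem y (xN.val U) → x ≠ y → ∃ V W,
    Mod.mem V (topN.val U) ∧ Mod.mem W (topN.val U) ∧ Mod.mem x V ∧ Mod.mem y W ∧
      ∀ z, Mod.mem z V → ¬ Mod.mem z W) (fun q z h1 _ => ⟨q, le_rfl, forces_bN (e := ∅)
        fun r hr z' h2 _ => ?_⟩) U
  by_cases e : z = z'
  · exact ⟨r, le_rfl, Forces.of_forall (fun U h => absurd (e ▸ rfl) h) r⟩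
  obtain ⟨s, hs, g, b, g1, g2⟩ := separate (h1.mono hr) h2 e
  refine ⟨s, hs, ((f_bN (e := {(g, b)}) (h1.mono (hs.trans hr)) (by simpa [InB] using g1)).and
    (f_bN (e := {(g, !b)}) (h2.mono hs) (by simpa [InB] using g2))).imp fun U h _ =>
      ⟨_, _, bN_open _ U, bN_open _ U, h.1, h.2, forall_bN
        (Φ := fun U x => ¬ Mod.mem x ((bN {(g, !b)}).val U)) (fun q y a1 a2 =>
          ⟨q, le_rfl, forces_not_iff.2 fun t ht a3 => ?_⟩) U⟩⟩
  obtain ⟨u, hu, a4, a5⟩ := e_bN' a3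
  exact a4.pth.cons ((a2 (g, b) (Finset.mem_singleton_self _)).mono (hu.trans ht))
    (a5 (g, !b) (Finset.mem_singleton_self _))

theorem cover_elim {p : PP} {F Y : Name PP} {z : Pt} (h : Forces p fun U =>
    Covers Mod.mem (F.val U) (Y.val U) ∧ Mod.mem ((eN z).val U) (Y.val U)) :
    ∃ u : Name PP, Forces p fun U =>
      Mod.mem (u.val U) (F.val U) ∧ Mod.mem ((eN z).val U) (u.val U) :=
  Forces.exists_name (Φ := fun U u => Mod.mem u (F.val U) ∧ Mod.mem ((eN z).val U) u)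
    (h.imp fun _ h => h.1 _ h.2)

theorem isCpt (U : Gen PP) : IsCpt Mod.mem (omegaName.val U) (xN.val U) (topN.val U) := by
  intro F
  obtain ⟨F, rfl⟩ := F.exists_name
  refine fun h1 h2 => of_forces_all (Φ := fun U => (IsSub Mod.mem (F.val U) (topN.val U) ∧
    Covers Mod.mem (F.val U) (xN.val U)) → ∃ G, IsSub Mod.mem G (F.val U) ∧
      IsFin Mod.mem (omegaName.val U) G ∧ Covers Mod.mem G (xN.val U))
    (fun p => ⟨p, le_rfl, forces_imp fun p0 _ h0 => ?_⟩) U ⟨h1, h2⟩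
  obtain ⟨q, hq, l, l1, l2⟩ := compact_comb (fun p e => ∃ l : List (Name PP),
      (∀ u ∈ l, Forces p fun U => Mod.mem (u.val U) (F.val U)) ∧
      ∀ q ≤ p, ∀ z, Act q.1 z → InB q.1 z e → ∃ r ≤ q, ∃ u ∈ l,
        Forces r fun U => Mod.mem ((eN z).val U) (u.val U))
    (fun p q e hq ⟨l, a1, a2⟩ => ⟨l, fun u hu => (a1 u hu).mono hq,
      fun r hr => a2 r (hr.trans hq)⟩) p0
    (fun p e e1 e2 h ⟨l, a1, a2⟩ ⟨l', b1, b2⟩ => ⟨l ++ l',
      fun u hu => (List.mem_append.1 hu).elim (a1 u) (b1 u), fun q hq z c1 c2 => by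
        obtain ⟨r, hr, g | g⟩ := h q hq z c1 c2
        · obtain ⟨s, hs, u, hu, g'⟩ := a2 r (hr.trans hq) z (c1.mono hr) g
          exact ⟨s, hs.trans hr, u, List.mem_append_left _ hu, g'⟩
        · obtain ⟨s, hs, u, hu, g'⟩ := b2 r (hr.trans hq) z (c1.mono hr) g
          exact ⟨s, hs.trans hr, u, List.mem_append_right _ hu, g'⟩⟩)
    (fun q hq z hz => by
      obtain ⟨u, hu⟩ := cover_elim (((h0.mono hq).imp fun _ h => h.2).and
        (f_bN (e := ∅) hz (by simp [InB])))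
      obtain ⟨r, hr, e, -, a2, a3⟩ := open_elim (((h0.mono hq).and hu).imp
        fun U h => ⟨h.1.1 _ h.2.1, h.2.2⟩)
      refine ⟨r, hr, e, a2, [u], fun v hv => ?_, fun s hs y b1 b2 => ⟨s, le_rfl, u, by simp,
        ((a3.mono hs).and (f_bN b1 b2)).imp fun U h => h.1 _ h.2⟩⟩
      obtain rfl : v = u := by simpa using hv
      exact (hu.mono hr).imp fun _ h => h.1)
  let A : ULift.{1} (Fin l.length) → Name PP := fun i => l.get i.down
  have g1 : Forces q fun U => IsSub Mod.mem ((fam A).val U) (F.val U) :=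
    forces_forall_mem_fam (Φ := fun U x => Mod.mem x (F.val U))
      fun i r hr => ⟨r, le_rfl, (l1 _ (List.get_mem l i.down)).mono hr⟩
  have g2 : Forces q fun U => LeCard Mod.mem ((fam A).val U) ((natName l.length).val U) :=
    forces_leCard A (fun i => natName i.down.val) (fun x r _ hx => hx.exists_fam)
      (fun i => Forces.of_forall (natName_mem i.down.2) q)
      fun i j hne r _ h => hne (ULift.ext _ _ (Fin.ext h.natName_inj))
  have g3 : Forces q fun U => Covers Mod.mem ((fam A).val U) (xN.val U) :=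
    forces_bN (e := ∅) (Φ := fun U x => ∃ V, Mod.mem V ((fam A).val U) ∧ Mod.mem x V)
      fun r hr z a1 a2 => by
        obtain ⟨s, hs, u, hu, g⟩ := l2 r hr z a1 a2
        obtain ⟨i, rfl⟩ := List.get_of_mem hu
        exact ⟨s, hs, g.imp fun U h => ⟨_, mem_fam A ⟨i⟩ U, h⟩⟩
  exact ⟨q, hq, (g1.and (g2.and g3)).imp fun U h =>
    ⟨_, h.1, ⟨_, natName_mem_omega _ U, h.2.1⟩, h.2.2⟩⟩

theorem br_notMem (j : O) (U : Gen PP) : ¬ Mod.mem ((eN (.br j)).val U) (aN.val U) := fun h =>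
  forall_mem_fam (A := fun n : ULift.{1} ℕ => eN (.nat n.down))
    (Φ := fun U x => x ≠ (eN (.br j)).val U) (fun n U e => by simpa using elt_inj e) U _ h rfl

theorem nat_mem (n : ℕ) (U : Gen PP) : Mod.mem ((eN (.nat n)).val U) (aN.val U) :=
  mem_fam (fun n : ULift.{1} ℕ => eN (.nat n.down)) ⟨n⟩ U

theorem not_sequential (U : Gen PP) :
    ¬ IsSequential Mod.mem (omegaName.val U) (xN.val U) (topN.val U) := by
  intro h
  refine of_forces_all (Φ := fun U => ¬ ∃ V, Mod.mem V (topN.val U) ∧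
    ∀ z, Mod.mem z V ↔ Mod.mem z (xN.val U) ∧ ¬ Mod.mem z (aN.val U))
    (fun p => ⟨p, le_rfl, forces_not_iff.2 fun q _ g => ?_⟩) U (h (aN.val U)
      (forall_mem_fam (Φ := fun U x => Mod.mem x (xN.val U)) (fun n => of_forces_all
        fun p => ⟨p, le_rfl, f_bN (z := .nat n.down) (e := ∅) trivial (by simp [InB])⟩) U)
      fun s x => ?_)
  · obtain ⟨V, hV⟩ := Forces.exists_name (Φ := fun U V => Mod.mem V (topN.val U) ∧
      ∀ z, Mod.mem z V ↔ Mod.mem z (xN.val U) ∧ ¬ Mod.mem z (aN.val U)) g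
    obtain ⟨r, hr, j, hj⟩ := exists_branch q
    obtain ⟨s, hs, e, -, a2, a3⟩ := open_elim (V := V) (z := .br j)
      (((hV.mono hr).and (f_bN (z := .br j) (e := ∅) hj (by simp [InB]))).imp
        fun U h => ⟨h.1.1, (h.1.2 _).2 ⟨h.2, br_notMem j U⟩⟩)
    obtain ⟨t, ht, n, a4⟩ := dense_nat (hj.mono hs) a2
    exact Forces.not_false ((((hV.mono (ht.trans (hs.trans hr))).and (a3.mono ht)).and
      (f_bN (z := .nat n) trivial a4)).imp fun U h => ((h.1.1.2 _).1 (h.1.2 _ h.2)).2 (nat_mem n U))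
  obtain ⟨s, rfl⟩ := s.exists_name
  obtain ⟨x, rfl⟩ := x.exists_name
  have i1 := clopen_isFun s omegaName aN
  have i2 := clopen_mem x xN
  have i3 := clopen_conv omegaName topN s x
  have i4 := @clopen_and _ _ _ _ i2 i3
  have i5 := @clopen_and _ _ _ _ i1 i4
  refine fun h1 h2 h3 => of_forces_all (Φ := fun U =>
    (IsFun Mod.mem (s.val U) (omegaName.val U) (aN.val U) ∧ Mod.mem (x.val U) (xN.val U) ∧
      Conv Mod.mem (omegaName.val U) (topN.val U) (s.val U) (x.val U)) →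
        Mod.mem (x.val U) (aN.val U)) (fun p => ⟨p, le_rfl, forces_imp fun q _ g => ?_⟩) U
    ⟨h1, h2, h3⟩
  obtain ⟨p0, hp0, z, a1, -, a3⟩ := e_bN (g.imp fun _ h => h.2.1)
  have g0 := g.mono hp0
  cases z with
  | nat n => exact ⟨p0, hp0, a3.imp fun U h => h ▸ nat_mem n U⟩
  | cone _ _ => exact a1.elim
  | br j =>
    refine (seq_closed (fun p k n => Forces p fun U =>
      App Mod.mem (s.val U) ((natName k).val U) ((eN (.nat n)).val U))
      (fun _ _ _ _ hq h => h.mono hq) p0 a1 (fun r hr k => ?_) fun r hr e he => ?_).elim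
    · obtain ⟨y, hy⟩ := Forces.exists_name
        (Φ := fun U y => App Mod.mem (s.val U) ((natName k).val U) y)
        ((g0.mono hr).imp fun U h => h.1.2.1 _ (natName_mem_omega k U))
      obtain ⟨t, ht, n, hn⟩ := Forces.exists_fam (((g0.mono hr).and hy).imp
        fun U h => ((isZFC U).app_val h.1.1 h.2).2)
      exact ⟨t, ht, n.down, ((hy.mono ht).and hn).imp fun U h => h.2 ▸ h.1⟩
    · obtain ⟨m, hm⟩ := Forces.exists_name (Φ := fun U m => Mod.mem m (omegaName.val U) ∧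
        ∀ k y, App Mod.mem (s.val U) k y → Mod.mem m k → Mod.mem y ((bN e).val U))
        ((((g0.and a3).mono hr).and (f_bN (z := .br j) (ActB.mono a1 hr) he)).imp
          fun U h => h.1.1.2.2 _ (bN_open e U) (h.1.2 ▸ h.2))
      obtain ⟨t, ht, m', hm'⟩ := Forces.exists_fam (hm.imp fun _ h => h.1)
      refine ⟨t, ht, m'.down + 1, fun u hu k hk n hn => ?_⟩
      obtain ⟨v, hv, -, b⟩ := e_bN' ((((hm.mono (hu.trans ht)).and (hm'.mono hu)).and hn).imp
        fun U h => h.1.1.2 _ _ h.2 (h.1.2 ▸ natName_mem hk U))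
      exact ⟨v, hv, b⟩

theorem weaklyThetaRef (U : Gen PP) (Y : Mod U) (hY : IsSub Mod.mem Y (xN.val U)) :
    WeaklyThetaRef Mod.mem (omegaName.val U) (topN.val U) Y := by
  intro F
  obtain ⟨F, rfl⟩ := F.exists_name
  obtain ⟨Y, rfl⟩ := Y.exists_name
  obtain ⟨Gr, r1, r2, r3⟩ := theta_comb (Sm := fun p e => ∃ u : Name PP, Forces p fun U =>
      Mod.mem (u.val U) (F.val U) ∧ ∀ z, Mod.mem z ((bN e).val U) → Mod.mem z (Y.val U) →
        Mod.mem z (u.val U))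
    ⟨fun p q e hq ⟨u, hu⟩ => ⟨u, hu.mono hq⟩, fun p e e' h ⟨u, hu⟩ => ⟨u, (hu.and (forces_bN
      (e := e') (Φ := fun U x => Mod.mem x ((bN e).val U))
      fun q hq z a1 a2 => ⟨q, le_rfl, f_bN a1 (h q hq z a2)⟩)).imp
        fun U h => ⟨h.1.1, fun z hz => h.1.2 z (h.2 z hz)⟩⟩⟩
  let iN : Cd → Name PP := fun e => sepName (bN e) fun U z => Mod.mem z (Y.val U)
  have hi : ∀ e U z, Mod.mem z ((iN e).val U) ↔ Mod.mem z ((bN e).val U) ∧ Mod.mem z (Y.val U) :=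
    fun e U z => mem_sepName _ _ U z
  let famN : ℕ → Name PP := fun n =>
    .mk {x : PP × Cd // Gr x.1 n x.2} (fun x => iN x.1.2) fun x => x.1.1
  let gN : Name PP := funName (fun n : ULift.{1} ℕ => natName n.down) fun n => famN n.down
  intro h1 h2
  refine ⟨gN.val U, of_forces_all (Φ := fun U => IsFunOn Mod.mem (gN.val U) (omegaName.val U)
    fun H => ∀ g, Mod.mem g H → RelOpen Mod.mem (topN.val U) (Y.val U) g ∧
      ∃ u, Mod.mem u (F.val U) ∧ IsSub Mod.mem g u) (fun p => ⟨p, le_rfl, forces_isFunOn_graph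
        (V := fun U H => ∀ g, Mod.mem g H → RelOpen Mod.mem (topN.val U) (Y.val U) g ∧
          ∃ u, Mod.mem u (F.val U) ∧ IsSub Mod.mem g u)
        (fun n q _ _ => ⟨q, le_rfl, (Forces.of_forall (natName_mem_omega _) q).and
          (forces_forall_mem (b := famN n.down) fun x r _ hx => ?_)⟩)
        (fun n q _ _ => ⟨q, le_rfl, n, le_top, Forces.of_forall (fun _ => rfl) q⟩)
        fun n n' q _ _ _ h => ⟨q, le_rfl, ?_⟩⟩) U, fun y => ?_⟩
  · obtain ⟨u, hu⟩ := r2 _ _ _ x.2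
    exact ⟨r, le_rfl, (hu.mono hx).imp fun U h => ⟨⟨_, bN_open x.1.2 U, hi x.1.2 U⟩, _, h.1,
      fun z hz => h.2 z ((hi _ U z).1 hz).1 ((hi _ U z).1 hz).2⟩⟩
  · rw [h.natName_inj]
    exact Forces.of_forall (fun _ => rfl) q
  obtain ⟨y, rfl⟩ := y.exists_name
  refine fun h3 => of_forces_all (Φ := fun U => (IsSub Mod.mem (Y.val U) (xN.val U) ∧
    (∀ u, Mod.mem u (F.val U) → RelOpen Mod.mem (topN.val U) (Y.val U) u) ∧
    Covers Mod.mem (F.val U) (Y.val U) ∧ Mod.mem (y.val U) (Y.val U)) →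
      ∃ n H, App Mod.mem (gN.val U) n H ∧ (∃ g, Mod.mem g H ∧ Mod.mem (y.val U) g) ∧
        ∃ E, IsFin Mod.mem (omegaName.val U) E ∧
          ∀ g, Mod.mem g E ↔ Mod.mem g H ∧ Mod.mem (y.val U) g)
    (fun p => ⟨p, le_rfl, forces_imp fun q _ g => ?_⟩) U ⟨hY, h1, h2, h3⟩
  obtain ⟨q1, hq1, z, a1, -, a3⟩ := e_bN (g.imp fun _ h => h.1 _ h.2.2.2)
  have g1 := (g.mono hq1).and a3
  obtain ⟨u, hu⟩ := cover_elim (z := z) (g1.imp fun _ h => ⟨h.1.2.2.1, h.2 ▸ h.1.2.2.2⟩)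
  obtain ⟨V, hV⟩ := Forces.exists_name (Φ := fun U V => Mod.mem V (topN.val U) ∧
    ∀ z, Mod.mem z (u.val U) ↔ Mod.mem z V ∧ Mod.mem z (Y.val U))
    ((g1.and hu).imp fun U h => h.1.1.2.1 _ h.2.1)
  obtain ⟨q2, hq2, e, b1, b2, b3⟩ := open_elim (V := V) (z := z)
    ((hV.and hu).imp fun U h => ⟨h.1.1, ((h.1.2 _).1 h.2.2).1⟩)
  obtain ⟨r, hr, c, e0, c1, c2, c3⟩ := r3 q2 z e b1 b2 ⟨u, (((hV.and hu).mono hq2).and b3).imp
    fun U h => ⟨h.1.2.1, fun x x1 x2 => (h.1.1.2 x).2 ⟨h.2 x x1, x2⟩⟩⟩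
  have l := hr.trans hq2
  let E : Name PP := sepName (famN c) fun U g => Mod.mem (y.val U) g
  have hE : ∀ U g, Mod.mem g (E.val U) ↔ Mod.mem g ((famN c).val U) ∧ Mod.mem (y.val U) g :=
    fun U g => mem_sepName _ _ U g
  have d1 : Forces r fun U => Mod.mem ((iN e0).val U) ((famN c).val U) :=
    forces_el_mem (b := famN c) ⟨(r, e0), c1⟩ le_rfl
  have d2 : Forces r fun U => Mod.mem (y.val U) ((iN e0).val U) :=
    ((g1.mono l).and (f_bN (b1.mono hr) c2)).imp fun U h =>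
      (hi e0 U _).2 ⟨h.1.2 ▸ h.2, h.1.1.2.2.2⟩
  have d3 : Forces r fun U => LeCard Mod.mem (E.val U) ((natName 1).val U) :=
    forces_leCard (ι := PUnit.{2}) (fun _ => iN e0) (fun _ => natName 0) (fun x s hs hx => by
        obtain ⟨t, ht, i, i1, i2⟩ := Forces.exists_el (b := famN c)
          (hx.imp fun U h => ((hE U _).1 h).1)
        obtain ⟨v, hv, -, i3⟩ := e_bN' (e := i.1.2) (z := z)
          ((((hx.mono ht).and i2).and (a3.mono (ht.trans (hs.trans l)))).imp fun U h =>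
            h.2 ▸ ((hi i.1.2 U _).1 (show Mod.mem (y.val U) ((iN i.1.2).val U) from
              (show x.val U = (iN i.1.2).val U from h.1.2) ▸ ((hE U _).1 h.1.1).2)).1)
        have e := c3 v (hv.trans (ht.trans hs)) i.1.2 (r1 _ _ _ _ (hv.trans i1) i.2) i3
        exact ⟨t, ht, PUnit.unit, i2.imp fun U h => e ▸ h⟩)
      (fun _ => Forces.of_forall (natName_mem Nat.one_pos) r) fun i j hne => absurd rfl hne
  exact ⟨r, l.trans hq1, (d1.and (d2.and d3)).imp fun U h =>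
    ⟨_, _, app_funName (fun n : ULift.{1} ℕ => natName n.down) (fun n => famN n.down) ⟨c⟩ U,
      ⟨_, h.1, h.2.1⟩, _, ⟨_, natName_mem_omega 1 U, h.2.2⟩, hE U⟩⟩

end Pool.Agent.P.MP_63de32_gt
end
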